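import Mathlib

/-!
# Definitions

Pencils of quadrics in `P³`, their discriminant quartics, and the quartic surfaces
`q₀ q₃ = q₁ q₂`.
-/

set_option autoImplicit false

namespace Pool.Agent.Lib.MP_e1960e_nt.H13

open Polynomial Matrix

/-- The binary quartic form `a s⁴ + b s³ r + c s² r² + d s r³ + e r⁴` has no zero on the
projective line over `K` and its cubic resolvent has no root in `K`. -/
structure Generic {K : Type*} [Field K] (a b c d e : K) : Prop where
  lead : a ≠ 0
  noRoot : ∀ t : K, a * t ^ 4 + b * t ^ 3 + c * t ^ 2 + d * t + e ≠ 0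
  noRes : ∀ y : K, y ^ 3 - c * y ^ 2 + (b * d - 4 * a * e) * y
    - (b ^ 2 * e + a * d ^ 2 - 4 * a * c * e) ≠ 0

/-- The discriminant quartic `det (t A + B)` of a pencil of quadrics in `P³`. -/
noncomputable def pencilPoly {R : Type*} [CommRing R] (A B : Matrix (Fin 4) (Fin 4) R) : R[X] :=
  ((X : R[X]) • A.map C + B.map C).det

/-- The discriminant binary quartic of the pencil has no zero over `K` and its cubic resolvent has
no root in `K` (equivalently: it is irreducible with Galois group `A₄` or `S₄`). -/
def GenericPencil {K : Type*} [Field K] (A B : Matrix (Fin 4) (Fin 4) K) : Prop :=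
  Generic ((pencilPoly A B).coeff 4) ((pencilPoly A B).coeff 3) ((pencilPoly A B).coeff 2)
    ((pencilPoly A B).coeff 1) ((pencilPoly A B).coeff 0)

/-- The quadratic form `∑ A i j x_i x_j`. -/
noncomputable def quad {K : Type*} [Field K] (A : Matrix (Fin 4) (Fin 4) K) :
    MvPolynomial (Fin 4) K :=
  ∑ i, ∑ j, MvPolynomial.C (A i j) * MvPolynomial.X i * MvPolynomial.X j

/-- The quartic form `q₀ q₃ - q₁ q₂`, where `q_i` is the quadratic form of `A i`. -/
noncomputable def quartic {K : Type*} [Field K] (A : Fin 4 → Matrix (Fin 4) (Fin 4) K) :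
    MvPolynomial (Fin 4) K :=
  quad (A 0) * quad (A 3) - quad (A 1) * quad (A 2)

/-- The `K`-points of the surface `F = 0` in `P³`. -/
def points {K : Type*} [Field K] (F : MvPolynomial (Fin 4) K) :
    Set (Projectivization K (Fin 4 → K)) :=
  {p | MvPolynomial.eval p.rep F = 0}

end Pool.Agent.Lib.MP_e1960e_nt.H13
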