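import Mathlib
import Pool.Agent.Lib.MP_e1960e_nt.H13.Basic

/-!
# Determinantal quartic surfaces
-/

set_option autoImplicit false

namespace Pool.Agent.Lib.MP_e1960e_nt.H13

/-- The determinant of the matrix of linear forms `M(X) = X₀ M₀ + X₁ M₁ + X₂ M₂ + X₃ M₃`, where
the matrix `M_i` has entries `T i j k`. -/
noncomputable def detForm {R : Type*} [CommRing R] (T : Fin 4 → Fin 4 → Fin 4 → R) :
    MvPolynomial (Fin 4) R :=
  (Matrix.of fun j k => ∑ i, MvPolynomial.C (T i j k) * MvPolynomial.X i).det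

end Pool.Agent.Lib.MP_e1960e_nt.H13
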