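import Mathlib

/-!
# A self-map without periodic points

An abstract argument: a label that increases by one modulo 5 at each step forces the period of a
periodic point to be divisible by 5, and nested congruences with at most four classes at each level
exclude this.
-/

set_option autoImplicit false

namespace Pool.Agent.Lib.MP_e1960e_nt.H13

theorem no_cycle {S : Type*} [Finite S] [Nonempty S] (g : S → S) (f : S → ZMod 5)
    (hf : ∀ x, f (g x) = f x + 1) (E : ℕ → S → S → Prop)
    (hsymm : ∀ n x y, E n x y → E n y x) (htrans : ∀ n x y z, E n x y → E n y z → E n x z)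
    (hE0 : ∀ x y, E 0 x y) (hg : ∀ n x y, E n x y → E n (g x) (g y))
    (hsplit : ∀ n (P : Fin 5 → S), (∀ i, E n (P 0) (P i)) →
      ∃ i j, i < j ∧ E (n + 1) (P i) (P j))
    (hsep : ∀ x y, (∀ n, E n x y) → x = y) : False := by
  -- a periodic point
  obtain ⟨P, hP⟩ : ∃ P : S, P ∈ Function.periodicPts g := by
    obtain ⟨x0⟩ := ‹Nonempty S›
    obtain ⟨m, n, hmn, h⟩ := Finite.exists_ne_map_eq_of_infinite (fun n : ℕ => g^[n] x0)
    have key : ∀ m n : ℕ, m < n → g^[m] x0 = g^[n] x0 → ∃ P : S, P ∈ Function.periodicPts g := by
      intro m n hlt h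
      refine ⟨g^[m] x0, n - m, by omega, ?_⟩
      change g^[n - m] (g^[m] x0) = g^[m] x0
      rw [← Function.iterate_add_apply, Nat.sub_add_cancel hlt.le]
      exact h.symm
    rcases lt_or_gt_of_ne hmn with h1 | h1
    · exact key m n h1 h
    · exact key n m h1 h.symm
  have hpos : 0 < Function.minimalPeriod g P := Function.minimalPeriod_pos_of_mem_periodicPts hP
  have hfk : ∀ k : ℕ, f (g^[k] P) = f P + k := by
    intro k
    induction k with
    | zero => simp
    | succ k ih => rw [Function.iterate_succ_apply', hf, ih]; push_cast; ring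
  have hper : g^[Function.minimalPeriod g P] P = P := Function.isPeriodicPt_minimalPeriod g P
  have h5 : 5 ∣ Function.minimalPeriod g P := by
    have := hfk (Function.minimalPeriod g P)
    rw [hper] at this
    have h0 : ((Function.minimalPeriod g P : ℕ) : ZMod 5) = 0 := by
      linear_combination -this
    exact (ZMod.natCast_eq_zero_iff _ 5).1 h0
  obtain ⟨n', hn'⟩ := h5
  have hn'pos : 0 < n' := by omega
  have hgi : ∀ n i x y, E n x y → E n (g^[i] x) (g^[i] y) := by
    intro n i x y hxy
    induction i with
    | zero => exact hxy
    | succ k ih =>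
      rw [Function.iterate_succ_apply', Function.iterate_succ_apply']
      exact hg n _ _ ih
  set h : S → S := g^[n'] with hh
  have hne : h P ≠ P := by
    apply Function.not_isPeriodicPt_of_pos_of_lt_minimalPeriod hn'pos.ne'
    omega
  have hhE : ∀ n x y, E n x y → E n (h x) (h y) := fun n x y hxy => hgi n n' x y hxy
  have hhEi : ∀ n i x y, E n x y → E n (h^[i] x) (h^[i] y) := by
    intro n i x y hxy
    induction i with
    | zero => exact hxy
    | succ k ih =>
      rw [Function.iterate_succ_apply', Function.iterate_succ_apply']
      exact hhE n _ _ ih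
  have h5P : h^[5] P = P := by
    rw [hh, ← Function.iterate_mul]
    have : n' * 5 = Function.minimalPeriod g P := by omega
    rw [this]; exact hper
  have hshift : ∀ i : ℕ, h^[i + 5] P = h^[i] P := by
    intro i; rw [Function.iterate_add_apply, h5P]
  have hshift' : ∀ i k : ℕ, h^[i + 5 * k] P = h^[i] P := by
    intro i k
    induction k with
    | zero => rfl
    | succ k ih =>
      have : i + 5 * (k + 1) = i + 5 * k + 5 := by ring
      rw [this, hshift, ih]
  apply hne
  symm
  apply hsep
  intro n
  induction n with
  | zero => exact hE0 _ _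
  | succ n ih =>
    have h1 : ∀ i : ℕ, E n (h^[i] P) (h^[i + 1] P) := by
      intro i
      have := hhEi n i _ _ ih
      rw [← Function.iterate_succ_apply] at this
      exact this
    have h2 : ∀ i : ℕ, E n P (h^[i] P) := by
      intro i
      induction i with
      | zero => exact htrans n _ _ _ ih (hsymm n _ _ ih)
      | succ i ihi => exact htrans n _ _ _ ihi (h1 i)
    obtain ⟨i, j, hij, hE⟩ := hsplit n (fun i : Fin 5 => h^[(i : ℕ)] P) (fun i => by
      simpa using h2 i)
    have hi := i.isLt
    have hj := j.isLt
    have hij' : (i : ℕ) < j := hij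
    have h3 := hhEi (n + 1) (5 - i) _ _ hE
    rw [← Function.iterate_add_apply, ← Function.iterate_add_apply] at h3
    have e1 : 5 - (i : ℕ) + i = 0 + 5 := by omega
    have e2 : 5 - (i : ℕ) + j = (j - i) + 5 := by omega
    rw [e1, e2, hshift, hshift] at h3
    set d : ℕ := (j : ℕ) - i with hd
    have hd1 : 1 ≤ d := by omega
    have hd4 : d ≤ 4 := by omega
    -- iterate
    have h4 : ∀ m : ℕ, E (n + 1) P (h^[(m + 1) * d] P) := by
      intro m
      induction m with
      | zero => rw [zero_add, one_mul]; exact h3
      | succ m ihm =>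
        have h5 := hhEi (n + 1) ((m + 1) * d) _ _ h3
        simp only [Function.iterate_zero, id] at h5
        rw [← Function.iterate_add_apply] at h5
        have e : (m + 1) * d + d = (m + 1 + 1) * d := by ring
        rw [e] at h5
        exact htrans (n + 1) _ _ _ ihm h5
    have hcase : d = 1 ∨ d = 2 ∨ d = 3 ∨ d = 4 := by omega
    rcases hcase with h6 | h6 | h6 | h6
    · have := h4 0
      rw [h6] at this
      exact this
    · have := h4 2
      rw [h6] at this
      have e : (2 + 1) * 2 = 1 + 5 * 1 := rfl
      rw [e, hshift'] at this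
      exact this
    · have := h4 1
      rw [h6] at this
      have e : (1 + 1) * 3 = 1 + 5 * 1 := rfl
      rw [e, hshift'] at this
      exact this
    · have := h4 3
      rw [h6] at this
      have e : (3 + 1) * 4 = 1 + 5 * 3 := rfl
      rw [e, hshift'] at this
      exact this

end Pool.Agent.Lib.MP_e1960e_nt.H13
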