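import Mathlib

/-!
# Trilinear forms and congruences
-/

set_option autoImplicit false

namespace Pool.Agent.Lib.MP_e1960e_nt.H13

/-- The contraction of a `4 × 4 × 4` tensor with two vectors. -/
def ap {R : Type*} [CommRing R] (T : Fin 4 → Fin 4 → Fin 4 → R) (x y : Fin 4 → R) (k : Fin 4) :
    R := ∑ i, ∑ j, T i j k * x i * y j

/-- Cyclic rotation of a tensor. -/
def rot {R : Type*} (T : Fin 4 → Fin 4 → Fin 4 → R) : Fin 4 → Fin 4 → Fin 4 → R :=
  fun j k i => T i j k

/-- The trilinear form. -/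
def tri {R : Type*} [CommRing R] (T : Fin 4 → Fin 4 → Fin 4 → R) (x y z : Fin 4 → R) : R :=
  ∑ k, ap T x y k * z k

section Algebra

variable {R : Type*} [CommRing R]

theorem ap_add_right (T : Fin 4 → Fin 4 → Fin 4 → R) (x y y' : Fin 4 → R) (k : Fin 4) :
    ap T x (fun j => y j + y' j) k = ap T x y k + ap T x y' k := by
  simp only [ap, mul_add, Finset.sum_add_distrib]

theorem ap_smul_right (T : Fin 4 → Fin 4 → Fin 4 → R) (x y : Fin 4 → R) (c : R) (k : Fin 4) :
    ap T x (fun j => c * y j) k = c * ap T x y k := by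
  simp only [ap, Finset.mul_sum]
  refine Finset.sum_congr rfl fun i _ => Finset.sum_congr rfl fun j _ => ?_
  ring

theorem ap_add_left (T : Fin 4 → Fin 4 → Fin 4 → R) (x x' y : Fin 4 → R) (k : Fin 4) :
    ap T (fun i => x i + x' i) y k = ap T x y k + ap T x' y k := by
  simp only [ap, mul_add, add_mul, Finset.sum_add_distrib]

theorem ap_smul_left (T : Fin 4 → Fin 4 → Fin 4 → R) (x y : Fin 4 → R) (c : R) (k : Fin 4) :
    ap T (fun i => c * x i) y k = c * ap T x y k := by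
  simp only [ap, Finset.mul_sum]
  refine Finset.sum_congr rfl fun i _ => Finset.sum_congr rfl fun j _ => ?_
  ring

theorem tri_add_left (T : Fin 4 → Fin 4 → Fin 4 → R) (x x' y z : Fin 4 → R) :
    tri T (fun i => x i + x' i) y z = tri T x y z + tri T x' y z := by
  simp only [tri, ap_add_left, add_mul, Finset.sum_add_distrib]

theorem tri_smul_left (T : Fin 4 → Fin 4 → Fin 4 → R) (x y z : Fin 4 → R) (c : R) :
    tri T (fun i => c * x i) y z = c * tri T x y z := by
  simp only [tri, ap_smul_left, Finset.mul_sum, mul_assoc]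

theorem tri_add_mid (T : Fin 4 → Fin 4 → Fin 4 → R) (x y y' z : Fin 4 → R) :
    tri T x (fun i => y i + y' i) z = tri T x y z + tri T x y' z := by
  simp only [tri, ap_add_right, add_mul, Finset.sum_add_distrib]

theorem tri_smul_mid (T : Fin 4 → Fin 4 → Fin 4 → R) (x y z : Fin 4 → R) (c : R) :
    tri T x (fun i => c * y i) z = c * tri T x y z := by
  simp only [tri, ap_smul_right, Finset.mul_sum, mul_assoc]

/-- `T(x, ·, z) = 0` in terms of the rotated tensor. -/
theorem tri_eq_rot (T : Fin 4 → Fin 4 → Fin 4 → R) (x y z : Fin 4 → R) :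
    tri T x y z = ∑ j, ap (rot (rot T)) z x j * y j := by
  simp only [tri, ap, rot, Fin.sum_univ_four]
  ring

theorem tri_eq_rot' (T : Fin 4 → Fin 4 → Fin 4 → R) (x y z : Fin 4 → R) :
    tri T x y z = ∑ i, ap (rot T) y z i * x i := by
  simp only [tri, ap, rot, Fin.sum_univ_four]
  ring

theorem ap_map {S : Type*} [CommRing S] (φ : R →+* S) (T : Fin 4 → Fin 4 → Fin 4 → R)
    (x y : Fin 4 → R) (k : Fin 4) :
    φ (ap T x y k) = ap (fun i j k => φ (T i j k)) (fun i => φ (x i)) (fun i => φ (y i)) k := by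
  simp only [ap, map_sum, map_mul]

end Algebra

section Congruence

variable {R : Type*} [CommRing R]

/-- Proportionality of two vectors modulo `ϖ ^ n`. -/
def Prop2 (ϖ : R) (n : ℕ) (x y : Fin 4 → R) : Prop := ∀ i j, ϖ ^ n ∣ x i * y j - x j * y i

/-- Some coordinate is not divisible by `ϖ`. -/
def Prim (ϖ : R) (x : Fin 4 → R) : Prop := ∃ i, ¬ ϖ ∣ x i

theorem Prop2.symm {ϖ : R} {n : ℕ} {x y : Fin 4 → R} (h : Prop2 ϖ n x y) : Prop2 ϖ n y x := by
  intro i j
  have := h j i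
  have e : y i * x j - y j * x i = x j * y i - x i * y j := by ring
  rw [e]; exact this

theorem Prop2.zero (ϖ : R) (x y : Fin 4 → R) : Prop2 ϖ 0 x y := by
  intro i j; rw [pow_zero]; exact one_dvd _

theorem Prop2.trans [IsDomain R] {ϖ : R} (hϖ : Prime ϖ) {n : ℕ} {x y z : Fin 4 → R}
    (h1 : Prop2 ϖ n x y) (h2 : Prop2 ϖ n y z) (hy : Prim ϖ y) : Prop2 ϖ n x z := by
  obtain ⟨j, hj⟩ := hy
  intro i k
  apply hϖ.pow_dvd_of_dvd_mul_left n hj
  have e : y j * (x i * z k - x k * z i) = x i * (y j * z k - y k * z j)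
      + z j * (x i * y k - x k * y i) + x k * (y i * z j - y j * z i) := by ring
  rw [e]
  exact dvd_add (dvd_add (Dvd.dvd.mul_left (h2 j k) _) (Dvd.dvd.mul_left (h1 i k) _))
    (Dvd.dvd.mul_left (h2 i j) _)

/-- Solutions modulo `ϖ ^ n`. -/
theorem lift_kernel [IsDomain R] {ϖ : R} (hϖ : Prime ϖ) (T : Fin 4 → Fin 4 → Fin 4 → R)
    (x y : Fin 4 → R) (hxy : ∀ k, ap T x y k = 0)
    (hU : ∀ w : Fin 4 → R, (∀ k, ϖ ∣ ap T x w k) → ∃ c, ∀ j, ϖ ∣ w j - c * y j) :
    ∀ (n : ℕ) (w : Fin 4 → R), (∀ k, ϖ ^ n ∣ ap T x w k) → ∃ c, ∀ j, ϖ ^ n ∣ w j - c * y j := by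
  intro n
  induction n with
  | zero => intro w _; exact ⟨0, fun j => by rw [pow_zero]; exact one_dvd _⟩
  | succ n ih =>
    intro w hw
    obtain ⟨c0, hc0⟩ := hU w (fun k => dvd_trans (dvd_pow_self ϖ (Nat.succ_ne_zero n)) (hw k))
    choose w1 hw1 using hc0
    have hw' : w = fun j => c0 * y j + ϖ * w1 j := by
      funext j; have := hw1 j; linear_combination this
    have h1 : ∀ k, ϖ ^ n ∣ ap T x w1 k := by
      intro k
      have h2 := hw k
      rw [hw', ap_add_right T x (fun j => c0 * y j) (fun j => ϖ * w1 j) k, ap_smul_right,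
        ap_smul_right, hxy, mul_zero, zero_add, pow_succ'] at h2
      exact (mul_dvd_mul_iff_left hϖ.ne_zero).1 h2
    obtain ⟨c1, hc1⟩ := ih w1 h1
    refine ⟨c0 + ϖ * c1, fun j => ?_⟩
    have e : w j - (c0 + ϖ * c1) * y j = ϖ * (w1 j - c1 * y j) := by
      have := congrFun hw' j
      rw [this]; ring
    rw [e, pow_succ']
    exact mul_dvd_mul_left ϖ (hc1 j)

/-- Transfer of congruences along the correspondence. -/
theorem cong_transfer [IsDomain R] {ϖ : R} (hϖ : Prime ϖ) (T : Fin 4 → Fin 4 → Fin 4 → R)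
    (x x' y y' : Fin 4 → R) (hx : Prim ϖ x) (hx' : Prim ϖ x')
    (hxy : ∀ k, ap T x y k = 0) (hxy' : ∀ k, ap T x' y' k = 0)
    (hU : ∀ w : Fin 4 → R, (∀ k, ϖ ∣ ap T x w k) → ∃ c, ∀ j, ϖ ∣ w j - c * y j)
    (n : ℕ) (h : Prop2 ϖ n x x') : Prop2 ϖ n y y' := by
  rcases Nat.eq_zero_or_pos n with rfl | hn
  · exact Prop2.zero _ _ _
  obtain ⟨a, ha⟩ := hx
  have hpow : ϖ ∣ ϖ ^ n := dvd_pow_self ϖ hn.ne'
  choose m hm using fun i => h a i
  -- `x_a x'_i = x_i x'_a + ϖ^n m_i`
  have ha' : ¬ ϖ ∣ x' a := by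
    intro hdiv
    obtain ⟨i, hi⟩ := hx'
    apply hi
    have h1 : ϖ ∣ x a * x' i := by
      have e : x a * x' i = (x a * x' i - x i * x' a) + x i * x' a := by ring
      rw [e]
      exact dvd_add (dvd_trans hpow (h a i)) (Dvd.dvd.mul_left hdiv _)
    exact (hϖ.dvd_or_dvd h1).resolve_left ha
  have h2 : ∀ k, ϖ ^ n ∣ ap T x y' k := by
    intro k
    apply hϖ.pow_dvd_of_dvd_mul_left n ha'
    have e1 : (fun i => x a * x' i) = fun i => x' a * x i + ϖ ^ n * m i := by
      funext i; have := hm i; linear_combination this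
    have e2 : ap T (fun i => x a * x' i) y' k = 0 := by rw [ap_smul_left, hxy', mul_zero]
    rw [e1, ap_add_left T (fun i => x' a * x i) (fun i => ϖ ^ n * m i), ap_smul_left,
      ap_smul_left] at e2
    exact ⟨-(ap T m y' k), by linear_combination e2⟩
  obtain ⟨c, hc⟩ := lift_kernel hϖ T x y hxy hU n y' h2
  intro i j
  obtain ⟨u, hu⟩ := hc i
  obtain ⟨v, hv⟩ := hc j
  exact ⟨y i * v - y j * u, by linear_combination y i * hv - y j * hu⟩

end Congruence

end Pool.Agent.Lib.MP_e1960e_nt.H13
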