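import Mathlib
import Pool.Agent.Lib.MP_e1960e_nt.H13.Tri

/-!
# The tensors modulo 2 and modulo 3
-/

set_option autoImplicit false

namespace Pool.Agent.Lib.MP_e1960e_nt.H13

/-- The tensor modulo 2. -/
def ten2 : Fin 4 → Fin 4 → Fin 4 → ZMod 2 :=
  ![![![0, 1, 0, 1], ![1, 1, 1, 0], ![0, 1, 1, 1], ![0, 1, 1, 1]],
    ![![0, 1, 0, 1], ![0, 0, 1, 1], ![1, 1, 1, 1], ![0, 0, 0, 1]],
    ![![0, 1, 1, 1], ![0, 1, 1, 0], ![1, 1, 0, 0], ![1, 0, 0, 0]],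
    ![![1, 0, 0, 1], ![0, 1, 1, 0], ![1, 1, 0, 1], ![0, 1, 0, 1]]]

/-- The tensor modulo 3. -/
def ten3 : Fin 4 → Fin 4 → Fin 4 → ZMod 3 :=
  ![![![0, 2, 2, 0], ![0, 0, 2, 0], ![2, 1, 2, 0], ![0, 0, 1, 0]],
    ![![0, 1, 1, 0], ![1, 0, 0, 2], ![0, 2, 0, 0], ![0, 2, 1, 1]],
    ![![0, 1, 1, 2], ![2, 0, 1, 1], ![0, 0, 2, 0], ![1, 1, 1, 1]],
    ![![2, 2, 0, 1], ![1, 1, 0, 0], ![2, 1, 0, 2], ![2, 1, 0, 1]]]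

set_option maxRecDepth 100000 in
theorem uniq2 : ∀ x : Fin 4 → ZMod 2, x ≠ 0 → ∀ y : Fin 4 → ZMod 2, y ≠ 0 →
    (∀ k, ap ten2 x y k = 0) → ∀ w : Fin 4 → ZMod 2, (∀ k, ap ten2 x w k = 0) →
    w = 0 ∨ w = y := by
  decide

set_option maxRecDepth 100000 in
theorem uniq2' : ∀ x : Fin 4 → ZMod 2, x ≠ 0 → ∀ y : Fin 4 → ZMod 2, y ≠ 0 →
    (∀ k, ap (rot ten2) x y k = 0) → ∀ w : Fin 4 → ZMod 2, (∀ k, ap (rot ten2) x w k = 0) →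
    w = 0 ∨ w = y := by
  decide

set_option maxRecDepth 100000 in
theorem uniq2'' : ∀ x : Fin 4 → ZMod 2, x ≠ 0 → ∀ y : Fin 4 → ZMod 2, y ≠ 0 →
    (∀ k, ap (rot (rot ten2)) x y k = 0) →
    ∀ w : Fin 4 → ZMod 2, (∀ k, ap (rot (rot ten2)) x w k = 0) →
    w = 0 ∨ w = y := by
  decide

set_option maxRecDepth 100000 in
theorem smooth2 : ∀ x : Fin 4 → ZMod 2, x ≠ 0 → ∀ y : Fin 4 → ZMod 2, y ≠ 0 →
    (∀ k, ap ten2 x y k = 0) → ∀ z : Fin 4 → ZMod 2, z ≠ 0 →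
    (∀ j, ap (rot (rot ten2)) z x j = 0) → ∃ i, ap (rot ten2) y z i ≠ 0 := by
  decide

set_option maxRecDepth 100000 in
theorem points2 : ∀ x : Fin 4 → ZMod 2, x ≠ 0 → ∀ y : Fin 4 → ZMod 2, y ≠ 0 →
    (∀ k, ap ten2 x y k = 0) →
    x ∈ ({![0, 0, 1, 1], ![1, 0, 0, 0], ![1, 0, 0, 1], ![1, 1, 0, 0]} :
      Finset (Fin 4 → ZMod 2)) := by
  decide

end Pool.Agent.Lib.MP_e1960e_nt.H13
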