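import Mathlib
import Pool.Agent.Lib.MP_e1960e_nt.H13.TenData

/-!
# Labels modulo 5 of the points modulo 3
-/

set_option autoImplicit false

namespace Pool.Agent.Lib.MP_e1960e_nt.H13

/-- The relation on codes of vectors. -/
def relA (x0 x1 x2 x3 y0 y1 y2 y3 : ℕ) : Bool :=
  ((2 * x3) * y0 + (x1 + 2 * x2 + x3) * y1 + (2 * x0 + 2 * x3) * y2 + (x2 + 2 * x3) * y3) % 3 == 0 &&
  ((2 * x0 + x1 + x2 + 2 * x3) * y0 + (x3) * y1 + (x0 + 2 * x1 + x3) * y2 + (2 * x1 + x2 + x3) * y3) % 3 == 0 &&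
  ((2 * x0 + x1 + x2) * y0 + (2 * x0 + x2) * y1 + (2 * x0 + 2 * x2) * y2 + (x0 + x1 + x2) * y3) % 3 == 0 &&
  ((2 * x2 + x3) * y0 + (2 * x1 + x2) * y1 + (2 * x3) * y2 + (x1 + x2 + x3) * y3) % 3 == 0

/-- The relation on codes of vectors. -/
def relB (x0 x1 x2 x3 y0 y1 y2 y3 : ℕ) : Bool :=
  ((2 * x2) * y0 + (2 * x0 + x2) * y1 + (2 * x0 + 2 * x1 + 2 * x2 + x3) * y2) % 3 == 0 &&
  ((x1) * y0 + (x0 + 2 * x2 + 2 * x3) * y1 + (x0 + x3) * y2 + (2 * x1 + x3) * y3) % 3 == 0 &&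
  ((2 * x1 + x3) * y0 + (x0 + x3) * y1 + (x0 + x1 + 2 * x2 + x3) * y2 + (2 * x0 + x1 + x3) * y3) % 3 == 0 &&
  ((2 * x0 + x1 + 2 * x2 + 2 * x3) * y0 + (2 * x0 + x1 + x2 + x3) * y1 + (x0 + 2 * x2 + x3) * y3) % 3 == 0

/-- The relation on codes of vectors. -/
def relC (x0 x1 x2 x3 y0 y1 y2 y3 : ℕ) : Bool :=
  ((2 * x1 + 2 * x2) * y0 + (x1 + x2) * y1 + (x1 + x2 + 2 * x3) * y2 + (2 * x0 + 2 * x1 + x3) * y3) % 3 == 0 &&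
  ((2 * x2) * y0 + (x0 + 2 * x3) * y1 + (2 * x0 + x2 + x3) * y2 + (x0 + x1) * y3) % 3 == 0 &&
  ((2 * x0 + x1 + 2 * x2) * y0 + (2 * x1) * y1 + (2 * x2) * y2 + (2 * x0 + x1 + 2 * x3) * y3) % 3 == 0 &&
  ((x2) * y0 + (2 * x1 + x2 + x3) * y1 + (x0 + x1 + x2 + x3) * y2 + (2 * x0 + x1 + x3) * y3) % 3 == 0

/-- Labels of the points of the first surface. -/
def tabX : List ℕ := [0, 0, 0, 4, 0, 0, 4, 0, 0, 0, 0, 0, 0, 0, 0, 0, 0, 0, 0, 0, 0, 0, 0, 0, 0, 0, 0, 3, 1, 0, 0, 0, 0, 0, 0, 0, 1, 0, 0, 3, 0, 0, 0, 2, 0, 0, 4, 0, 0, 0, 0, 0, 2, 0, 3, 0, 1, 0, 0, 0, 0, 0, 0, 0, 0, 4, 0, 0, 2, 0, 0, 0, 1, 0, 0, 0, 0, 2, 3, 0, 0]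

/-- Labels of the points of the second surface. -/
def tabY : List ℕ := [0, 0, 0, 0, 1, 0, 0, 0, 1, 3, 3, 0, 0, 0, 0, 0, 0, 0, 3, 0, 3, 0, 0, 0, 0, 0, 0, 1, 2, 0, 4, 0, 0, 0, 0, 0, 0, 0, 0, 0, 0, 0, 0, 0, 0, 0, 0, 2, 0, 0, 0, 0, 0, 4, 1, 0, 2, 0, 0, 0, 4, 0, 0, 0, 2, 0, 0, 4, 0, 0, 0, 0, 0, 0, 0, 0, 0, 0, 0, 0, 0]

/-- Labels of the points of the third surface. -/
def tabZ : List ℕ := [0, 2, 2, 4, 0, 0, 4, 0, 0, 0, 4, 0, 0, 0, 0, 0, 0, 0, 0, 0, 4, 0, 0, 0, 0, 0, 0, 0, 0, 0, 0, 2, 0, 0, 0, 0, 0, 3, 0, 0, 1, 0, 0, 0, 0, 0, 3, 0, 1, 0, 0, 0, 0, 0, 0, 0, 0, 0, 0, 0, 0, 0, 2, 0, 0, 3, 0, 0, 0, 1, 0, 0, 0, 0, 3, 0, 0, 0, 0, 0, 1]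

/-- Bounded check of a relation between labels. -/
def chk (r : ℕ → ℕ → ℕ → ℕ → ℕ → ℕ → ℕ → ℕ → Bool) (s t : List ℕ) (c : ℕ) : Bool :=
  (List.range 81).all fun u => (List.range 81).all fun v =>
    u == 0 || v == 0 || !(r (u / 27) (u / 9 % 3) (u / 3 % 3) (u % 3)
      (v / 27) (v / 9 % 3) (v / 3 % 3) (v % 3)) || (s.getD u 0 + c) % 5 == t.getD v 0 % 5

set_option maxRecDepth 100000 in
theorem chkA : chk relA tabX tabY 0 = true := by decide +kernel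

set_option maxRecDepth 100000 in
theorem chkB : chk relB tabY tabZ 0 = true := by decide +kernel

set_option maxRecDepth 100000 in
theorem chkC : chk relC tabZ tabX 1 = true := by decide +kernel

end Pool.Agent.Lib.MP_e1960e_nt.H13
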