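import Mathlib
import Pool.Agent.Lib.MP_e1960e_nt.H13.Labels

/-!
# Labels modulo 5 of the points modulo 3, final form
-/

set_option autoImplicit false

namespace Pool.Agent.Lib.MP_e1960e_nt.H13

/-- The code of a vector. -/
def code (x : Fin 4 → ZMod 3) : ℕ :=
  27 * (x 0).val + 9 * (x 1).val + 3 * (x 2).val + (x 3).val

/-- The label of a vector. -/
def lab (t : List ℕ) (x : Fin 4 → ZMod 3) : ℕ := t.getD (code x) 0

theorem code_lt (x : Fin 4 → ZMod 3) : code x < 81 := by
  have h0 := ZMod.val_lt (x 0)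
  have h1 := ZMod.val_lt (x 1)
  have h2 := ZMod.val_lt (x 2)
  have h3 := ZMod.val_lt (x 3)
  unfold code; omega

theorem code_ne_zero (x : Fin 4 → ZMod 3) (hx : x ≠ 0) : code x ≠ 0 := by
  intro h
  unfold code at h
  apply hx
  funext i
  fin_cases i
  · exact (ZMod.val_eq_zero (x 0)).1 (by omega)
  · exact (ZMod.val_eq_zero (x 1)).1 (by omega)
  · exact (ZMod.val_eq_zero (x 2)).1 (by omega)
  · exact (ZMod.val_eq_zero (x 3)).1 (by omega)

theorem digits (x : Fin 4 → ZMod 3) : code x / 27 = (x 0).val ∧ code x / 9 % 3 = (x 1).val ∧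
    code x / 3 % 3 = (x 2).val ∧ code x % 3 = (x 3).val := by
  have h0 := ZMod.val_lt (x 0)
  have h1 := ZMod.val_lt (x 1)
  have h2 := ZMod.val_lt (x 2)
  have h3 := ZMod.val_lt (x 3)
  unfold code
  refine ⟨?_, ?_, ?_, ?_⟩ <;> omega

theorem of_chk (r : ℕ → ℕ → ℕ → ℕ → ℕ → ℕ → ℕ → ℕ → Bool) (s t : List ℕ) (c : ℕ)
    (h : chk r s t c = true) (x y : Fin 4 → ZMod 3) (hx : x ≠ 0) (hy : y ≠ 0)
    (hr : r (x 0).val (x 1).val (x 2).val (x 3).val (y 0).val (y 1).val (y 2).val (y 3).val
      = true) : (lab s x + c) % 5 = lab t y % 5 := by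
  unfold chk at h
  rw [List.all_eq_true] at h
  have h1 := h (code x) (List.mem_range.2 (code_lt x))
  rw [List.all_eq_true] at h1
  have h2 := h1 (code y) (List.mem_range.2 (code_lt y))
  obtain ⟨a0, a1, a2, a3⟩ := digits x
  obtain ⟨b0, b1, b2, b3⟩ := digits y
  rw [a0, a1, a2, a3, b0, b1, b2, b3, hr] at h2
  have hx' := code_ne_zero x hx
  have hy' := code_ne_zero y hy
  simpa [hx', hy', lab] using h2

theorem mod_of_cast (n : ℕ) (h : (n : ZMod 3) = 0) : (n % 3 == 0) = true := by
  have := (ZMod.natCast_eq_zero_iff n 3).1 h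
  simp only [beq_iff_eq]
  omega

theorem labA (x y : Fin 4 → ZMod 3) (hx : x ≠ 0) (hy : y ≠ 0) (h : ∀ k, ap ten3 x y k = 0) :
    (lab tabX x + 0) % 5 = lab tabY y % 5 := by
  apply of_chk relA tabX tabY 0 chkA x y hx hy
  have h0 := h 0
  have h1 := h 1
  have h2 := h 2
  have h3 := h 3
  simp only [ap, ten3, Fin.sum_univ_four, Matrix.cons_val_zero, Matrix.cons_val_one,
    Matrix.cons_val] at h0 h1 h2 h3
  simp only [relA, Bool.and_eq_true]
  refine ⟨⟨⟨?_, ?_⟩, ?_⟩, ?_⟩
  · apply mod_of_cast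
    push_cast
    simp only [ZMod.natCast_zmod_val]
    linear_combination h0
  · apply mod_of_cast
    push_cast
    simp only [ZMod.natCast_zmod_val]
    linear_combination h1
  · apply mod_of_cast
    push_cast
    simp only [ZMod.natCast_zmod_val]
    linear_combination h2
  · apply mod_of_cast
    push_cast
    simp only [ZMod.natCast_zmod_val]
    linear_combination h3

theorem labB (x y : Fin 4 → ZMod 3) (hx : x ≠ 0) (hy : y ≠ 0)
    (h : ∀ k, ap (rot ten3) x y k = 0) :
    (lab tabY x + 0) % 5 = lab tabZ y % 5 := by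
  apply of_chk relB tabY tabZ 0 chkB x y hx hy
  have h0 := h 0
  have h1 := h 1
  have h2 := h 2
  have h3 := h 3
  simp only [ap, rot, ten3, Fin.sum_univ_four, Matrix.cons_val_zero, Matrix.cons_val_one,
    Matrix.cons_val] at h0 h1 h2 h3
  simp only [relB, Bool.and_eq_true]
  refine ⟨⟨⟨?_, ?_⟩, ?_⟩, ?_⟩
  · apply mod_of_cast
    push_cast
    simp only [ZMod.natCast_zmod_val]
    linear_combination h0
  · apply mod_of_cast
    push_cast
    simp only [ZMod.natCast_zmod_val]
    linear_combination h1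
  · apply mod_of_cast
    push_cast
    simp only [ZMod.natCast_zmod_val]
    linear_combination h2
  · apply mod_of_cast
    push_cast
    simp only [ZMod.natCast_zmod_val]
    linear_combination h3

theorem labC (x y : Fin 4 → ZMod 3) (hx : x ≠ 0) (hy : y ≠ 0)
    (h : ∀ k, ap (rot (rot ten3)) x y k = 0) :
    (lab tabZ x + 1) % 5 = lab tabX y % 5 := by
  apply of_chk relC tabZ tabX 1 chkC x y hx hy
  have h0 := h 0
  have h1 := h 1
  have h2 := h 2
  have h3 := h 3
  simp only [ap, rot, ten3, Fin.sum_univ_four, Matrix.cons_val_zero, Matrix.cons_val_one,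
    Matrix.cons_val] at h0 h1 h2 h3
  simp only [relC, Bool.and_eq_true]
  refine ⟨⟨⟨?_, ?_⟩, ?_⟩, ?_⟩
  · apply mod_of_cast
    push_cast
    simp only [ZMod.natCast_zmod_val]
    linear_combination h0
  · apply mod_of_cast
    push_cast
    simp only [ZMod.natCast_zmod_val]
    linear_combination h1
  · apply mod_of_cast
    push_cast
    simp only [ZMod.natCast_zmod_val]
    linear_combination h2
  · apply mod_of_cast
    push_cast
    simp only [ZMod.natCast_zmod_val]
    linear_combination h3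

end Pool.Agent.Lib.MP_e1960e_nt.H13
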