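import Mathlib
import Pool.Agent.Lib.MP_e1960e_nt.H13.Tri

/-!
# At most four residue classes above a smooth point, residue field with two elements
-/

set_option autoImplicit false

namespace Pool.Agent.Lib.MP_e1960e_nt.H13

/-- A plane in the space of dimension three over the field with two elements. -/
theorem card_plane : ∀ (a : Fin 4) (n : Fin 4 → ZMod 2), (∃ b, b ≠ a ∧ n b ≠ 0) →
    (Finset.univ.filter (fun v : Fin 4 → ZMod 2 => v a = 0 ∧ ∑ i, n i * v i = 0)).card ≤ 4 := by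
  decide

theorem zmod2_ne_zero (u : ZMod 2) (h : u ≠ 0) : u = 1 := by
  revert u; decide

theorem split_points {R : Type*} [CommRing R] [IsDomain R] {ϖ : R} (hϖ : Prime ϖ)
    (ρ : R →+* ZMod 2) (hρ : ∀ r, ρ r = 0 ↔ ϖ ∣ r) (T : Fin 4 → Fin 4 → Fin 4 → R)
    (n : ℕ) (hn : 0 < n) (x y z : Fin 4 → R) (hx1 : ∃ a, x a = 1) (hy1 : ∃ b, y b = 1)
    (hxy : ∀ k, ap T x y k = 0) (hxz : ∀ j, ap (rot (rot T)) z x j = 0)
    (hsm : ∃ i, ¬ ϖ ∣ ap (rot T) y z i)
    (xs ys : Fin 5 → Fin 4 → R) (hxs : ∀ i, Prim ϖ (xs i)) (hys : ∀ i, Prim ϖ (ys i))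
    (hxys : ∀ i k, ap T (xs i) (ys i) k = 0) (hcx : ∀ i, Prop2 ϖ n x (xs i))
    (hcy : ∀ i, Prop2 ϖ n y (ys i)) : ∃ i j, i < j ∧ Prop2 ϖ (n + 1) (xs i) (xs j) := by
  obtain ⟨a, ha⟩ := hx1
  obtain ⟨b, hb⟩ := hy1
  have hpow : ϖ ∣ ϖ ^ n := dvd_pow_self ϖ hn.ne'
  have hpow0 : ϖ ^ n ≠ 0 := pow_ne_zero _ hϖ.ne_zero
  choose v hv using fun i j => hcx i a j
  choose w hw using fun i j => hcy i b j
  have hv' : ∀ i j, xs i j = xs i a * x j + ϖ ^ n * v i j := by
    intro i j; have := hv i j; rw [ha] at this; linear_combination this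
  have hw' : ∀ i j, ys i j = ys i b * y j + ϖ ^ n * w i j := by
    intro i j; have := hw i j; rw [hb] at this; linear_combination this
  have hva : ∀ i, v i a = 0 := by
    intro i
    have := hv i a
    have h0 : ϖ ^ n * v i a = 0 := by linear_combination -this
    exact (mul_eq_zero.1 h0).resolve_left hpow0
  have hxa : ∀ i, ¬ ϖ ∣ xs i a := by
    intro i hdiv
    obtain ⟨j, hj⟩ := hxs i
    apply hj
    rw [hv' i j]
    exact dvd_add (Dvd.dvd.mul_right hdiv _) (Dvd.dvd.mul_right hpow _)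
  have hyb : ∀ i, ¬ ϖ ∣ ys i b := by
    intro i hdiv
    obtain ⟨j, hj⟩ := hys i
    apply hj
    rw [hw' i j]
    exact dvd_add (Dvd.dvd.mul_right hdiv _) (Dvd.dvd.mul_right hpow _)
  have hxyz : tri T x y z = 0 := by simp [tri, hxy]
  -- the linear condition
  have hlin : ∀ i, ϖ ∣ tri T (v i) y z := by
    intro i
    have h1 : tri T (xs i) (ys i) z = 0 := by simp [tri, hxys]
    have ex : xs i = fun j => xs i a * x j + ϖ ^ n * v i j := funext (hv' i)
    have ey : ys i = fun j => ys i b * y j + ϖ ^ n * w i j := funext (hw' i)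
    have h2 : tri T x (w i) z = 0 := by
      rw [tri_eq_rot]; simp [hxz]
    have h3 : tri T (xs i) (ys i) z = ϖ ^ n * (ys i b * tri T (v i) y z
        + ϖ ^ n * tri T (v i) (w i) z) := by
      conv_lhs => rw [ex, ey]
      rw [tri_add_left T (fun j => xs i a * x j) (fun j => ϖ ^ n * v i j), tri_smul_left,
        tri_smul_left, tri_add_mid T x (fun j => ys i b * y j) (fun j => ϖ ^ n * w i j),
        tri_smul_mid, tri_smul_mid,
        tri_add_mid T (v i) (fun j => ys i b * y j) (fun j => ϖ ^ n * w i j),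
        tri_smul_mid, tri_smul_mid, hxyz, h2]
      ring
    rw [h1] at h3
    have h4 := (mul_eq_zero.1 h3.symm).resolve_left hpow0
    have h5 : ϖ ∣ ys i b * tri T (v i) y z := by
      have e : ys i b * tri T (v i) y z = -(ϖ ^ n * tri T (v i) (w i) z) := by
        linear_combination h4
      rw [e]
      exact (Dvd.dvd.mul_right hpow _).neg_right
    exact (hϖ.dvd_or_dvd h5).resolve_left (hyb i)
  set ν : Fin 4 → ZMod 2 := fun i => ρ (ap (rot T) y z i) with hν
  have hνv : ∀ i, ∑ j, ν j * ρ (v i j) = 0 := by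
    intro i
    have h1 := (hρ _).2 (hlin i)
    rw [tri_eq_rot', map_sum] at h1
    simpa only [map_mul] using h1
  have hνx : ∑ j, ν j * ρ (x j) = 0 := by
    have h1 : ρ (tri T x y z) = 0 := by rw [hxyz, map_zero]
    rw [tri_eq_rot', map_sum] at h1
    simpa only [map_mul] using h1
  have hνb : ∃ c, c ≠ a ∧ ν c ≠ 0 := by
    by_contra hcon
    push Not at hcon
    have hsum : ∑ j, ν j * ρ (x j) = ν a * ρ (x a) := by
      apply Finset.sum_eq_single a
      · intro c _ hc; rw [hcon c hc, zero_mul]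
      · intro h; exact absurd (Finset.mem_univ a) h
    rw [hνx, ha, map_one, mul_one] at hsum
    obtain ⟨i, hi⟩ := hsm
    by_cases hia : i = a
    · rw [hia] at hi; exact hi ((hρ _).1 hsum.symm)
    · exact hi ((hρ _).1 (hcon i hia))
  have hcard := card_plane a ν hνb
  have hmaps : Set.MapsTo (fun i : Fin 5 => fun j => ρ (v i j)) (Finset.univ : Finset (Fin 5))
      ((Finset.univ.filter (fun u : Fin 4 → ZMod 2 => u a = 0 ∧ ∑ i, ν i * u i = 0)) :
        Finset (Fin 4 → ZMod 2)) := by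
    intro i _
    simp only [Finset.coe_filter, Finset.mem_univ, true_and]
    refine ⟨?_, hνv i⟩
    show ρ (v i a) = 0
    rw [hva i, map_zero]
  obtain ⟨i, _, j, _, hij, heq⟩ := Finset.exists_ne_map_eq_of_card_lt_of_maps_to
    (lt_of_le_of_lt hcard (by simp)) hmaps
  have key : ∀ i j : Fin 5, (∀ c, ρ (v i c) = ρ (v j c)) → Prop2 ϖ (n + 1) (xs i) (xs j) := by
    intro i j h p q
    have hα : ρ (xs i a) = 1 := zmod2_ne_zero _ (fun h0 => hxa i ((hρ _).1 h0))
    have hα' : ρ (xs j a) = 1 := zmod2_ne_zero _ (fun h0 => hxa j ((hρ _).1 h0))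
    have hbr : ϖ ∣ xs i a * (x p * v j q - x q * v j p) + xs j a * (v i p * x q - v i q * x p) := by
      rw [← hρ]
      simp only [map_add, map_sub, map_mul, hα, hα', h]
      ring
    obtain ⟨u, hu⟩ := hbr
    obtain ⟨m, hm⟩ : ∃ m, n = m + 1 := ⟨n - 1, by omega⟩
    refine ⟨u + ϖ ^ m * (v i p * v j q - v i q * v j p), ?_⟩
    rw [hv' i p, hv' i q, hv' j p, hv' j q]
    have e : ϖ ^ n = ϖ ^ m * ϖ := by rw [hm, pow_succ]
    rw [pow_succ]
    linear_combination ϖ ^ n * hu + (ϖ ^ n * (v i p * v j q - v i q * v j p)) * e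
  rcases lt_or_gt_of_ne hij with hlt | hgt
  · exact ⟨i, j, hlt, key i j (fun c => congrFun heq c)⟩
  · exact ⟨j, i, hgt, key j i (fun c => (congrFun heq c).symm)⟩

end Pool.Agent.Lib.MP_e1960e_nt.H13
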