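import Mathlib
import Pool.Agent.Lib.MP_e1960e_nt.H13.Split
import Pool.Agent.Lib.MP_e1960e_nt.H13.TenData
import Pool.Agent.Lib.MP_e1960e_nt.H13.LabLink
import Pool.Agent.Lib.MP_e1960e_nt.H13.Dyn

/-!
# The Cayley correspondence on the rational points of a determinantal quartic
-/

set_option autoImplicit false

namespace Pool.Agent.Lib.MP_e1960e_nt.H13

section Global

variable {K : Type*} [Field K]

/-- Points of the determinantal surface, with a kernel vector. -/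
def surf (T : Fin 4 → Fin 4 → Fin 4 → K) : Set (Projectivization K (Fin 4 → K)) :=
  {P | ∃ y : Fin 4 → K, y ≠ 0 ∧ ∀ k, ap T P.rep y k = 0}

/-- From a pair to the next vector. -/
theorem exists_next (T : Fin 4 → Fin 4 → Fin 4 → K) (x y : Fin 4 → K) (hx : x ≠ 0)
    (h : ∀ k, ap T x y k = 0) : ∃ z : Fin 4 → K, z ≠ 0 ∧ ∀ i, ap (rot T) y z i = 0 := by
  set M : Matrix (Fin 4) (Fin 4) K := Matrix.of fun i k => ∑ j, T i j k * y j with hM
  have h1 : Matrix.vecMul x M = 0 := by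
    funext k
    have := h k
    simp only [Matrix.vecMul, dotProduct, hM, Matrix.of_apply, Pi.zero_apply]
    rw [← this]
    simp only [ap, Fin.sum_univ_four]; ring
  have hdet : M.det = 0 := Matrix.exists_vecMul_eq_zero_iff.1 ⟨x, hx, h1⟩
  obtain ⟨z, hz, hz0⟩ := Matrix.exists_mulVec_eq_zero_iff.2 hdet
  refine ⟨z, hz, fun i => ?_⟩
  have := congrFun hz0 i
  simp only [Matrix.mulVec, dotProduct, hM, Matrix.of_apply, Pi.zero_apply] at this
  rw [← this]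
  simp only [ap, rot, Fin.sum_univ_four]; ring

/-- The other kernel. -/
theorem exists_third (T : Fin 4 → Fin 4 → Fin 4 → K) (x y : Fin 4 → K) (hy : y ≠ 0)
    (h : ∀ k, ap T x y k = 0) : ∃ z : Fin 4 → K, z ≠ 0 ∧ ∀ j, ap (rot (rot T)) z x j = 0 := by
  set M : Matrix (Fin 4) (Fin 4) K := Matrix.of fun j k => ∑ i, T i j k * x i with hM
  have h1 : Matrix.vecMul y M = 0 := by
    funext k
    have := h k
    simp only [Matrix.vecMul, dotProduct, hM, Matrix.of_apply, Pi.zero_apply]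
    rw [← this]
    simp only [ap, Fin.sum_univ_four]; ring
  have hdet : M.det = 0 := Matrix.exists_vecMul_eq_zero_iff.1 ⟨y, hy, h1⟩
  obtain ⟨z, hz, hz0⟩ := Matrix.exists_mulVec_eq_zero_iff.2 hdet
  refine ⟨z, hz, fun j => ?_⟩
  have := congrFun hz0 j
  simp only [Matrix.mulVec, dotProduct, hM, Matrix.of_apply, Pi.zero_apply] at this
  rw [← this]
  simp only [ap, rot, Fin.sum_univ_four]; ring

/-- One step of the Cayley correspondence. -/
theorem exists_step (T : Fin 4 → Fin 4 → Fin 4 → K) (P : surf T) :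
    ∃ (y z : Fin 4 → K) (P' : surf T), y ≠ 0 ∧ z ≠ 0 ∧ (∀ k, ap T P.1.rep y k = 0) ∧
      (∀ i, ap (rot T) y z i = 0) ∧ ∀ j, ap (rot (rot T)) z P'.1.rep j = 0 := by
  obtain ⟨P, y, hy, hPy⟩ := P
  obtain ⟨z, hz, hyz⟩ := exists_next T P.rep y P.rep_nonzero hPy
  obtain ⟨x', hx', hzx⟩ := exists_next (rot T) y z hy hyz
  have hzx' : ∀ j, ap (rot (rot T)) z (Projectivization.mk K x' hx').rep j = 0 := by
    intro j
    obtain ⟨c, hc⟩ := Projectivization.exists_smul_eq_mk_rep K x' hx'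
    have e : (Projectivization.mk K x' hx').rep = fun i => (c : K) * x' i := by
      rw [← hc]; rfl
    rw [e, ap_smul_right, hzx, mul_zero]
  obtain ⟨y', hy', hxy'⟩ := exists_next (rot (rot T)) z _ hz hzx'
  exact ⟨y, z, ⟨Projectivization.mk K x' hx', y', hy', hxy'⟩, hy, hz, hPy, hyz, hzx'⟩

end Global

section PAdic

variable {K : Type*} [Field K] {p : ℕ} [hp : Fact p.Prime]

/-- `u` is a normalised `p`-adic representative of `x`. -/
def IsLoc (φ : K →+* ℚ_[p]) (x : Fin 4 → K) (u : Fin 4 → ℤ_[p]) : Prop :=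
  (∃ c : ℚ_[p], c ≠ 0 ∧ ∀ i, φ (x i) = c * (u i : ℚ_[p])) ∧ ∃ a, u a = 1

theorem exists_isLoc (φ : K →+* ℚ_[p]) (x : Fin 4 → K) (hx : x ≠ 0) : ∃ u, IsLoc φ x u := by
  obtain ⟨a, ha⟩ := Finite.exists_max (fun i => ‖φ (x i)‖)
  have ha0 : φ (x a) ≠ 0 := by
    intro h0
    apply hx
    funext i
    have := ha i
    rw [h0, norm_zero] at this
    have h' : φ (x i) = 0 := norm_le_zero_iff.1 this
    exact (map_eq_zero φ).1 h'
  have hle : ∀ i, ‖φ (x i) / φ (x a)‖ ≤ 1 := by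
    intro i
    rw [norm_div]
    exact div_le_one_of_le₀ (ha i) (norm_nonneg _)
  refine ⟨fun i => ⟨φ (x i) / φ (x a), hle i⟩, ⟨φ (x a), ha0, fun i => ?_⟩, a, ?_⟩
  · simp only
    field_simp
  · apply Subtype.ext
    simp [div_self ha0]

theorem IsLoc.prim {φ : K →+* ℚ_[p]} {x : Fin 4 → K} {u : Fin 4 → ℤ_[p]} (h : IsLoc φ x u) :
    Prim (p : ℤ_[p]) u := by
  obtain ⟨_, a, ha⟩ := h
  refine ⟨a, ?_⟩
  rw [ha]
  exact fun hd => PadicInt.prime_p.not_isUnit (isUnit_of_dvd_one hd)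

theorem toZMod_eq_zero_iff (r : ℤ_[p]) : PadicInt.toZMod r = 0 ↔ (p : ℤ_[p]) ∣ r := by
  rw [← RingHom.mem_ker, PadicInt.ker_toZMod, PadicInt.maximalIdeal_eq_span_p,
    Ideal.mem_span_singleton]

theorem IsLoc.red_ne {φ : K →+* ℚ_[p]} {x : Fin 4 → K} {u : Fin 4 → ℤ_[p]} (h : IsLoc φ x u) :
    (fun i => PadicInt.toZMod (u i)) ≠ 0 := by
  obtain ⟨_, a, ha⟩ := h
  intro h0
  have := congrFun h0 a
  simp only [ha, map_one, Pi.zero_apply] at this
  exact one_ne_zero this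

theorem IsLoc.ap_eq {φ : K →+* ℚ_[p]} {T : Fin 4 → Fin 4 → Fin 4 → K}
    {Tp : Fin 4 → Fin 4 → Fin 4 → ℤ_[p]} (hT : ∀ i j k, φ (T i j k) = (Tp i j k : ℚ_[p]))
    {x y : Fin 4 → K} {u v : Fin 4 → ℤ_[p]} (hx : IsLoc φ x u) (hy : IsLoc φ y v)
    (h : ∀ k, ap T x y k = 0) : ∀ k, ap Tp u v k = 0 := by
  intro k
  obtain ⟨⟨c, hc, hcx⟩, _⟩ := hx
  obtain ⟨⟨d, hd, hdy⟩, _⟩ := hy
  have h1 := ap_map φ T x y k
  rw [h k, map_zero] at h1
  have h2 := ap_map (PadicInt.Coe.ringHom (p := p)) Tp u v k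
  have e1 : (fun i => φ (x i)) = fun i => c * (u i : ℚ_[p]) := funext hcx
  have e2 : (fun i => φ (y i)) = fun i => d * (v i : ℚ_[p]) := funext hdy
  have e3 : (fun i j k => φ (T i j k)) = fun i j k => (Tp i j k : ℚ_[p]) := by
    funext i j k; exact hT i j k
  rw [e1, e2, e3, ap_smul_left, ap_smul_right] at h1
  have h3 : ap (fun i j k => (Tp i j k : ℚ_[p])) (fun i => (u i : ℚ_[p]))
      (fun i => (v i : ℚ_[p])) k = 0 := by
    have h4 := (mul_eq_zero.1 h1.symm).resolve_left hc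
    exact (mul_eq_zero.1 h4).resolve_left hd
  have h5 : PadicInt.Coe.ringHom (p := p) (ap Tp u v k) = 0 := h2.trans h3
  exact Subtype.ext h5

theorem eq_zero_of_forall_pow_dvd (r : ℤ_[p]) (h : ∀ n : ℕ, (p : ℤ_[p]) ^ n ∣ r) : r = 0 := by
  by_contra hr
  have h1 := (PadicInt.mem_span_pow_iff_le_valuation r hr (r.valuation + 1)).1
    (Ideal.mem_span_singleton.2 (h (r.valuation + 1)))
  omega

theorem IsLoc.eq_of_prop2 {φ : K →+* ℚ_[p]} {P Q : Projectivization K (Fin 4 → K)}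
    {u v : Fin 4 → ℤ_[p]} (hu : IsLoc φ P.rep u) (hv : IsLoc φ Q.rep v)
    (h : ∀ n, Prop2 (p : ℤ_[p]) n u v) : P = Q := by
  have h0 : ∀ i j, u i * v j - u j * v i = 0 := fun i j =>
    eq_zero_of_forall_pow_dvd _ (fun n => h n i j)
  obtain ⟨⟨c, hc, hcx⟩, _⟩ := hu
  obtain ⟨⟨d, hd, hdy⟩, _⟩ := hv
  have h1 : ∀ i j, P.rep i * Q.rep j = P.rep j * Q.rep i := by
    intro i j
    apply φ.injective
    rw [map_mul, map_mul, hcx, hcx, hdy, hdy]
    have h2 : ((u i * v j - u j * v i : ℤ_[p]) : ℚ_[p]) = 0 := by rw [h0 i j]; rfl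
    push_cast at h2
    linear_combination c * d * h2
  obtain ⟨a, ha⟩ := Function.ne_iff.1 P.rep_nonzero
  rw [Pi.zero_apply] at ha
  obtain ⟨b, hb⟩ := Function.ne_iff.1 Q.rep_nonzero
  rw [Pi.zero_apply] at hb
  rw [← P.mk_rep, ← Q.mk_rep, Projectivization.mk_eq_mk_iff']
  have hQa : Q.rep a ≠ 0 := by
    intro h3
    have := h1 a b
    rw [h3, mul_zero] at this
    exact (mul_ne_zero ha hb) this
  refine ⟨P.rep a / Q.rep a, ?_⟩
  funext i
  simp only [Pi.smul_apply, smul_eq_mul]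
  rw [div_mul_eq_mul_div, div_eq_iff hQa]
  exact h1 a i

end PAdic

end Pool.Agent.Lib.MP_e1960e_nt.H13
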