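import Mathlib
import Pool.Agent.Lib.MP_e1960e_nt.H13.Cay

/-!
# No finite nonempty set of rational points
-/

set_option autoImplicit false

namespace Pool.Agent.Lib.MP_e1960e_nt.H13

section Res

variable {K : Type*} [Field K]

/-- Uniqueness modulo 2 gives solutions modulo 2. -/
theorem unique_lift (S : Fin 4 → Fin 4 → Fin 4 → ℤ_[2]) (s : Fin 4 → Fin 4 → Fin 4 → ZMod 2)
    (hs : ∀ i j k, PadicInt.toZMod (S i j k) = s i j k)
    (hu : ∀ x : Fin 4 → ZMod 2, x ≠ 0 → ∀ y : Fin 4 → ZMod 2, y ≠ 0 →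
      (∀ k, ap s x y k = 0) → ∀ w : Fin 4 → ZMod 2, (∀ k, ap s x w k = 0) → w = 0 ∨ w = y)
    {φ : K →+* ℚ_[2]} {x y : Fin 4 → K} {u v : Fin 4 → ℤ_[2]} (hx : IsLoc φ x u)
    (hy : IsLoc φ y v) (h : ∀ k, ap S u v k = 0) :
    ∀ w : Fin 4 → ℤ_[2], (∀ k, ((2 : ℕ) : ℤ_[2]) ∣ ap S u w k) →
      ∃ c, ∀ j, ((2 : ℕ) : ℤ_[2]) ∣ w j - c * v j := by
  intro w hw
  have hred : ∀ (a b : Fin 4 → ℤ_[2]) (k : Fin 4), PadicInt.toZMod (ap S a b k)
      = ap s (fun i => PadicInt.toZMod (a i)) (fun i => PadicInt.toZMod (b i)) k := by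
    intro a b k
    rw [ap_map]
    congr 1
    funext i j k
    exact hs i j k
  have h1 : ∀ k, ap s (fun i => PadicInt.toZMod (u i)) (fun i => PadicInt.toZMod (v i)) k = 0 := by
    intro k; rw [← hred, h k, map_zero]
  have h2 : ∀ k, ap s (fun i => PadicInt.toZMod (u i)) (fun i => PadicInt.toZMod (w i)) k = 0 := by
    intro k; rw [← hred]; exact (toZMod_eq_zero_iff _).2 (hw k)
  rcases hu _ hx.red_ne _ hy.red_ne h1 _ h2 with h3 | h3
  · refine ⟨0, fun j => ?_⟩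
    rw [zero_mul, sub_zero, ← toZMod_eq_zero_iff]
    exact congrFun h3 j
  · refine ⟨1, fun j => ?_⟩
    rw [one_mul, ← toZMod_eq_zero_iff, map_sub, sub_eq_zero]
    exact congrFun h3 j

/-- **The dichotomy.** -/
theorem cayley_dichotomy (φ2 : K →+* ℚ_[2]) (φ3 : K →+* ℚ_[3]) (T : Fin 4 → Fin 4 → Fin 4 → K)
    (T2 : Fin 4 → Fin 4 → Fin 4 → ℤ_[2]) (hT2 : ∀ i j k, φ2 (T i j k) = (T2 i j k : ℚ_[2]))
    (h2 : ∀ i j k, PadicInt.toZMod (T2 i j k) = ten2 i j k)
    (T3 : Fin 4 → Fin 4 → Fin 4 → ℤ_[3]) (hT3 : ∀ i j k, φ3 (T i j k) = (T3 i j k : ℚ_[3]))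
    (h3 : ∀ i j k, PadicInt.toZMod (T3 i j k) = ten3 i j k) (hfin : (surf T).Finite)
    (hne : (surf T).Nonempty) : False := by
  classical
  have : Finite (surf T) := hfin.to_subtype
  have : Nonempty (surf T) := hne.to_subtype
  choose yy zz g hyy hzz hxy hyz hzx using exists_step T
  have p2 : Prime (((2 : ℕ) : ℤ_[2])) := PadicInt.prime_p
  -- local representatives
  choose x2 hx2 using fun P : surf T => exists_isLoc φ2 P.1.rep P.1.rep_nonzero
  choose y2 hy2 using fun P : surf T => exists_isLoc φ2 (yy P) (hyy P)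
  choose z2 hz2 using fun P : surf T => exists_isLoc φ2 (zz P) (hzz P)
  choose x3 hx3 using fun P : surf T => exists_isLoc φ3 P.1.rep P.1.rep_nonzero
  choose y3 hy3 using fun P : surf T => exists_isLoc φ3 (yy P) (hyy P)
  choose z3 hz3 using fun P : surf T => exists_isLoc φ3 (zz P) (hzz P)
  -- rotated tensors
  have hT2' : ∀ i j k, φ2 (rot T i j k) = ((rot T2 i j k : ℤ_[2]) : ℚ_[2]) := fun i j k => hT2 k i j
  have hT2'' : ∀ i j k, φ2 (rot (rot T) i j k) = ((rot (rot T2) i j k : ℤ_[2]) : ℚ_[2]) :=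
    fun i j k => hT2 j k i
  have h2' : ∀ i j k, PadicInt.toZMod (rot T2 i j k) = rot ten2 i j k := fun i j k => h2 k i j
  have h2'' : ∀ i j k, PadicInt.toZMod (rot (rot T2) i j k) = rot (rot ten2) i j k :=
    fun i j k => h2 j k i
  have hT3' : ∀ i j k, φ3 (rot T i j k) = ((rot T3 i j k : ℤ_[3]) : ℚ_[3]) := fun i j k => hT3 k i j
  have hT3'' : ∀ i j k, φ3 (rot (rot T) i j k) = ((rot (rot T3) i j k : ℤ_[3]) : ℚ_[3]) :=
    fun i j k => hT3 j k i
  -- relations over the 2-adic integers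
  have rxy : ∀ P k, ap T2 (x2 P) (y2 P) k = 0 := fun P => (hx2 P).ap_eq hT2 (hy2 P) (hxy P)
  have ryz : ∀ P k, ap (rot T2) (y2 P) (z2 P) k = 0 := fun P =>
    (hy2 P).ap_eq hT2' (hz2 P) (hyz P)
  have rzx : ∀ P k, ap (rot (rot T2)) (z2 P) (x2 (g P)) k = 0 := fun P =>
    (hz2 P).ap_eq hT2'' (hx2 (g P)) (hzx P)
  have uxy := fun P => unique_lift T2 ten2 h2 uniq2 (hx2 P) (hy2 P) (rxy P)
  have uyz := fun P => unique_lift (rot T2) (rot ten2) h2' uniq2' (hy2 P) (hz2 P) (ryz P)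
  have uzx := fun P => unique_lift (rot (rot T2)) (rot (rot ten2)) h2'' uniq2'' (hz2 P)
    (hx2 (g P)) (rzx P)
  -- transfer of congruences
  have txy : ∀ n P Q, Prop2 ((2 : ℕ) : ℤ_[2]) n (x2 P) (x2 Q) →
      Prop2 ((2 : ℕ) : ℤ_[2]) n (y2 P) (y2 Q) := fun n P Q h =>
    cong_transfer p2 T2 (x2 P) (x2 Q) (y2 P) (y2 Q) (hx2 P).prim (hx2 Q).prim (rxy P) (rxy Q)
      (uxy P) n h
  have tyz : ∀ n P Q, Prop2 ((2 : ℕ) : ℤ_[2]) n (y2 P) (y2 Q) →
      Prop2 ((2 : ℕ) : ℤ_[2]) n (z2 P) (z2 Q) := fun n P Q h =>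
    cong_transfer p2 (rot T2) (y2 P) (y2 Q) (z2 P) (z2 Q) (hy2 P).prim (hy2 Q).prim (ryz P)
      (ryz Q) (uyz P) n h
  have tzx : ∀ n P Q, Prop2 ((2 : ℕ) : ℤ_[2]) n (z2 P) (z2 Q) →
      Prop2 ((2 : ℕ) : ℤ_[2]) n (x2 (g P)) (x2 (g Q)) := fun n P Q h =>
    cong_transfer p2 (rot (rot T2)) (z2 P) (z2 Q) (x2 (g P)) (x2 (g Q)) (hz2 P).prim
      (hz2 Q).prim (rzx P) (rzx Q) (uzx P) n h
  -- labels
  set f : surf T → ZMod 5 := fun P => (lab tabX (fun i => PadicInt.toZMod (x3 P i)) : ℕ) with hf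
  have hfg : ∀ P, f (g P) = f P + 1 := by
    intro P
    have hred : ∀ (S : Fin 4 → Fin 4 → Fin 4 → ℤ_[3]) (s : Fin 4 → Fin 4 → Fin 4 → ZMod 3)
        (_ : ∀ i j k, PadicInt.toZMod (S i j k) = s i j k) (a b : Fin 4 → ℤ_[3]) (k : Fin 4),
        ap S a b k = 0 →
        ap s (fun i => PadicInt.toZMod (a i)) (fun i => PadicInt.toZMod (b i)) k = 0 := by
      intro S s hS a b k h0
      have := ap_map (PadicInt.toZMod (p := 3)) S a b k
      rw [h0, map_zero] at this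
      have e : (fun i j k => PadicInt.toZMod (S i j k)) = s := by
        funext i j k; exact hS i j k
      rw [e] at this
      exact this.symm
    have a1 := labA _ _ (hx3 P).red_ne (hy3 P).red_ne (fun k => hred T3 ten3 h3 _ _ k
      ((hx3 P).ap_eq hT3 (hy3 P) (hxy P) k))
    have a2 := labB _ _ (hy3 P).red_ne (hz3 P).red_ne (fun k => hred (rot T3) (rot ten3)
      (fun i j k => h3 k i j) _ _ k ((hy3 P).ap_eq hT3' (hz3 P) (hyz P) k))
    have a3 := labC _ _ (hz3 P).red_ne (hx3 (g P)).red_ne (fun k => hred (rot (rot T3))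
      (rot (rot ten3)) (fun i j k => h3 j k i) _ _ k
      ((hz3 P).ap_eq hT3'' (hx3 (g P)) (hzx P) k))
    simp only [hf]
    rw [← Nat.cast_one (R := ZMod 5), ← Nat.cast_add, ZMod.natCast_eq_natCast_iff]
    unfold Nat.ModEq
    omega
  refine no_cycle g f hfg (fun n P Q => Prop2 ((2 : ℕ) : ℤ_[2]) n (x2 P) (x2 Q)) ?_ ?_ ?_ ?_ ?_ ?_
  · intro n P Q h; exact h.symm
  · intro n P Q R h h'; exact h.trans p2 h' (hx2 Q).prim
  · intro P Q; exact Prop2.zero _ _ _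
  · intro n P Q h; exact tzx n P Q (tyz n P Q (txy n P Q h))
  · intro n P hP
    rcases Nat.eq_zero_or_pos n with rfl | hn
    · -- reductions modulo 2
      have hmem : ∀ i : Fin 5, (fun a => PadicInt.toZMod (x2 (P i) a)) ∈
          ({![0, 0, 1, 1], ![1, 0, 0, 0], ![1, 0, 0, 1], ![1, 1, 0, 0]} :
            Finset (Fin 4 → ZMod 2)) := by
        intro i
        apply points2 _ (hx2 (P i)).red_ne _ (hy2 (P i)).red_ne
        intro k
        have := ap_map (PadicInt.toZMod (p := 2)) T2 (x2 (P i)) (y2 (P i)) k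
        rw [rxy, map_zero] at this
        have e : (fun i j k => PadicInt.toZMod (T2 i j k)) = ten2 := by
          funext i j k; exact h2 i j k
        rw [e] at this
        exact this.symm
      obtain ⟨i, _, j, _, hij, heq⟩ := Finset.exists_ne_map_eq_of_card_lt_of_maps_to
        (s := (Finset.univ : Finset (Fin 5)))
        (t := ({![0, 0, 1, 1], ![1, 0, 0, 0], ![1, 0, 0, 1], ![1, 1, 0, 0]} :
            Finset (Fin 4 → ZMod 2))) (by decide)
        (f := fun i : Fin 5 => fun a => PadicInt.toZMod (x2 (P i) a)) (fun i _ => hmem i)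
      have key : ∀ i j : Fin 5, (∀ a, PadicInt.toZMod (x2 (P i) a)
          = PadicInt.toZMod (x2 (P j) a)) →
          Prop2 ((2 : ℕ) : ℤ_[2]) (0 + 1) (x2 (P i)) (x2 (P j)) := by
        intro i j h a b
        rw [zero_add, pow_one, ← toZMod_eq_zero_iff, map_sub, map_mul, map_mul, h a, h b]
        ring
      rcases lt_or_gt_of_ne hij with hlt | hgt
      · exact ⟨i, j, hlt, key i j (fun a => congrFun heq a)⟩
      · exact ⟨j, i, hgt, key j i (fun a => (congrFun heq a).symm)⟩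
    · obtain ⟨w, hw, hwx⟩ := exists_third T (P 0).1.rep (yy (P 0)) (hyy _) (hxy (P 0))
      obtain ⟨w2, hw2⟩ := exists_isLoc φ2 w hw
      have rw2 : ∀ j, ap (rot (rot T2)) w2 (x2 (P 0)) j = 0 :=
        hw2.ap_eq hT2'' (hx2 (P 0)) hwx
      have hred : ∀ (S : Fin 4 → Fin 4 → Fin 4 → ℤ_[2]) (s : Fin 4 → Fin 4 → Fin 4 → ZMod 2)
          (_ : ∀ i j k, PadicInt.toZMod (S i j k) = s i j k) (a b : Fin 4 → ℤ_[2]) (k : Fin 4),
          PadicInt.toZMod (ap S a b k)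
            = ap s (fun i => PadicInt.toZMod (a i)) (fun i => PadicInt.toZMod (b i)) k := by
        intro S s hS a b k
        rw [ap_map]
        congr 1
        funext i j k
        exact hS i j k
      obtain ⟨i, hi⟩ := smooth2 _ (hx2 (P 0)).red_ne _ (hy2 (P 0)).red_ne
        (fun k => by rw [← hred T2 ten2 h2, rxy, map_zero]) _ hw2.red_ne
        (fun j => by rw [← hred (rot (rot T2)) (rot (rot ten2)) h2'', rw2, map_zero])
      refine split_points p2 PadicInt.toZMod toZMod_eq_zero_iff T2 n hn (x2 (P 0)) (y2 (P 0)) w2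
        (hx2 (P 0)).2 (hy2 (P 0)).2 (rxy (P 0)) rw2 ⟨i, ?_⟩ (fun i => x2 (P i))
        (fun i => y2 (P i)) (fun i => (hx2 (P i)).prim) (fun i => (hy2 (P i)).prim)
        (fun i k => rxy (P i) k) hP (fun i => txy n _ _ (hP i))
      rw [← toZMod_eq_zero_iff, hred (rot T2) (rot ten2) h2']
      exact hi
  · intro P Q h
    exact Subtype.ext ((hx2 P).eq_of_prop2 (hx2 Q) h)

end Res

end Pool.Agent.Lib.MP_e1960e_nt.H13
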