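import Mathlib

/-!
# The curve `y² = t⁴ + C t² + D t + E`

If the quartic has no root in `K` and its cubic resolvent has no root in `K`, then the curve
`y² = t⁴ + C t² + D t + E` has infinitely many points over `K`.
-/

set_option autoImplicit false

namespace Pool.Agent.Lib.MP_e1960e_nt.H13

open WeierstrassCurve

section Ell

variable {K : Type*} [Field K]

/-- The Jacobian `Y² = (X + C)(X² - 4E) + D²` of `y² = t⁴ + C t² + D t + E`. -/
def Ell (C D E : K) : WeierstrassCurve.Affine K :=
  { a₁ := 0, a₂ := C, a₃ := 0, a₄ := -4 * E, a₆ := D ^ 2 - 4 * C * E }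

theorem ell_equation (C D E X Y : K) :
    (Ell C D E).Equation X Y ↔ Y ^ 2 = (X + C) * (X ^ 2 - 4 * E) + D ^ 2 := by
  rw [WeierstrassCurve.Affine.equation_iff]
  simp only [Ell]
  constructor
  · intro h; linear_combination h
  · intro h; linear_combination h

theorem ell_negY (C D E X Y : K) : (Ell C D E).negY X Y = -Y := by
  simp [WeierstrassCurve.Affine.negY, Ell]

theorem ell_nonsingular_base (C D E : K) (h2 : (2 : K) ≠ 0) (hD : D ≠ 0) :
    (Ell C D E).Nonsingular (-C) D := by
  rw [WeierstrassCurve.Affine.nonsingular_iff]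
  refine ⟨(ell_equation _ _ _ _ _).2 (by ring), Or.inr ?_⟩
  simp only [Ell]
  intro h
  have h' : (2 : K) * D = 0 := by linear_combination h
  rcases mul_eq_zero.1 h' with h'' | h''
  · exact h2 h''
  · exact hD h''

end Ell

section Order

variable {K : Type*} [Field K] [DecidableEq K]

/-- The point `(-C, D)`. -/
def basePt (C D E : K) (h2 : (2 : K) ≠ 0) (hD : D ≠ 0) : (Ell C D E).Point :=
  WeierstrassCurve.Affine.Point.some (-C) D (ell_nonsingular_base C D E h2 hD)

/-- If the cubic resolvent has no root, there is no point of order two. -/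
theorem no_two_torsion (C D E : K) (h2 : (2 : K) ≠ 0)
    (hr : ∀ x : K, (x + C) * (x ^ 2 - 4 * E) + D ^ 2 ≠ 0)
    (R : (Ell C D E).Point) (hR : R + R = 0) : R = 0 := by
  rcases R with _ | ⟨x, y, h⟩
  · rfl
  · exfalso
    by_cases hy : y = (Ell C D E).negY x y
    · rw [ell_negY] at hy
      have hy0 : y = 0 := by
        have : (2 : K) * y = 0 := by linear_combination hy
        exact (mul_eq_zero.1 this).resolve_left h2
      have he := (ell_equation _ _ _ _ _).1 h.1
      rw [hy0] at he
      exact hr x (by rw [← he]; ring)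
    · rw [WeierstrassCurve.Affine.Point.add_self_of_Y_ne hy] at hR
      exact WeierstrassCurve.Affine.Point.some_ne_zero _ hR

/-- If the quartic has no root, the point `(-C, D)` is not twice a point. -/
theorem not_double (C D E : K) (h2 : (2 : K) ≠ 0) (hD : D ≠ 0)
    (hf : ∀ t : K, t ^ 4 + C * t ^ 2 + D * t + E ≠ 0)
    (R : (Ell C D E).Point) : R + R ≠ basePt C D E h2 hD := by
  intro hR
  rcases R with _ | ⟨x, y, h⟩
  · exact WeierstrassCurve.Affine.Point.some_ne_zero _ (hR.symm.trans (by rfl))
  · by_cases hy : y = (Ell C D E).negY x y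
    · rw [WeierstrassCurve.Affine.Point.add_self_of_Y_eq hy] at hR
      exact WeierstrassCurve.Affine.Point.some_ne_zero _ hR.symm
    · rw [WeierstrassCurve.Affine.Point.add_self_of_Y_ne hy] at hR
      have he := (ell_equation _ _ _ _ _).1 h.1
      unfold basePt at hR
      rw [WeierstrassCurve.Affine.Point.some.injEq] at hR
      obtain ⟨hX, hY⟩ := hR
      have hs := WeierstrassCurve.Affine.slope_of_Y_ne (W := Ell C D E) (x₁ := x) (x₂ := x)
        (y₁ := y) (y₂ := y) rfl hy
      rw [ell_negY] at hs hy
      have hy0 : y - -y ≠ 0 := sub_ne_zero.2 hy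
      have hy1 : y ≠ 0 := by
        intro h0; apply hy; rw [h0]; ring
      set l := (Ell C D E).slope x x y y with hl
      have hs' : l * (2 * y) = 3 * x ^ 2 + 2 * C * x - 4 * E := by
        rw [hs]
        rw [div_mul_eq_mul_div, div_eq_iff hy0]
        simp only [Ell]
        ring
      simp only [WeierstrassCurve.Affine.addX, WeierstrassCurve.Affine.addY,
        WeierstrassCurve.Affine.negAddY, WeierstrassCurve.Affine.negY, Ell] at hX hY
      have hx : 2 * x = l ^ 2 := by linear_combination -hX
      have hX' : l ^ 2 + 0 * l - C - x - x = -C := hX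
      have hy' : -(l * (-C - x) + y) = D := by
        rw [← hX']; linear_combination hY
      have key : 16 * ((-(l / 2)) ^ 4 + C * (-(l / 2)) ^ 2 + D * (-(l / 2)) + E) = 0 := by
        obtain ⟨k, hk⟩ : ∃ k : K, l = 2 * k := ⟨l / 2, by field_simp⟩
        have hk' : l / 2 = k := by rw [hk]; field_simp
        rw [hk']
        have e1 : y = l * (C + x) - D := by linear_combination -hy'
        have e2 : l * (2 * (l * (C + x) - D)) = 3 * x ^ 2 + 2 * C * x - 4 * E := by
          rw [← e1]; exact hs'
        have goal' : l ^ 4 + 4 * C * l ^ 2 - 8 * D * l + 16 * E = 0 := by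
          linear_combination (4 : K) * e2 + (-(l ^ 2) - 2 * x - 4 * C + (8 * (C + x))) * hx
        rw [hk] at goal'
        linear_combination goal'
      have h16 : (16 : K) ≠ 0 := by
        have : (16 : K) = 2 ^ 4 := by norm_num
        rw [this]; exact pow_ne_zero _ h2
      exact hf _ ((mul_eq_zero.1 key).resolve_left h16)

/-- The base point has infinite order. -/
theorem nsmul_base_ne_zero (C D E : K) (h2 : (2 : K) ≠ 0) (hD : D ≠ 0)
    (hf : ∀ t : K, t ^ 4 + C * t ^ 2 + D * t + E ≠ 0)
    (hr : ∀ x : K, (x + C) * (x ^ 2 - 4 * E) + D ^ 2 ≠ 0) :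
    ∀ n : ℕ, 0 < n → n • basePt C D E h2 hD ≠ 0 := by
  intro n
  induction n using Nat.strong_induction_on with
  | _ n ih =>
    intro hn h
    rcases Nat.even_or_odd n with ⟨m, hm⟩ | ⟨m, hm⟩
    · have hm0 : 0 < m := by omega
      have : m • basePt C D E h2 hD + m • basePt C D E h2 hD = 0 := by
        rw [← add_smul, ← hm]; exact h
      exact ih m (by omega) hm0 (no_two_torsion C D E h2 hr _ this)
    · -- `n = 2m + 1`, so `P = -(2m P) = 2 (-(m P))`
      apply not_double C D E h2 hD hf (-(m • basePt C D E h2 hD))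
      have e : m • basePt C D E h2 hD + m • basePt C D E h2 hD + basePt C D E h2 hD = 0 := by
        have : n • basePt C D E h2 hD
            = m • basePt C D E h2 hD + m • basePt C D E h2 hD + basePt C D E h2 hD := by
          rw [hm, add_smul, one_smul, two_mul, add_smul]
        rw [← this]; exact h
      have e2 := eq_neg_of_add_eq_zero_right e
      rw [neg_add] at e2
      exact e2.symm

/-- The multiples of the base point are distinct. -/
theorem nsmul_injective (C D E : K) (h2 : (2 : K) ≠ 0) (hD : D ≠ 0)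
    (hf : ∀ t : K, t ^ 4 + C * t ^ 2 + D * t + E ≠ 0)
    (hr : ∀ x : K, (x + C) * (x ^ 2 - 4 * E) + D ^ 2 ≠ 0) :
    Function.Injective (fun n : ℕ => n • basePt C D E h2 hD) := by
  have key : ∀ a b : ℕ, a < b → a • basePt C D E h2 hD ≠ b • basePt C D E h2 hD := by
    intro a b hab h
    obtain ⟨k, rfl⟩ := Nat.exists_eq_add_of_lt hab
    apply nsmul_base_ne_zero C D E h2 hD hf hr (k + 1) (by omega)
    have : (a + k + 1) • basePt C D E h2 hD
        = a • basePt C D E h2 hD + (k + 1) • basePt C D E h2 hD := by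
      rw [← add_smul]; congr 1
    rw [this] at h
    have h' : a • basePt C D E h2 hD + 0
        = a • basePt C D E h2 hD + (k + 1) • basePt C D E h2 hD := by
      rw [add_zero]; exact h
    exact (add_left_cancel h').symm
  intro a b h
  rcases lt_trichotomy a b with hab | hab | hab
  · exact absurd h (key a b hab)
  · exact hab
  · exact absurd h.symm (key b a hab)

/-- The affine coordinates of a point, as an option. -/
def coords {C D E : K} : (Ell C D E).Point → Option (K × K)
  | .zero => none
  | .some x y _ => some (x, y)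

omit [DecidableEq K] in
theorem coords_injective {C D E : K} : Function.Injective (coords (C := C) (D := D) (E := E)) := by
  intro P Q h
  rcases P with _ | ⟨x, y, hP⟩ <;> rcases Q with _ | ⟨x', y', hQ⟩
  · rfl
  · simp [coords] at h
  · simp [coords] at h
  · simp only [coords, Option.some.injEq, Prod.mk.injEq] at h
    obtain ⟨rfl, rfl⟩ := h
    rfl

/-- Infinitely many points on the Jacobian. -/
theorem ell_infinite (C D E : K) (h2 : (2 : K) ≠ 0) (hD : D ≠ 0)
    (hf : ∀ t : K, t ^ 4 + C * t ^ 2 + D * t + E ≠ 0)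
    (hr : ∀ x : K, (x + C) * (x ^ 2 - 4 * E) + D ^ 2 ≠ 0) :
    {p : K × K | p.2 ^ 2 = (p.1 + C) * (p.1 ^ 2 - 4 * E) + D ^ 2}.Infinite := by
  have h1 : (Set.range (fun n : ℕ => coords (n • basePt C D E h2 hD))).Infinite :=
    Set.infinite_range_of_injective (coords_injective.comp (nsmul_injective C D E h2 hD hf hr))
  intro hfin
  apply h1
  apply ((hfin.image Option.some).insert none).subset
  rintro _ ⟨n, rfl⟩
  simp only
  rcases hP : n • basePt C D E h2 hD with _ | ⟨x, y, h⟩
  · left; rfl
  · right
    exact ⟨(x, y), (ell_equation _ _ _ _ _).1 h.1, rfl⟩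

/-- Infinitely many points on `y² = t⁴ + C t² + D t + E`. -/
theorem quartic_infinite (C D E : K) (h2 : (2 : K) ≠ 0) (hD : D ≠ 0)
    (hf : ∀ t : K, t ^ 4 + C * t ^ 2 + D * t + E ≠ 0)
    (hr : ∀ x : K, (x + C) * (x ^ 2 - 4 * E) + D ^ 2 ≠ 0) :
    {p : K × K | p.2 ^ 2 = p.1 ^ 4 + C * p.1 ^ 2 + D * p.1 + E}.Infinite := by
  intro hfin
  apply ell_infinite C D E h2 hD hf hr
  apply ((hfin.image (fun p : K × K =>
    (2 * (p.2 + p.1 ^ 2), 2 * (2 * (p.2 + p.1 ^ 2) + C) * p.1 + D))).union
    ({(-C, D), (-C, -D)} : Set (K × K)).toFinite).subset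
  rintro ⟨X, Y⟩ hXY
  simp only [Set.mem_ofPred_eq] at hXY
  by_cases hX : X + C = 0
  · right
    have hX' : X = -C := by linear_combination hX
    have : (Y - D) * (Y + D) = 0 := by
      have : Y ^ 2 = D ^ 2 := by rw [hXY, hX]; ring
      linear_combination this
    rcases mul_eq_zero.1 this with h | h
    · left; rw [hX', sub_eq_zero.1 h]
    · right; rw [hX', eq_neg_of_add_eq_zero_left h]; rfl
  · left
    set t : K := (Y - D) / (2 * (X + C)) with ht
    have hXC : 2 * (X + C) ≠ 0 := mul_ne_zero h2 hX
    have ht' : t * (2 * (X + C)) = Y - D := by rw [ht]; exact div_mul_cancel₀ _ hXC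
    set y : K := X / 2 - t ^ 2 with hy
    have hy' : 2 * (y + t ^ 2) = X := by rw [hy]; field_simp; ring
    refine ⟨(t, y), ?_, ?_⟩
    · simp only [Set.mem_ofPred_eq]
      have h4 : (4 : K) * (X + C) ≠ 0 := by
        have : (4 : K) * (X + C) = 2 * (2 * (X + C)) := by ring
        rw [this]; exact mul_ne_zero h2 hXC
      have : (4 : K) * (X + C) * (y ^ 2 - (t ^ 4 + C * t ^ 2 + D * t + E)) = 0 := by
        have hYt : Y = t * (2 * (X + C)) + D := by rw [ht']; ring
        rw [hYt] at hXY
        have hXy : y = X / 2 - t ^ 2 := hy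
        have h2y : 2 * y = X - 2 * t ^ 2 := by linear_combination hy'
        linear_combination ((X + C) * (2 * y + (X - 2 * t ^ 2))) * h2y - hXY
      have := (mul_eq_zero.1 this).resolve_left h4
      linear_combination this
    · simp only
      rw [hy']
      ext
      · rfl
      · simp only; linear_combination ht'

end Order

end Pool.Agent.Lib.MP_e1960e_nt.H13
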