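import Mathlib
import Pool.Agent.Lib.MP_e1960e_nt.H13.Ell

/-!
# Squares on a line of a quartic extension

`L / K` is an extension of degree four without quadratic subfield and `v ∈ L ∖ K`. Then there are
infinitely many pairwise non-proportional `η ∈ L` such that `η ^ 2 ∈ K + K v`.
-/

set_option autoImplicit false

namespace Pool.Agent.Lib.MP_e1960e_nt.H13

section FieldPart

variable {K L : Type*} [Field K] [Field L] [Algebra K L]

/-- No element of `L` outside `K` has its square in `K`. -/
def NoQuad (K L : Type*) [Field K] [Field L] [Algebra K L] : Prop :=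
  ∀ s : L, ∀ m : K, s ^ 2 = algebraMap K L m → ∃ c : K, s = algebraMap K L c

/-- `1, z, z², z³` are linearly independent, and `z` is a root of a quartic. -/
theorem deg_four (h2 : (2 : K) ≠ 0) (hdim : Module.finrank K L = 4) (hN : NoQuad K L) (v : L)
    (hv : ∀ c : K, v ≠ algebraMap K L c) : (minpoly K v).natDegree = 4 := by
  have hfin : FiniteDimensional K L := Module.finite_of_finrank_pos (by omega)
  have hint : IsIntegral K v := IsIntegral.of_finite K v
  have hdvd : (minpoly K v).natDegree ∣ 4 := by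
    rw [← hdim]; exact minpoly.degree_dvd hint
  have hle : (minpoly K v).natDegree ≤ 4 := Nat.le_of_dvd (by norm_num) hdvd
  have hpos : 0 < (minpoly K v).natDegree := minpoly.natDegree_pos hint
  have h1 : (minpoly K v).natDegree ≠ 1 := by
    intro h
    have := (minpoly.natDegree_eq_one_iff).1 h
    obtain ⟨c, hc⟩ := this
    exact hv c hc.symm
  have h22 : (minpoly K v).natDegree ≠ 2 := by
    intro h
    have hroot := minpoly.aeval K v
    have hmon := minpoly.monic hint
    rw [Polynomial.aeval_eq_sum_range, h] at hroot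
    simp only [Finset.sum_range_succ, Finset.sum_range_zero, zero_add, pow_zero, pow_one] at hroot
    have hlead : (minpoly K v).coeff 2 = 1 := by
      have := hmon.coeff_natDegree
      rwa [h] at this
    rw [hlead] at hroot
    simp only [Algebra.smul_def, map_one, one_mul, mul_one] at hroot
    set p : K := (minpoly K v).coeff 1
    set r : K := (minpoly K v).coeff 0
    have h2L : (2 : L) ≠ 0 := by
      have : (2 : L) = algebraMap K L 2 := (map_ofNat (algebraMap K L) 2).symm
      rw [this]
      exact (map_ne_zero (algebraMap K L)).2 h2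
    obtain ⟨c, hc⟩ := hN (v + algebraMap K L (p / 2)) (p ^ 2 / 4 - r) (by
      have h4 : (4 : K) ≠ 0 := by
        have : (4 : K) = 2 ^ 2 := by norm_num
        rw [this]; exact pow_ne_zero _ h2
      have e1 : algebraMap K L (p / 2) * 2 = algebraMap K L p := by
        have : (2 : L) = algebraMap K L 2 := (map_ofNat (algebraMap K L) 2).symm
        rw [this, ← map_mul, div_mul_cancel₀ _ h2]
      have e2 : algebraMap K L (p ^ 2 / 4 - r) = (algebraMap K L (p / 2)) ^ 2 - algebraMap K L r := by
        rw [map_sub, ← map_pow]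
        congr 2
        rw [div_pow]; norm_num
      rw [e2]
      linear_combination hroot + v * e1)
    apply hv (c - p / 2)
    rw [map_sub, ← hc]; ring
  interval_cases (minpoly K v).natDegree
  · exact absurd rfl h1
  · exact absurd rfl h22
  · exact absurd hdvd (by norm_num)
  · rfl

theorem indep (h2 : (2 : K) ≠ 0) (hdim : Module.finrank K L = 4) (hN : NoQuad K L) (v : L)
    (hv : ∀ c : K, v ≠ algebraMap K L c) (a0 a1 a2 a3 : K)
    (h : algebraMap K L a0 + algebraMap K L a1 * v + algebraMap K L a2 * v ^ 2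
      + algebraMap K L a3 * v ^ 3 = 0) : a0 = 0 ∧ a1 = 0 ∧ a2 = 0 ∧ a3 = 0 := by
  have hd := deg_four h2 hdim hN v hv
  set p : Polynomial K := Polynomial.C a0 + Polynomial.C a1 * Polynomial.X
    + Polynomial.C a2 * Polynomial.X ^ 2 + Polynomial.C a3 * Polynomial.X ^ 3 with hp
  have hpv : Polynomial.aeval v p = 0 := by
    simp only [hp, map_add, map_mul, Polynomial.aeval_C, Polynomial.aeval_X, map_pow]
    exact h
  have hp0 : p = 0 := by
    by_contra hne
    have := Polynomial.natDegree_le_natDegree (minpoly.degree_le_of_ne_zero K v hne hpv)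
    have hle : p.natDegree ≤ 3 := by
      rw [hp]; compute_degree
    omega
  have c0 : p.coeff 0 = a0 := by simp [hp, Polynomial.coeff_X]
  have c1 : p.coeff 1 = a1 := by simp [hp, Polynomial.coeff_X, Polynomial.coeff_C]
  have c2 : p.coeff 2 = a2 := by simp [hp, Polynomial.coeff_X, Polynomial.coeff_C]
  have c3 : p.coeff 3 = a3 := by simp [hp, Polynomial.coeff_X, Polynomial.coeff_C]
  rw [hp0] at c0 c1 c2 c3
  simp only [Polynomial.coeff_zero] at c0 c1 c2 c3
  exact ⟨c0.symm, c1.symm, c2.symm, c3.symm⟩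

/-- After a translation `v` is a root of a depressed quartic. -/
theorem depressed (h2 : (2 : K) ≠ 0) (hdim : Module.finrank K L = 4) (hN : NoQuad K L) (v : L)
    (hv : ∀ c : K, v ≠ algebraMap K L c) : ∃ c C D E : K,
      (v + algebraMap K L c) ^ 4 + algebraMap K L C * (v + algebraMap K L c) ^ 2
        - algebraMap K L D * (v + algebraMap K L c) + algebraMap K L E = 0 := by
  have hfin : FiniteDimensional K L := Module.finite_of_finrank_pos (by omega)
  have hint : IsIntegral K v := IsIntegral.of_finite K v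
  have hd := deg_four h2 hdim hN v hv
  have hroot := minpoly.aeval K v
  have hmon := minpoly.monic hint
  rw [Polynomial.aeval_eq_sum_range, hd] at hroot
  simp only [Finset.sum_range_succ, Finset.sum_range_zero, zero_add, pow_zero, pow_one] at hroot
  have hlead : (minpoly K v).coeff 4 = 1 := by
    have := hmon.coeff_natDegree
    rwa [hd] at this
  rw [hlead] at hroot
  simp only [Algebra.smul_def, map_one, one_mul, mul_one] at hroot
  set a3 : K := (minpoly K v).coeff 3
  set a2 : K := (minpoly K v).coeff 2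
  set a1 : K := (minpoly K v).coeff 1
  set a0 : K := (minpoly K v).coeff 0
  have h4 : (4 : K) ≠ 0 := by
    have : (4 : K) = 2 ^ 2 := by norm_num
    rw [this]; exact pow_ne_zero _ h2
  obtain ⟨c, hc⟩ : ∃ c : K, a3 = 4 * c := ⟨a3 / 4, by field_simp⟩
  refine ⟨c, a2 - 6 * c ^ 2, -(a1 - 2 * a2 * c + 8 * c ^ 3),
    a0 - a1 * c + a2 * c ^ 2 - 3 * c ^ 4, ?_⟩
  rw [hc] at hroot
  simp only [map_sub, map_neg, map_add, map_mul, map_pow, map_ofNat] at hroot ⊢
  linear_combination hroot

/-- The data attached to an element `z` outside `K`, root of `t⁴ + C t² - D t + E`. -/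
structure Data (K L : Type*) [Field K] [Field L] [Algebra K L] (z : L) (C D E : K) : Prop where
  two : (2 : K) ≠ 0
  nq : NoQuad K L
  ind : ∀ a0 a1 a2 a3 : K, algebraMap K L a0 + algebraMap K L a1 * z + algebraMap K L a2 * z ^ 2
      + algebraMap K L a3 * z ^ 3 = 0 → a0 = 0 ∧ a1 = 0 ∧ a2 = 0 ∧ a3 = 0
  root : z ^ 4 + algebraMap K L C * z ^ 2 - algebraMap K L D * z + algebraMap K L E = 0

namespace Data

variable {z : L} {C D E : K}

theorem not_mem (d : Data K L z C D E) (c : K) : z ≠ algebraMap K L c := by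
  intro h
  have := d.ind (-c) 1 0 0 (by rw [map_neg, map_one, map_zero, h]; ring)
  exact one_ne_zero this.2.1

/-- the quartic has no root in `K` -/
theorem quartic_ne (d : Data K L z C D E) (t : K) : t ^ 4 + C * t ^ 2 + D * t + E ≠ 0 := by
  intro h
  have hz : z + algebraMap K L t ≠ 0 := by
    intro h0
    exact d.not_mem (-t) (by rw [map_neg]; exact eq_neg_of_add_eq_zero_left h0)
  have h' := congrArg (algebraMap K L) h
  simp only [map_add, map_mul, map_pow, map_zero] at h'
  have hr := d.root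
  have key : (z + algebraMap K L t) * (algebraMap K L (-(t ^ 3) - C * t - D)
      + algebraMap K L (t ^ 2 + C) * z + algebraMap K L (-t) * z ^ 2
      + algebraMap K L 1 * z ^ 3) = 0 := by
    simp only [map_sub, map_neg, map_add, map_mul, map_pow, map_one]
    linear_combination hr - h'
  have := d.ind _ _ _ _ ((mul_eq_zero.1 key).resolve_left hz)
  exact one_ne_zero this.2.2.2

theorem no_sq_line (d : Data K L z C D E) (p : K) (s : L) (hs : s = z ^ 2 + algebraMap K L p)
    (m : K) (h : s ^ 2 = algebraMap K L m) : False := by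
  obtain ⟨c, hc⟩ := d.nq s m h
  have := d.ind (p - c) 0 1 0 (by
    rw [map_sub, map_zero, map_one, ← hc, hs]; ring)
  exact one_ne_zero this.2.2.1

theorem D_ne (d : Data K L z C D E) : D ≠ 0 := by
  intro h
  have hr := d.root
  have h2L : (2 : L) ≠ 0 := by
    have : (2 : L) = algebraMap K L 2 := (map_ofNat (algebraMap K L) 2).symm
    rw [this]
    exact (map_ne_zero (algebraMap K L)).2 d.two
  obtain ⟨c, hc⟩ : ∃ c : K, C = 2 * c := ⟨C / 2, by rw [mul_div_cancel₀ _ d.two]⟩
  apply d.no_sq_line c _ rfl (c ^ 2 - E)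
  rw [h, hc] at hr
  simp only [map_mul, map_ofNat, map_zero] at hr
  simp only [map_sub, map_pow]
  linear_combination hr

theorem resolvent_ne (d : Data K L z C D E) (x : K) : (x + C) * (x ^ 2 - 4 * E) + D ^ 2 ≠ 0 := by
  intro h
  have hr := d.root
  by_cases hx : x + C = 0
  · rw [hx, zero_mul, zero_add] at h
    exact d.D_ne (pow_eq_zero_iff (two_ne_zero) |>.1 h)
  · have h4 : (4 : K) ≠ 0 := by
      have : (4 : K) = 2 ^ 2 := by norm_num
      rw [this]; exact pow_ne_zero _ d.two
    -- `m = -(x + C)`, `(z² - x/2)² = m z² + D z + x²/4 - E`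
    obtain ⟨y, hy⟩ : ∃ y : K, x = 2 * y := ⟨x / 2, by rw [mul_div_cancel₀ _ d.two]⟩
    obtain ⟨w, hw⟩ : ∃ w : K, D = 2 * w := ⟨D / 2, by rw [mul_div_cancel₀ _ d.two]⟩
    set m : K := -(x + C) with hm
    have hm0 : m ≠ 0 := neg_ne_zero.2 hx
    have hden : z ^ 2 - algebraMap K L y ≠ 0 := by
      intro h0
      have := d.ind (-y) 0 1 0 (by rw [map_neg, map_zero, map_one]; linear_combination h0)
      exact one_ne_zero this.2.2.1
    -- `m (z² - y)² = (m z + w)²`
    have key : algebraMap K L m * (z ^ 2 - algebraMap K L y) ^ 2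
        = (algebraMap K L m * z + algebraMap K L w) ^ 2 := by
      have h' : m * (y ^ 2 - E) = w ^ 2 := by
        have : 4 * (m * (y ^ 2 - E) - w ^ 2) = 0 := by
          rw [hw, hy] at h
          rw [hm, hy]
          linear_combination -h
        linear_combination (mul_eq_zero.1 this).resolve_left h4
      have h'' := congrArg (algebraMap K L) h'
      have hC : C = -m - 2 * y := by rw [hm, hy]; ring
      rw [hC, hw] at hr
      simp only [map_sub, map_mul, map_pow, map_neg, map_ofNat] at h'' hr ⊢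
      linear_combination (algebraMap K L m) * hr + h''
    set s : L := (algebraMap K L m * z + algebraMap K L w) / (z ^ 2 - algebraMap K L y) with hs
    have hs2 : s ^ 2 = algebraMap K L m := by
      rw [hs, div_pow, ← key]
      field_simp
    obtain ⟨c, hc⟩ := d.nq s m hs2
    have hs' : s * (z ^ 2 - algebraMap K L y) = algebraMap K L m * z + algebraMap K L w := by
      rw [hs]; field_simp
    have := d.ind (-(c * y) - w) (-m) c 0 (by
      simp only [map_sub, map_neg, map_mul, map_zero]
      rw [hc] at hs'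
      linear_combination hs')
    exact hm0 (neg_eq_zero.1 this.2.1)

/-- The element attached to a point `(q, y)` of `y² = q⁴ + C q² + D q + E`. -/
theorem eta (d : Data K L z C D E) (q y : K) (hy : y ^ 2 = q ^ 4 + C * q ^ 2 + D * q + E) :
    ∃ (η : L) (b e k : K), η * (z + algebraMap K L q)
        = z ^ 2 - algebraMap K L b * z + algebraMap K L e ∧
      η ^ 2 = algebraMap K L k - algebraMap K L (2 * b) * z := by
  have hy0 : y ≠ 0 := by
    rintro rfl
    exact d.quartic_ne q (by rw [← hy]; ring)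
  have h2y : 2 * y ≠ 0 := mul_ne_zero d.two hy0
  obtain ⟨r, hr⟩ : ∃ r : K, 2 * y * r = 4 * q ^ 3 + 2 * C * q + D :=
    ⟨(4 * q ^ 3 + 2 * C * q + D) / (2 * y), by rw [mul_div_cancel₀ _ h2y]⟩
  set b : K := -(2 * q) - r with hb
  set e : K := -y - q ^ 2 - b * q with he
  set k : K := b ^ 2 + 2 * e - C + 4 * b * q with hk
  have hz : z + algebraMap K L q ≠ 0 := by
    intro h0
    exact d.not_mem (-q) (by rw [map_neg]; exact eq_neg_of_add_eq_zero_left h0)
  refine ⟨(z ^ 2 - algebraMap K L b * z + algebraMap K L e) / (z + algebraMap K L q), b, e, k,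
    by field_simp, ?_⟩
  rw [div_pow, div_eq_iff (pow_ne_zero _ hz)]
  have hroot := d.root
  -- the two remaining coefficient identities
  have i1 : 2 * b * e - D = 2 * b * q ^ 2 - 2 * q * k := by
    rw [hk, he, hb]
    linear_combination hr
  have i0 : e ^ 2 - E = q ^ 2 * k := by
    rw [hk, he, hb]
    linear_combination hy - q * hr
  have j1 := congrArg (algebraMap K L) i1
  have j0 := congrArg (algebraMap K L) i0
  have j2 := congrArg (algebraMap K L) hk
  simp only [map_sub, map_add, map_mul, map_pow, map_ofNat] at j1 j0 j2 ⊢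
  linear_combination hroot - z * j1 + j0 - z ^ 2 * j2

theorem distinct (d : Data K L z C D E) (q1 q2 : K) (hq : q1 ≠ q2) (η1 η2 : L)
    (b1 e1 k1 b2 e2 : K)
    (h1 : η1 * (z + algebraMap K L q1) = z ^ 2 - algebraMap K L b1 * z + algebraMap K L e1)
    (h1' : η1 ^ 2 = algebraMap K L k1 - algebraMap K L (2 * b1) * z)
    (h2 : η2 * (z + algebraMap K L q2) = z ^ 2 - algebraMap K L b2 * z + algebraMap K L e2)
    (c : K) (h : η1 = algebraMap K L c * η2) : False := by
  have hδ : q1 - q2 ≠ 0 := sub_ne_zero.2 hq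
  obtain ⟨A2, hA2⟩ : ∃ A2 : K, A2 * (q1 - q2) = 1 - c := ⟨(1 - c) / (q1 - q2),
    div_mul_cancel₀ _ hδ⟩
  obtain ⟨A1, hA1⟩ : ∃ A1 : K, A1 * (q1 - q2) = c * b2 - b1 :=
    ⟨(c * b2 - b1) / (q1 - q2), div_mul_cancel₀ _ hδ⟩
  obtain ⟨A0, hA0⟩ : ∃ A0 : K, A0 * (q1 - q2) = e1 - c * e2 :=
    ⟨(e1 - c * e2) / (q1 - q2), div_mul_cancel₀ _ hδ⟩
  have hδL : algebraMap K L (q1 - q2) ≠ 0 := (map_ne_zero (algebraMap K L)).2 hδ
  have hη : η1 = algebraMap K L A0 + algebraMap K L A1 * z + algebraMap K L A2 * z ^ 2 := by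
    apply mul_right_cancel₀ hδL
    have a2 := congrArg (algebraMap K L) hA2
    have a1 := congrArg (algebraMap K L) hA1
    have a0 := congrArg (algebraMap K L) hA0
    simp only [map_sub, map_mul, map_one] at a2 a1 a0 ⊢
    linear_combination h1 - algebraMap K L c * h2 - z ^ 2 * a2 - z * a1 - a0
      - (z + algebraMap K L q2) * h
  have hi := d.ind (A0 * q1 - e1) (A0 + A1 * q1 + b1) (A1 + A2 * q1 - 1) A2 (by
    rw [hη] at h1
    simp only [map_sub, map_add, map_mul, map_one]
    linear_combination h1)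
  obtain ⟨_, _, hi2, hi3⟩ := hi
  rw [hi3, zero_mul, add_zero] at hi2
  have hA1' : A1 = 1 := by linear_combination hi2
  rw [hi3, hA1'] at hη
  rw [hη] at h1'
  have := d.ind (A0 ^ 2 - k1) (2 * A0 + 2 * b1) 1 0 (by
    simp only [map_sub, map_add, map_mul, map_one, map_pow, map_ofNat, map_zero] at h1' ⊢
    linear_combination h1')
  exact one_ne_zero this.2.2.1

/-- Infinitely many abscissae. -/
theorem infinite_q (d : Data K L z C D E) :
    {q : K | ∃ y : K, y ^ 2 = q ^ 4 + C * q ^ 2 + D * q + E}.Infinite := by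
  classical
  intro hfin
  apply quartic_infinite C D E d.two d.D_ne d.quartic_ne d.resolvent_ne
  have : {p : K × K | p.2 ^ 2 = p.1 ^ 4 + C * p.1 ^ 2 + D * p.1 + E} ⊆
      ⋃ q ∈ {q : K | ∃ y : K, y ^ 2 = q ^ 4 + C * q ^ 2 + D * q + E},
        {p : K × K | p.1 = q ∧ p.2 ^ 2 = q ^ 4 + C * q ^ 2 + D * q + E} := by
    rintro ⟨q, y⟩ h
    simp only [Set.mem_iUnion]
    exact ⟨q, ⟨y, h⟩, rfl, h⟩
  refine Set.Finite.subset (Set.Finite.biUnion hfin ?_) this
  rintro q ⟨y0, hy0⟩
  apply (({(q, y0), (q, -y0)} : Set (K × K)).toFinite).subset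
  rintro ⟨q', y⟩ ⟨h1, h2⟩
  simp only at h1 h2
  have : (y - y0) * (y + y0) = 0 := by linear_combination h2 - hy0
  rcases mul_eq_zero.1 this with h | h
  · left; rw [h1, sub_eq_zero.1 h]
  · right; rw [h1, eq_neg_of_add_eq_zero_left h]; rfl

/-- A sequence of pairwise non-proportional elements with square in `K + K z`. -/
theorem exists_seq (d : Data K L z C D E) : ∃ η : ℕ → L, (∀ n, η n ≠ 0) ∧
    (∀ n, ∃ a b : K, η n ^ 2 = algebraMap K L a + algebraMap K L b * z) ∧
    ∀ m n, m ≠ n → ∀ c : K, η m ≠ algebraMap K L c * η n := by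
  classical
  have hinf := d.infinite_q
  set f := hinf.natEmbedding with hf
  have hy : ∀ n : ℕ, ∃ y : K, y ^ 2 = (f n : K) ^ 4 + C * (f n : K) ^ 2 + D * (f n : K) + E :=
    fun n => (f n).2
  choose y hy using hy
  choose η b e k h1 h2 using fun n => d.eta (f n : K) (y n) (hy n)
  refine ⟨η, ?_, ?_, ?_⟩
  · intro n h0
    have := h1 n
    rw [h0, zero_mul] at this
    have := d.ind (e n) (-b n) 1 0 (by
      simp only [map_neg, map_one, map_zero]; linear_combination -this)
    exact one_ne_zero this.2.2.1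
  · intro n
    refine ⟨k n, -(2 * b n), ?_⟩
    rw [h2 n, map_neg]; ring
  · intro m n hmn c h
    apply d.distinct (f m : K) (f n : K) _ (η m) (η n) (b m) (e m) (k m) (b n) (e n) (h1 m) (h2 m)
      (h1 n) c h
    intro h'
    exact hmn (f.injective (Subtype.ext h'))

end Data

/-- **Squares on a line.** If `L / K` has degree four and no quadratic subextension and
`v ∈ L ∖ K`, then there are infinitely many pairwise non-proportional `η` with
`η² ∈ K + K v`. -/
theorem exists_seq_of_line (h2 : (2 : K) ≠ 0) (hdim : Module.finrank K L = 4)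
    (hN : NoQuad K L) (v : L) (hv : ∀ c : K, v ≠ algebraMap K L c) :
    ∃ η : ℕ → L, (∀ n, η n ≠ 0) ∧
      (∀ n, ∃ a b : K, η n ^ 2 = algebraMap K L a + algebraMap K L b * v) ∧
      ∀ m n, m ≠ n → ∀ c : K, η m ≠ algebraMap K L c * η n := by
  obtain ⟨c, C, D, E, hr⟩ := depressed h2 hdim hN v hv
  have hz : ∀ a : K, v + algebraMap K L c ≠ algebraMap K L a := by
    intro a h
    apply hv (a - c)
    rw [map_sub, ← h]; ring
  have d : Data K L (v + algebraMap K L c) C D E :=
    ⟨h2, hN, fun a0 a1 a2 a3 h => indep h2 hdim hN _ hz a0 a1 a2 a3 h, hr⟩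
  obtain ⟨η, e1, e2, e3⟩ := d.exists_seq
  refine ⟨η, e1, ?_, e3⟩
  intro n
  obtain ⟨a, b, h⟩ := e2 n
  refine ⟨a + b * c, b, ?_⟩
  rw [h]; simp only [map_add, map_mul]; ring

end FieldPart

end Pool.Agent.Lib.MP_e1960e_nt.H13
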