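import Mathlib
import Pool.Agent.Lib.MP_e1960e_nt.H13.Basic
import Pool.Agent.Lib.MP_e1960e_nt.H13.FieldPart

/-!
# Quartics without root whose cubic resolvent has no root

They are irreducible and define an extension without quadratic subextension.
-/

set_option autoImplicit false

namespace Pool.Agent.Lib.MP_e1960e_nt.H13

open Polynomial

section Quartic

variable {K : Type*} [Field K]

theorem Generic.scale {a b c d e : K} (h : Generic a b c d e) (u : K) (hu : u ≠ 0) :
    Generic (u * a) (u * b) (u * c) (u * d) (u * e) := by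
  refine ⟨mul_ne_zero hu h.lead, ?_, ?_⟩
  · intro t ht
    apply h.noRoot t
    have : u * (a * t ^ 4 + b * t ^ 3 + c * t ^ 2 + d * t + e) = 0 := by linear_combination ht
    exact (mul_eq_zero.1 this).resolve_left hu
  · intro y hy
    obtain ⟨w, rfl⟩ : ∃ w : K, y = u * w := ⟨y / u, by field_simp⟩
    apply h.noRes w
    have : u ^ 3 * (w ^ 3 - c * w ^ 2 + (b * d - 4 * a * e) * w
        - (b ^ 2 * e + a * d ^ 2 - 4 * a * c * e)) = 0 := by linear_combination hy
    exact (mul_eq_zero.1 this).resolve_left (pow_ne_zero _ hu)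

theorem irreducible_of_generic (p : K[X]) (hp : p.Monic) (hd : p.natDegree = 4)
    (h : Generic 1 (p.coeff 3) (p.coeff 2) (p.coeff 1) (p.coeff 0)) : Irreducible p := by
  have h1 : p ≠ 1 := by
    rintro rfl
    simp at hd
  rw [hp.irreducible_iff_natDegree']
  refine ⟨h1, ?_⟩
  intro f g hf hg hfg hmem
  rw [hd, Finset.mem_Ioc] at hmem
  have hdeg : f.natDegree + g.natDegree = 4 := by
    rw [← hf.natDegree_mul hg, hfg, hd]
  have hp4 : p.coeff 4 = 1 := by
    have := hp.coeff_natDegree
    rwa [hd] at this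
  obtain ⟨hg1, hg2⟩ := hmem
  have hcases : g.natDegree = 1 ∨ g.natDegree = 2 := by omega
  rcases hcases with hg' | hg'
  · -- a root
    have hroot : g.eval (-(g.coeff 0)) = 0 := by
      have hgc : g.coeff 1 = 1 := by
        have := hg.coeff_natDegree
        rwa [hg'] at this
      rw [Polynomial.eval_eq_sum_range, hg']
      simp only [Finset.sum_range_succ, Finset.sum_range_zero, zero_add, pow_zero, pow_one, hgc]
      ring
    have : p.eval (-(g.coeff 0)) = 0 := by
      rw [← hfg, Polynomial.eval_mul, hroot, mul_zero]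
    rw [Polynomial.eval_eq_sum_range, hd] at this
    simp only [Finset.sum_range_succ, Finset.sum_range_zero, zero_add, pow_zero, pow_one, hp4]
      at this
    exact h.noRoot (-(g.coeff 0)) (by linear_combination this)
  · have hf' : f.natDegree = 2 := by omega
    have hgc : g.coeff 2 = 1 := by
      have := hg.coeff_natDegree
      rwa [hg'] at this
    have hfc : f.coeff 2 = 1 := by
      have := hf.coeff_natDegree
      rwa [hf'] at this
    have hg3 : ∀ n, 2 < n → g.coeff n = 0 := fun n hn =>
      Polynomial.coeff_eq_zero_of_natDegree_lt (by omega)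
    have hf3 : ∀ n, 2 < n → f.coeff n = 0 := fun n hn =>
      Polynomial.coeff_eq_zero_of_natDegree_lt (by omega)
    have e3 : p.coeff 3 = f.coeff 1 + g.coeff 1 := by
      rw [← hfg, Polynomial.coeff_mul]
      simp [Finset.Nat.antidiagonal_succ, hgc, hfc, hg3, hf3]
    have e2 : p.coeff 2 = f.coeff 0 + g.coeff 0 + f.coeff 1 * g.coeff 1 := by
      rw [← hfg, Polynomial.coeff_mul]
      simp [Finset.Nat.antidiagonal_succ, hgc, hfc]
      ring
    have e1 : p.coeff 1 = f.coeff 1 * g.coeff 0 + f.coeff 0 * g.coeff 1 := by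
      rw [← hfg, Polynomial.coeff_mul]
      simp [Finset.Nat.antidiagonal_succ]
      ring
    have e0 : p.coeff 0 = f.coeff 0 * g.coeff 0 := by
      rw [← hfg, Polynomial.coeff_mul]
      simp
    apply h.noRes (f.coeff 0 + g.coeff 0)
    rw [e3, e2, e1, e0]
    ring

end Quartic

section NoQuad

variable {K L : Type*} [Field K] [Field L] [Algebra K L]

theorem noQuad_of_generic (hdim : Module.finrank K L = 4) (θ : L)
    (ind : ∀ a0 a1 a2 a3 : K, algebraMap K L a0 + algebraMap K L a1 * θ
      + algebraMap K L a2 * θ ^ 2 + algebraMap K L a3 * θ ^ 3 = 0 →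
      a0 = 0 ∧ a1 = 0 ∧ a2 = 0 ∧ a3 = 0)
    (b c d e : K) (hroot : θ ^ 4 + algebraMap K L b * θ ^ 3 + algebraMap K L c * θ ^ 2
      + algebraMap K L d * θ + algebraMap K L e = 0)
    (h : Generic 1 b c d e) : NoQuad K L := by
  intro s m hs
  by_contra hcon
  push Not at hcon
  have hfin : FiniteDimensional K L := Module.finite_of_finrank_pos (by omega)
  have hker : LinearMap.ker (Fintype.linearCombination K
      (![1, s, θ, s * θ, θ ^ 2] : Fin 5 → L)) ≠ ⊥ := by
    apply LinearMap.ker_ne_bot_of_finrank_lt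
    rw [hdim, Module.finrank_fin_fun]; norm_num
  obtain ⟨w, hw, hw0⟩ := Submodule.exists_mem_ne_zero_of_ne_bot hker
  rw [LinearMap.mem_ker, Fintype.linearCombination_apply] at hw
  simp only [Fin.sum_univ_five, Matrix.cons_val_zero, Matrix.cons_val_one, Matrix.cons_val,
    Algebra.smul_def] at hw
  have hlin : ∀ x y : K, algebraMap K L x + algebraMap K L y * s = 0 → x = 0 ∧ y = 0 := by
    intro x y hxy
    have hy : y = 0 := by
      by_contra hy
      have hyL : algebraMap K L y ≠ 0 := (map_ne_zero (algebraMap K L)).2 hy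
      apply hcon (-x / y)
      rw [map_div₀, map_neg, eq_div_iff hyL]
      linear_combination hxy
    rw [hy, map_zero, zero_mul, add_zero] at hxy
    exact ⟨(map_eq_zero (algebraMap K L)).1 hxy, hy⟩
  by_cases h4 : w 4 = 0
  · rw [h4] at hw
    by_cases h23 : w 2 = 0 ∧ w 3 = 0
    · obtain ⟨h2', h3'⟩ := h23
      rw [h2', h3'] at hw
      have := hlin (w 0) (w 1) (by
        simp only [map_zero, zero_mul, add_zero, mul_one] at hw; exact hw)
      apply hw0
      ext i
      fin_cases i
      · exact this.1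
      · exact this.2
      · exact h2'
      · exact h3'
      · exact h4
    · -- `θ` would be in `K + K s`
      have hden : algebraMap K L (w 2) + algebraMap K L (w 3) * s ≠ 0 := fun h0 =>
        h23 (hlin _ _ h0)
      -- `N = w2² - m w3²`, `N θ = -(w0 + w1 s)(w2 - w3 s)`
      set N : K := w 2 ^ 2 - m * w 3 ^ 2 with hN
      have hconj : algebraMap K L (w 2) - algebraMap K L (w 3) * s ≠ 0 := by
        intro h0
        apply h23
        have := hlin (w 2) (-w 3) (by rw [map_neg]; linear_combination h0)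
        exact ⟨this.1, neg_eq_zero.1 this.2⟩
      have hNL : algebraMap K L N = (algebraMap K L (w 2) + algebraMap K L (w 3) * s)
          * (algebraMap K L (w 2) - algebraMap K L (w 3) * s) := by
        rw [hN]; simp only [map_sub, map_mul, map_pow]; rw [← hs]; ring
      have hN0 : N ≠ 0 := by
        intro h0
        rw [h0, map_zero] at hNL
        exact (mul_ne_zero hden hconj) hNL.symm
      -- `θ = α + β s`
      have hNL0 : algebraMap K L N ≠ 0 := (map_ne_zero (algebraMap K L)).2 hN0
      obtain ⟨α, hα⟩ : ∃ α : K, N * α = -(w 0 * w 2) + w 1 * w 3 * m :=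
        ⟨_, mul_div_cancel₀ _ hN0⟩
      obtain ⟨β, hβ⟩ : ∃ β : K, N * β = w 0 * w 3 - w 1 * w 2 :=
        ⟨_, mul_div_cancel₀ _ hN0⟩
      have hθ : θ = algebraMap K L α + algebraMap K L β * s := by
        apply mul_left_cancel₀ hNL0
        have a1 := congrArg (algebraMap K L) hα
        have a2 := congrArg (algebraMap K L) hβ
        simp only [map_mul, map_add, map_sub, map_neg, map_zero, zero_mul, add_zero, mul_one]
          at a1 a2 hw
        linear_combination θ * hNL - a1 - s * a2
          + (algebraMap K L (w 2) - algebraMap K L (w 3) * s) * hw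
          + algebraMap K L (w 1) * algebraMap K L (w 3) * hs
      have := ind (α ^ 2 - β ^ 2 * m) (-(2 * α)) 1 0 (by
        simp only [map_sub, map_mul, map_pow, map_neg, map_ofNat, map_one, map_zero]
        rw [hθ, ← hs]; ring)
      exact one_ne_zero this.2.2.1
  · -- `θ² + p0 θ + q0 = - s (p1 θ + q1)`
    obtain ⟨q0, hq0⟩ : ∃ q0 : K, w 4 * q0 = w 0 := ⟨_, mul_div_cancel₀ _ h4⟩
    obtain ⟨q1, hq1⟩ : ∃ q1 : K, w 4 * q1 = w 1 := ⟨_, mul_div_cancel₀ _ h4⟩
    obtain ⟨p0, hp0⟩ : ∃ p0 : K, w 4 * p0 = w 2 := ⟨_, mul_div_cancel₀ _ h4⟩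
    obtain ⟨p1, hp1⟩ : ∃ p1 : K, w 4 * p1 = w 3 := ⟨_, mul_div_cancel₀ _ h4⟩
    have h4L : algebraMap K L (w 4) ≠ 0 := (map_ne_zero (algebraMap K L)).2 h4
    have hrel : θ ^ 2 + algebraMap K L p0 * θ + algebraMap K L q0
        + s * (algebraMap K L p1 * θ + algebraMap K L q1) = 0 := by
      apply mul_left_cancel₀ h4L
      have a1 := congrArg (algebraMap K L) hq0
      have a2 := congrArg (algebraMap K L) hq1
      have a3 := congrArg (algebraMap K L) hp0
      have a4 := congrArg (algebraMap K L) hp1
      simp only [map_mul] at a1 a2 a3 a4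
      linear_combination hw + a1 + s * a2 + θ * a3 + s * θ * a4
    have hsq : (θ ^ 2 + algebraMap K L p0 * θ + algebraMap K L q0) ^ 2
        = algebraMap K L m * (algebraMap K L p1 * θ + algebraMap K L q1) ^ 2 := by
      rw [← hs]
      linear_combination (θ ^ 2 + algebraMap K L p0 * θ + algebraMap K L q0
        - s * (algebraMap K L p1 * θ + algebraMap K L q1)) * hrel
    have := ind (q0 ^ 2 - m * q1 ^ 2 - e) (2 * p0 * q0 - 2 * m * p1 * q1 - d)
      (p0 ^ 2 + 2 * q0 - m * p1 ^ 2 - c) (2 * p0 - b) (by
        simp only [map_sub, map_mul, map_pow, map_add, map_ofNat]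
        linear_combination hsq - hroot)
    obtain ⟨i0, i1, i2, i3⟩ := this
    apply h.noRes (2 * q0)
    have eb : b = 2 * p0 := by linear_combination -i3
    have ec : c = p0 ^ 2 + 2 * q0 - m * p1 ^ 2 := by linear_combination -i2
    have ed : d = 2 * p0 * q0 - 2 * m * p1 * q1 := by linear_combination -i1
    have ee : e = q0 ^ 2 - m * q1 ^ 2 := by linear_combination -i0
    rw [eb, ec, ed, ee]
    ring

end NoQuad

end Pool.Agent.Lib.MP_e1960e_nt.H13
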