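import Mathlib
import Pool.Agent.Lib.MP_e1960e_nt.H13.Quartic

/-!
# Intersections of two quadrics with a rational point
-/

set_option autoImplicit false

namespace Pool.Agent.Lib.MP_e1960e_nt.H13

open Polynomial Matrix

section Pencil

variable {K : Type*} [Field K]

theorem coeff_four (A B : Matrix (Fin 4) (Fin 4) K) : (pencilPoly A B).coeff 4 = A.det := by
  have := Polynomial.coeff_det_X_add_C_card A B
  simpa [pencilPoly] using this

theorem pencilPoly_eq (A B : Matrix (Fin 4) (Fin 4) K) (hA : A.det ≠ 0) :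
    pencilPoly A B = C A.det * (-(A⁻¹ * B)).charpoly := by
  have hu : IsUnit A.det := isUnit_iff_ne_zero.2 hA
  have h1 : (X : K[X]) • A.map C + B.map C = A.map C * (charmatrix (-(A⁻¹ * B))) := by
    rw [charmatrix, Matrix.mul_sub]
    have e1 : A.map C * (Matrix.scalar (Fin 4)) (X : K[X]) = (X : K[X]) • A.map C := by
      rw [Matrix.scalar_apply, ← Matrix.smul_one_eq_diagonal, Matrix.mul_smul, Matrix.mul_one]
    have e2 : A.map C * (C.mapMatrix (-(A⁻¹ * B))) = -(B.map C) := by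
      rw [RingHom.mapMatrix_apply, ← Matrix.map_mul, Matrix.mul_neg, ← Matrix.mul_assoc,
        Matrix.mul_nonsing_inv _ hu, Matrix.one_mul]
      ext i j
      simp
    rw [e1, e2, sub_neg_eq_add]
  rw [pencilPoly, h1, Matrix.det_mul, Matrix.charpoly]
  congr 1
  rw [← RingHom.mapMatrix_apply, ← RingHom.map_det]

theorem aeval_transpose_mul (A N : Matrix (Fin 4) (Fin 4) K) (h : Nᵀ * A = A * N) (p : K[X]) :
    (aeval N p)ᵀ * A = A * aeval N p := by
  induction p using Polynomial.induction_on' with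
  | add p q hp hq =>
    rw [map_add, Matrix.transpose_add, Matrix.add_mul, Matrix.mul_add, hp, hq]
  | monomial n a =>
    rw [Polynomial.aeval_monomial]
    have hn : (N ^ n)ᵀ * A = A * N ^ n := by
      rw [Matrix.transpose_pow]
      induction n with
      | zero => simp
      | succ n ih =>
        rw [pow_succ, Matrix.mul_assoc, h, ← Matrix.mul_assoc, ih, pow_succ, Matrix.mul_assoc]
    rw [← Algebra.smul_def, Matrix.transpose_smul, Matrix.smul_mul, Matrix.mul_smul, hn]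

theorem quad_eval (A M : Matrix (Fin 4) (Fin 4) K) (h : Mᵀ * A = A * M) (P : Fin 4 → K) :
    (M *ᵥ P) ⬝ᵥ (A *ᵥ (M *ᵥ P)) = P ⬝ᵥ (A *ᵥ ((M * M) *ᵥ P)) := by
  have e : (M *ᵥ P) ⬝ᵥ (A *ᵥ (M *ᵥ P)) = P ⬝ᵥ ((Mᵀ * A * M) *ᵥ P) := by
    have e0 : (M *ᵥ P) ⬝ᵥ (A *ᵥ (M *ᵥ P)) = P ⬝ᵥ (Mᵀ *ᵥ (A *ᵥ (M *ᵥ P))) := by
      rw [← Matrix.vecMul_transpose M P, ← Matrix.dotProduct_mulVec]
    rw [e0, Matrix.mulVec_mulVec, Matrix.mulVec_mulVec]
  rw [e, h, Matrix.mul_assoc, ← Matrix.mulVec_mulVec]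

/-- Main theorem on pencils, sequence form. -/
theorem pencil_seq (h2 : (2 : K) ≠ 0) (A B : Matrix (Fin 4) (Fin 4) K) (hA : Aᵀ = A)
    (hB : Bᵀ = B) (P : Fin 4 → K) (hP : P ≠ 0) (hPA : P ⬝ᵥ (A *ᵥ P) = 0)
    (hPB : P ⬝ᵥ (B *ᵥ P) = 0) (hgen : GenericPencil A B) :
    ∃ x : ℕ → Fin 4 → K, (∀ n, x n ≠ 0) ∧ (∀ n, x n ⬝ᵥ (A *ᵥ x n) = 0) ∧
      (∀ n, x n ⬝ᵥ (B *ᵥ x n) = 0) ∧ ∀ m n, m ≠ n → ∀ c : K, x m ≠ c • x n := by
  classical
  have hdet : A.det ≠ 0 := by
    have := hgen.lead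
    rwa [coeff_four] at this
  have hu : IsUnit A.det := isUnit_iff_ne_zero.2 hdet
  set N : Matrix (Fin 4) (Fin 4) K := -(A⁻¹ * B) with hN
  have hAN : A * N = -B := by
    rw [hN, Matrix.mul_neg, ← Matrix.mul_assoc, Matrix.mul_nonsing_inv _ hu, Matrix.one_mul]
  have hNA : Nᵀ * A = A * N := by
    have : (A * N)ᵀ = A * N := by rw [hAN, Matrix.transpose_neg, hB]
    rw [Matrix.transpose_mul, hA] at this
    exact this
  set χ : K[X] := N.charpoly with hχ
  have hmon : χ.Monic := Matrix.charpoly_monic N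
  have hdeg : χ.natDegree = 4 := by
    rw [hχ, Matrix.charpoly_natDegree_eq_dim]; simp
  have hpp : pencilPoly A B = C A.det * χ := pencilPoly_eq A B hdet
  have hcoef : ∀ n, χ.coeff n = (A.det)⁻¹ * (pencilPoly A B).coeff n := by
    intro n
    rw [hpp, Polynomial.coeff_C_mul, ← mul_assoc, inv_mul_cancel₀ hdet, one_mul]
  have hc4 : χ.coeff 4 = 1 := by
    have := hmon.coeff_natDegree
    rwa [hdeg] at this
  have hgχ : Generic 1 (χ.coeff 3) (χ.coeff 2) (χ.coeff 1) (χ.coeff 0) := by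
    have := Generic.scale hgen (A.det)⁻¹ (inv_ne_zero hdet)
    rw [← hcoef, ← hcoef, ← hcoef, ← hcoef, ← hcoef, hc4] at this
    exact this
  have hirr : Irreducible χ := irreducible_of_generic χ hmon hdeg hgχ
  have : Fact (Irreducible χ) := ⟨hirr⟩
  have hne : χ ≠ 0 := hmon.ne_zero
  have hdim : Module.finrank K (AdjoinRoot χ) = 4 := by
    rw [(AdjoinRoot.powerBasis hne).finrank, AdjoinRoot.powerBasis_dim hne, hdeg]
  set θ : AdjoinRoot χ := AdjoinRoot.root χ with hθ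
  -- evaluation at `N` of polynomials
  have hCH : aeval N χ = 0 := Matrix.aeval_self_charpoly N
  have hmk : ∀ p q : K[X], AdjoinRoot.mk χ p = AdjoinRoot.mk χ q → aeval N p = aeval N q := by
    intro p q h
    rw [AdjoinRoot.mk_eq_mk] at h
    obtain ⟨r, hr⟩ := h
    have : aeval N (p - q) = 0 := by rw [hr, map_mul, hCH, zero_mul]
    rw [map_sub] at this
    exact sub_eq_zero.1 this
  have hinj : ∀ p : K[X], (aeval N p) *ᵥ P = 0 → AdjoinRoot.mk χ p = 0 := by
    intro p hp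
    by_contra hcon
    obtain ⟨q, hq⟩ := AdjoinRoot.mk_surjective (g := χ) ((AdjoinRoot.mk χ p)⁻¹)
    have h1 : AdjoinRoot.mk χ (q * p) = AdjoinRoot.mk χ 1 := by
      rw [map_mul, hq, inv_mul_cancel₀ hcon, map_one]
    have h2 := hmk _ _ h1
    rw [map_mul, map_one] at h2
    apply hP
    have : (aeval N q * aeval N p) *ᵥ P = P := by rw [h2, Matrix.one_mulVec]
    rw [← Matrix.mulVec_mulVec, hp, Matrix.mulVec_zero] at this
    exact this.symm
  have haeval : ∀ p : K[X], aeval θ p = AdjoinRoot.mk χ p := fun p => AdjoinRoot.aeval_eq p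
  have ind : ∀ a0 a1 a2 a3 : K, algebraMap K (AdjoinRoot χ) a0
      + algebraMap K (AdjoinRoot χ) a1 * θ + algebraMap K (AdjoinRoot χ) a2 * θ ^ 2
      + algebraMap K (AdjoinRoot χ) a3 * θ ^ 3 = 0 → a0 = 0 ∧ a1 = 0 ∧ a2 = 0 ∧ a3 = 0 := by
    intro a0 a1 a2 a3 h
    set p : K[X] := C a0 + C a1 * X + C a2 * X ^ 2 + C a3 * X ^ 3 with hp
    have hpv : aeval θ p = 0 := by
      simp only [hp, map_add, map_mul, Polynomial.aeval_C, Polynomial.aeval_X, map_pow]
      exact h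
    rw [haeval, AdjoinRoot.mk_eq_zero] at hpv
    have hp0 : p = 0 := by
      by_contra hne'
      have h1 := Polynomial.natDegree_le_of_dvd hpv hne'
      have h2 : p.natDegree ≤ 3 := by rw [hp]; compute_degree
      omega
    have c0 : p.coeff 0 = a0 := by simp [hp]
    have c1 : p.coeff 1 = a1 := by simp [hp, Polynomial.coeff_C]
    have c2 : p.coeff 2 = a2 := by simp [hp, Polynomial.coeff_X, Polynomial.coeff_C]
    have c3 : p.coeff 3 = a3 := by simp [hp, Polynomial.coeff_X, Polynomial.coeff_C]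
    rw [hp0] at c0 c1 c2 c3
    simp only [Polynomial.coeff_zero] at c0 c1 c2 c3
    exact ⟨c0.symm, c1.symm, c2.symm, c3.symm⟩
  have hroot : θ ^ 4 + algebraMap K _ (χ.coeff 3) * θ ^ 3 + algebraMap K _ (χ.coeff 2) * θ ^ 2
      + algebraMap K _ (χ.coeff 1) * θ + algebraMap K _ (χ.coeff 0) = 0 := by
    have : aeval θ χ = 0 := by rw [haeval, AdjoinRoot.mk_self]
    rw [Polynomial.aeval_eq_sum_range, hdeg] at this
    simp only [Finset.sum_range_succ, Finset.sum_range_zero, zero_add, pow_zero, pow_one, hc4,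
      Algebra.smul_def, map_one, one_mul, mul_one] at this
    linear_combination this
  have hNQ : NoQuad K (AdjoinRoot χ) := noQuad_of_generic hdim θ ind _ _ _ _ hroot hgχ
  -- the second element of the plane
  have hker : LinearMap.ker (Fintype.linearCombination K
      (![(P ⬝ᵥ (A *ᵥ ((N ^ 1) *ᵥ P)), P ⬝ᵥ (B *ᵥ ((N ^ 1) *ᵥ P))),
        (P ⬝ᵥ (A *ᵥ ((N ^ 2) *ᵥ P)), P ⬝ᵥ (B *ᵥ ((N ^ 2) *ᵥ P))),
        (P ⬝ᵥ (A *ᵥ ((N ^ 3) *ᵥ P)), P ⬝ᵥ (B *ᵥ ((N ^ 3) *ᵥ P)))] : Fin 3 → K × K)) ≠ ⊥ := by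
    apply LinearMap.ker_ne_bot_of_finrank_lt
    rw [Module.finrank_prod, Module.finrank_self, Module.finrank_fin_fun]; norm_num
  obtain ⟨w, hw, hw0⟩ := Submodule.exists_mem_ne_zero_of_ne_bot hker
  rw [LinearMap.mem_ker, Fintype.linearCombination_apply] at hw
  simp only [Fin.sum_univ_three, Matrix.cons_val_zero, Matrix.cons_val_one, Matrix.cons_val,
    Prod.smul_mk, Prod.mk_add_mk, Prod.mk_eq_zero, smul_eq_mul] at hw
  obtain ⟨hwA, hwB⟩ := hw
  set pv : K[X] := C (w 0) * X + C (w 1) * X ^ 2 + C (w 2) * X ^ 3 with hpv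
  have hpvN : aeval N pv = w 0 • N ^ 1 + w 1 • N ^ 2 + w 2 • N ^ 3 := by
    simp only [hpv, map_add, map_mul, Polynomial.aeval_C, Polynomial.aeval_X, map_pow,
      Algebra.smul_def, pow_one]
  have hvA : P ⬝ᵥ (A *ᵥ ((aeval N pv) *ᵥ P)) = 0 := by
    rw [hpvN]
    simp only [Matrix.add_mulVec, Matrix.smul_mulVec, Matrix.mulVec_add, Matrix.mulVec_smul,
      dotProduct_add, dotProduct_smul, smul_eq_mul]
    exact hwA
  have hvB : P ⬝ᵥ (B *ᵥ ((aeval N pv) *ᵥ P)) = 0 := by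
    rw [hpvN]
    simp only [Matrix.add_mulVec, Matrix.smul_mulVec, Matrix.mulVec_add, Matrix.mulVec_smul,
      dotProduct_add, dotProduct_smul, smul_eq_mul]
    exact hwB
  set v : AdjoinRoot χ := AdjoinRoot.mk χ pv with hv
  have hv0 : ∀ c : K, v ≠ algebraMap K (AdjoinRoot χ) c := by
    intro c hc
    have hvθ : v = algebraMap K _ (w 0) * θ + algebraMap K _ (w 1) * θ ^ 2
        + algebraMap K _ (w 2) * θ ^ 3 := by
      rw [hv, ← haeval, hpv]
      simp only [map_add, map_mul, Polynomial.aeval_C, Polynomial.aeval_X, map_pow]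
    have := ind (-c) (w 0) (w 1) (w 2) (by
      rw [map_neg, ← hc, hvθ]; ring)
    apply hw0
    ext i
    fin_cases i
    · exact this.2.1
    · exact this.2.2.1
    · exact this.2.2.2
  obtain ⟨η, e1, e2, e3⟩ := exists_seq_of_line h2 hdim hNQ v hv0
  choose p hp using fun n => AdjoinRoot.mk_surjective (g := χ) (η n)
  have hsq : ∀ n, ∃ a b : K, aeval N (p n) * aeval N (p n)
      = a • (1 : Matrix (Fin 4) (Fin 4) K) + b • aeval N pv := by
    intro n
    obtain ⟨a, b, hab⟩ := e2 n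
    refine ⟨a, b, ?_⟩
    have h1 : AdjoinRoot.mk χ (p n * p n) = AdjoinRoot.mk χ (C a + C b * pv) := by
      rw [map_mul, hp, ← pow_two, hab, map_add, map_mul]
      rfl
    have := hmk _ _ h1
    rw [map_mul, map_add, map_mul, Polynomial.aeval_C, Polynomial.aeval_C] at this
    rw [this, Algebra.smul_def, Algebra.smul_def, mul_one]
  refine ⟨fun n => (aeval N (p n)) *ᵥ P, ?_, ?_, ?_, ?_⟩
  · intro n h0
    apply e1 n
    rw [← hp n]
    exact hinj _ h0
  · intro n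
    obtain ⟨a, b, hab⟩ := hsq n
    simp only
    rw [quad_eval A _ (aeval_transpose_mul A N hNA (p n)), hab]
    simp only [Matrix.add_mulVec, Matrix.smul_mulVec, Matrix.mulVec_add, Matrix.mulVec_smul,
      dotProduct_add, dotProduct_smul, smul_eq_mul, Matrix.one_mulVec]
    rw [hPA, hvA]; ring
  · intro n
    obtain ⟨a, b, hab⟩ := hsq n
    have hNB : Nᵀ * B = B * N := by
      have hB' : B = -(A * N) := by rw [hAN, neg_neg]
      rw [hB', Matrix.mul_neg, Matrix.neg_mul, ← Matrix.mul_assoc, hNA]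
    simp only
    rw [quad_eval B _ (aeval_transpose_mul B N hNB (p n)), hab]
    simp only [Matrix.add_mulVec, Matrix.smul_mulVec, Matrix.mulVec_add, Matrix.mulVec_smul,
      dotProduct_add, dotProduct_smul, smul_eq_mul, Matrix.one_mulVec]
    rw [hPB, hvB]; ring
  · intro m n hmn c h
    apply e3 m n hmn c
    simp only at h
    have h1 : (aeval N (p m - C c * p n)) *ᵥ P = 0 := by
      rw [map_sub, map_mul, Polynomial.aeval_C, ← Algebra.smul_def, Matrix.sub_mulVec,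
        Matrix.smul_mulVec, h, sub_self]
    have h3 := hinj _ h1
    rw [map_sub, map_mul, hp, hp, sub_eq_zero] at h3
    rw [h3]
    rfl

end Pencil

end Pool.Agent.Lib.MP_e1960e_nt.H13
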