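import Mathlib
import Pool.Agent.Lib.MP_e1960e_nt.H13.Pencil

/-!
# Quartic surfaces containing an intersection of two quadrics
-/

set_option autoImplicit false

namespace Pool.Agent.Lib.MP_e1960e_nt.H13

open Matrix

section Defs

variable {K : Type*} [Field K]

theorem eval_quad (A : Matrix (Fin 4) (Fin 4) K) (x : Fin 4 → K) :
    MvPolynomial.eval x (quad A) = x ⬝ᵥ (A *ᵥ x) := by
  simp only [quad, map_sum, map_mul, MvPolynomial.eval_C, MvPolynomial.eval_X, dotProduct,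
    Matrix.mulVec, Finset.mul_sum]
  refine Finset.sum_congr rfl fun i _ => Finset.sum_congr rfl fun j _ => ?_
  ring

theorem eval_quartic (A : Fin 4 → Matrix (Fin 4) (Fin 4) K) (x : Fin 4 → K) :
    MvPolynomial.eval x (quartic A) = (x ⬝ᵥ (A 0 *ᵥ x)) * (x ⬝ᵥ (A 3 *ᵥ x))
      - (x ⬝ᵥ (A 1 *ᵥ x)) * (x ⬝ᵥ (A 2 *ᵥ x)) := by
  simp only [quartic, map_sub, map_mul, eval_quad]

theorem quad_smul (A : Matrix (Fin 4) (Fin 4) K) (c : K) (x : Fin 4 → K) :
    (c • x) ⬝ᵥ (A *ᵥ (c • x)) = c ^ 2 * (x ⬝ᵥ (A *ᵥ x)) := by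
  rw [Matrix.mulVec_smul, dotProduct_smul, smul_dotProduct, smul_eq_mul, smul_eq_mul]; ring

/-- `A`-values of a combination. -/
theorem quad_comb (A B : Matrix (Fin 4) (Fin 4) K) (m l : K) (x : Fin 4 → K) :
    x ⬝ᵥ ((m • A - l • B) *ᵥ x) = m * (x ⬝ᵥ (A *ᵥ x)) - l * (x ⬝ᵥ (B *ᵥ x)) := by
  rw [Matrix.sub_mulVec, Matrix.smul_mulVec, Matrix.smul_mulVec, dotProduct_sub, dotProduct_smul,
    dotProduct_smul, smul_eq_mul, smul_eq_mul]

/-- A point of the surface on a generic fibre makes the set of rational points infinite. -/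
theorem infinite_of_generic (h2 : (2 : K) ≠ 0) (A : Fin 4 → Matrix (Fin 4) (Fin 4) K)
    (hA : ∀ i, (A i)ᵀ = A i) (P : Fin 4 → K) (hP : P ≠ 0) (l m : K)
    (hlm : l ≠ 0 ∨ m ≠ 0)
    (h01 : m * (P ⬝ᵥ (A 0 *ᵥ P)) = l * (P ⬝ᵥ (A 1 *ᵥ P)))
    (h23 : m * (P ⬝ᵥ (A 2 *ᵥ P)) = l * (P ⬝ᵥ (A 3 *ᵥ P)))
    (hgen : GenericPencil (m • A 0 - l • A 1) (m • A 2 - l • A 3)) :
    (points (quartic A)).Infinite := by
  have hs1 : (m • A 0 - l • A 1)ᵀ = m • A 0 - l • A 1 := by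
    rw [Matrix.transpose_sub, Matrix.transpose_smul, Matrix.transpose_smul, hA, hA]
  have hs2 : (m • A 2 - l • A 3)ᵀ = m • A 2 - l • A 3 := by
    rw [Matrix.transpose_sub, Matrix.transpose_smul, Matrix.transpose_smul, hA, hA]
  obtain ⟨x, hx0, hxA, hxB, hxd⟩ := pencil_seq h2 _ _ hs1 hs2 P hP
    (by rw [quad_comb, h01, sub_self]) (by rw [quad_comb, h23, sub_self]) hgen
  have hinj : Function.Injective (fun n => Projectivization.mk K (x n) (hx0 n)) := by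
    intro a b hab
    by_contra hne
    simp only at hab
    rw [Projectivization.mk_eq_mk_iff'] at hab
    obtain ⟨c, hc⟩ := hab
    exact hxd a b hne c hc.symm
  refine (Set.infinite_range_of_injective hinj).mono ?_
  rintro _ ⟨n, rfl⟩
  simp only [points, Set.mem_ofPred_eq]
  obtain ⟨c, hc⟩ := Projectivization.exists_smul_eq_mk_rep K (x n) (hx0 n)
  rw [← hc, eval_quartic]
  have hcc : (c • x n : Fin 4 → K) = (c : K) • x n := rfl
  rw [hcc, quad_smul, quad_smul, quad_smul, quad_smul]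
  have e1 := hxA n
  have e2 := hxB n
  rw [quad_comb] at e1 e2
  set a0 := x n ⬝ᵥ (A 0 *ᵥ x n)
  set a1 := x n ⬝ᵥ (A 1 *ᵥ x n)
  set a2 := x n ⬝ᵥ (A 2 *ᵥ x n)
  set a3 := x n ⬝ᵥ (A 3 *ᵥ x n)
  have key : a0 * a3 - a1 * a2 = 0 := by
    rcases hlm with hl | hm
    · have : l * (a0 * a3 - a1 * a2) = 0 := by linear_combination a2 * e1 - a0 * e2
      exact (mul_eq_zero.1 this).resolve_left hl
    · have : m * (a0 * a3 - a1 * a2) = 0 := by linear_combination a3 * e1 - a1 * e2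
      exact (mul_eq_zero.1 this).resolve_left hm
  linear_combination (c : K) ^ 4 * key

end Defs

end Pool.Agent.Lib.MP_e1960e_nt.H13
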