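import Mathlib
import Pool.Agent.Lib.MP_e1960e_nt.H13.Pencil

/-!
# Explicit coefficients of the discriminant quartic
-/

set_option autoImplicit false

namespace Pool.Agent.Lib.MP_e1960e_nt.H13

open Polynomial Matrix

section Expand

variable {R : Type*} [CommRing R]

/-- Explicit determinant of order three, given by its rows. -/
def D3 (a b c : Fin 3 → R) : R :=
  a 0 * (b 1 * c 2 - b 2 * c 1) - a 1 * (b 0 * c 2 - b 2 * c 0) + a 2 * (b 0 * c 1 - b 1 * c 0)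

/-- Explicit determinant of order four, given by its rows. -/
def D4 (a b c d : Fin 4 → R) : R :=
  a 0 * D3 ![b 1, b 2, b 3] ![c 1, c 2, c 3] ![d 1, d 2, d 3]
    - a 1 * D3 ![b 0, b 2, b 3] ![c 0, c 2, c 3] ![d 0, d 2, d 3]
    + a 2 * D3 ![b 0, b 1, b 3] ![c 0, c 1, c 3] ![d 0, d 1, d 3]
    - a 3 * D3 ![b 0, b 1, b 2] ![c 0, c 1, c 2] ![d 0, d 1, d 2]

theorem det_eq_D4 (M : Matrix (Fin 4) (Fin 4) R) : M.det = D4 (M 0) (M 1) (M 2) (M 3) := by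
  rw [Matrix.det_succ_row_zero]
  simp only [Fin.sum_univ_four, Matrix.det_fin_three, Matrix.submatrix_apply, D4, D3]
  simp [Fin.succAbove, Fin.lt_def]
  ring

/-- Explicit coefficients. -/
def co4 (A B : Matrix (Fin 4) (Fin 4) R) : R := D4 (A 0) (A 1) (A 2) (A 3) + 0 * B 0 0

def co3 (A B : Matrix (Fin 4) (Fin 4) R) : R :=
  D4 (B 0) (A 1) (A 2) (A 3) + D4 (A 0) (B 1) (A 2) (A 3) + D4 (A 0) (A 1) (B 2) (A 3)
    + D4 (A 0) (A 1) (A 2) (B 3)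

def co2 (A B : Matrix (Fin 4) (Fin 4) R) : R :=
  D4 (B 0) (B 1) (A 2) (A 3) + D4 (B 0) (A 1) (B 2) (A 3) + D4 (B 0) (A 1) (A 2) (B 3)
    + D4 (A 0) (B 1) (B 2) (A 3) + D4 (A 0) (B 1) (A 2) (B 3) + D4 (A 0) (A 1) (B 2) (B 3)

def co1 (A B : Matrix (Fin 4) (Fin 4) R) : R :=
  D4 (A 0) (B 1) (B 2) (B 3) + D4 (B 0) (A 1) (B 2) (B 3) + D4 (B 0) (B 1) (A 2) (B 3)
    + D4 (B 0) (B 1) (B 2) (A 3)

def co0 (A B : Matrix (Fin 4) (Fin 4) R) : R := D4 (B 0) (B 1) (B 2) (B 3) + 0 * A 0 0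

theorem pencil_expand (A B : Matrix (Fin 4) (Fin 4) R) :
    pencilPoly A B = C (co4 A B) * X ^ 4 + C (co3 A B) * X ^ 3 + C (co2 A B) * X ^ 2
      + C (co1 A B) * X + C (co0 A B) := by
  rw [pencilPoly, det_eq_D4]
  simp only [co4, co3, co2, co1, co0, D4, D3, Matrix.add_apply, Matrix.smul_apply,
    Matrix.map_apply, smul_eq_mul, map_add, map_sub, map_mul, Matrix.cons_val_zero,
    Matrix.cons_val_one, Matrix.cons_val, map_zero]
  ring

end Expand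

end Pool.Agent.Lib.MP_e1960e_nt.H13
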