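import Mathlib
import Pool.Agent.Lib.MP_e1960e_nt.H13.Expand

/-!
# Local conditions at 2 and 3
-/

set_option autoImplicit false

namespace Pool.Agent.Lib.MP_e1960e_nt.H13

open Polynomial Matrix

section Coeff

variable {R : Type*} [CommRing R]

theorem coeff4_eq (A B : Matrix (Fin 4) (Fin 4) R) : (pencilPoly A B).coeff 4 = co4 A B := by
  rw [pencil_expand]; simp [Polynomial.coeff_X, Polynomial.coeff_C]

theorem coeff3_eq (A B : Matrix (Fin 4) (Fin 4) R) : (pencilPoly A B).coeff 3 = co3 A B := by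
  rw [pencil_expand]; simp [Polynomial.coeff_X, Polynomial.coeff_C]

theorem coeff2_eq (A B : Matrix (Fin 4) (Fin 4) R) : (pencilPoly A B).coeff 2 = co2 A B := by
  rw [pencil_expand]; simp [Polynomial.coeff_X, Polynomial.coeff_C]

theorem coeff1_eq (A B : Matrix (Fin 4) (Fin 4) R) : (pencilPoly A B).coeff 1 = co1 A B := by
  rw [pencil_expand]; simp [Polynomial.coeff_C]

theorem coeff0_eq (A B : Matrix (Fin 4) (Fin 4) R) : (pencilPoly A B).coeff 0 = co0 A B := by
  rw [pencil_expand]; simp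

end Coeff

theorem genericPencil_iff {K : Type*} [Field K] (A B : Matrix (Fin 4) (Fin 4) K) :
    GenericPencil A B ↔ Generic (co4 A B) (co3 A B) (co2 A B) (co1 A B) (co0 A B) := by
  rw [GenericPencil, coeff4_eq, coeff3_eq, coeff2_eq, coeff1_eq, coeff0_eq]

/-- Local criterion for rational numbers. -/
theorem generic_of_local (a b c d e : ℤ)
    (h2 : ∀ s r : ZMod 2, (s ≠ 0 ∨ r ≠ 0) → (a : ZMod 2) * s ^ 4 + (b : ZMod 2) * s ^ 3 * r
      + (c : ZMod 2) * s ^ 2 * r ^ 2 + (d : ZMod 2) * s * r ^ 3 + (e : ZMod 2) * r ^ 4 ≠ 0)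
    (h3 : ∀ y : ZMod 3, y ^ 3 - (c : ZMod 3) * y ^ 2 + ((b : ZMod 3) * d - 4 * a * e) * y
      - ((b : ZMod 3) ^ 2 * e + a * d ^ 2 - 4 * a * c * e) ≠ 0) :
    Generic (a : ℚ) (b : ℚ) (c : ℚ) (d : ℚ) (e : ℚ) := by
  refine ⟨?_, ?_, ?_⟩
  · intro ha
    have ha' : a = 0 := by exact_mod_cast ha
    have := h2 1 0 (Or.inl one_ne_zero)
    rw [ha'] at this
    apply this; push_cast; ring
  · intro t ht
    have hden : (t.den : ℚ) ≠ 0 := by exact_mod_cast t.den_nz
    have hcop : Nat.Coprime t.num.natAbs t.den := t.reduced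
    have hint : a * t.num ^ 4 + b * t.num ^ 3 * t.den + c * t.num ^ 2 * (t.den : ℤ) ^ 2
        + d * t.num * (t.den : ℤ) ^ 3 + e * (t.den : ℤ) ^ 4 = 0 := by
      have h1 : t * t.den = t.num := Rat.mul_den_eq_num t
      have : ((a * t.num ^ 4 + b * t.num ^ 3 * t.den + c * t.num ^ 2 * (t.den : ℤ) ^ 2
        + d * t.num * (t.den : ℤ) ^ 3 + e * (t.den : ℤ) ^ 4 : ℤ) : ℚ) = 0 := by
        push_cast
        rw [← h1]
        linear_combination (t.den : ℚ) ^ 4 * ht
      exact_mod_cast this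
    have h := congrArg (Int.cast : ℤ → ZMod 2) hint
    push_cast at h
    refine h2 (t.num : ZMod 2) (t.den : ZMod 2) ?_ h
    by_contra hcon
    push Not at hcon
    obtain ⟨hs, hr⟩ := hcon
    have d1 : (2 : ℤ) ∣ t.num := (ZMod.intCast_zmod_eq_zero_iff_dvd t.num 2).1 (by exact_mod_cast hs)
    have d2 : 2 ∣ t.den := (ZMod.natCast_eq_zero_iff t.den 2).1 hr
    have d1' : 2 ∣ t.num.natAbs := by omega
    have := Nat.dvd_gcd d1' d2
    rw [hcop] at this
    omega
  · intro y hy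
    have hcop : Nat.Coprime y.num.natAbs y.den := y.reduced
    have hint : y.num ^ 3 - c * y.num ^ 2 * y.den + (b * d - 4 * a * e) * y.num * (y.den : ℤ) ^ 2
        - (b ^ 2 * e + a * d ^ 2 - 4 * a * c * e) * (y.den : ℤ) ^ 3 = 0 := by
      have h1 : y * y.den = y.num := Rat.mul_den_eq_num y
      have : ((y.num ^ 3 - c * y.num ^ 2 * y.den + (b * d - 4 * a * e) * y.num * (y.den : ℤ) ^ 2
        - (b ^ 2 * e + a * d ^ 2 - 4 * a * c * e) * (y.den : ℤ) ^ 3 : ℤ) : ℚ) = 0 := by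
        push_cast
        rw [← h1]
        linear_combination (y.den : ℚ) ^ 3 * hy
      exact_mod_cast this
    have h := congrArg (Int.cast : ℤ → ZMod 3) hint
    push_cast at h
    by_cases hq : (y.den : ZMod 3) = 0
    · rw [hq] at h
      have h' : (y.num : ZMod 3) ^ 3 = 0 := by linear_combination h
      have h'' : (y.num : ZMod 3) = 0 := pow_eq_zero_iff (by norm_num) |>.1 h'
      have d1 : (3 : ℤ) ∣ y.num := (ZMod.intCast_zmod_eq_zero_iff_dvd y.num 3).1
        (by exact_mod_cast h'')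
      have d2 : 3 ∣ y.den := (ZMod.natCast_eq_zero_iff y.den 3).1 hq
      have d1' : 3 ∣ y.num.natAbs := by omega
      have := Nat.dvd_gcd d1' d2
      rw [hcop] at this
      omega
    · set q : ZMod 3 := (y.den : ZMod 3) with hqd
      have hp : ∃ w : ZMod 3, (y.num : ZMod 3) = w * q :=
        ⟨(y.num : ZMod 3) * q⁻¹, by rw [mul_assoc, inv_mul_cancel₀ hq, mul_one]⟩
      obtain ⟨w, hw⟩ := hp
      apply h3 w
      rw [hw] at h
      have h' : q ^ 3 * (w ^ 3 - (c : ZMod 3) * w ^ 2 + ((b : ZMod 3) * d - 4 * a * e) * w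
          - ((b : ZMod 3) ^ 2 * e + a * d ^ 2 - 4 * a * c * e)) = 0 := by
        linear_combination h
      exact (mul_eq_zero.1 h').resolve_left (pow_ne_zero _ hq)

/-- Coprime integral representatives of a pair of rational numbers. -/
theorem exists_coprime_pair (l m : ℚ) (h : l ≠ 0 ∨ m ≠ 0) : ∃ (l' m' : ℤ) (c : ℚ),
    c ≠ 0 ∧ l = c * l' ∧ m = c * m' ∧ Int.gcd l' m' = 1 := by
  set x : ℤ := l.num * m.den with hx
  set y : ℤ := m.num * l.den with hy
  have hld : (l.den : ℚ) ≠ 0 := by exact_mod_cast l.den_nz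
  have hmd : (m.den : ℚ) ≠ 0 := by exact_mod_cast m.den_nz
  have hl : l * l.den = l.num := Rat.mul_den_eq_num l
  have hm : m * m.den = m.num := Rat.mul_den_eq_num m
  have hpos : 0 < Int.gcd x y := by
    rw [Int.gcd_pos_iff]
    rcases h with h | h
    · left
      rw [hx]
      exact mul_ne_zero (Rat.num_ne_zero.2 h) (by exact_mod_cast m.den_nz)
    · right
      rw [hy]
      exact mul_ne_zero (Rat.num_ne_zero.2 h) (by exact_mod_cast l.den_nz)
  obtain ⟨x', y', hg, hx', hy'⟩ := Int.exists_gcd_one hpos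
  have hgq : ((Int.gcd x y : ℕ) : ℚ) ≠ 0 := by exact_mod_cast hpos.ne'
  refine ⟨x', y', (Int.gcd x y : ℕ) / (l.den * m.den), div_ne_zero hgq (mul_ne_zero hld hmd),
    ?_, ?_, hg⟩
  · have e1 : (x : ℚ) = x' * (Int.gcd x y : ℕ) := by exact_mod_cast hx'
    have e2 : (x : ℚ) = l * l.den * m.den := by rw [hx, hl]; push_cast; ring
    rw [div_mul_eq_mul_div, eq_div_iff (mul_ne_zero hld hmd)]
    linear_combination e1 - e2
  · have e1 : (y : ℚ) = y' * (Int.gcd x y : ℕ) := by exact_mod_cast hy'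
    have e2 : (y : ℚ) = m * m.den * l.den := by rw [hy, hm]; push_cast; ring
    rw [div_mul_eq_mul_div, eq_div_iff (mul_ne_zero hld hmd)]
    linear_combination e1 - e2

end Pool.Agent.Lib.MP_e1960e_nt.H13
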