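import Mathlib
import Pool.Agent.Lib.MP_e1960e_nt.H13.Local

/-!
# A residue class modulo 30 of quadruples of quadratic forms
-/

set_option autoImplicit false

namespace Pool.Agent.Lib.MP_e1960e_nt.H13

open Polynomial Matrix

/-- Entries of four symmetric integral matrices. -/
def repE : Fin 4 → Fin 4 → Fin 4 → ℤ :=
  ![![![-9, -10, 10, 0], ![-10, 29, -10, 10], ![10, -10, 0, 5], ![0, 10, 5, 10]],
    ![![-5, -5, 0, 0], ![-5, 15, 15, 15], ![0, 15, 11, 0], ![0, 15, 0, 4]],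
    ![![5, 15, -10, -10], ![15, 15, -5, -10], ![-10, -5, -1, -5], ![-10, -10, -5, -1]],
    ![![6, 15, 10, 0], ![15, -4, -10, 0], ![10, -10, -5, 0], ![0, 0, 0, 15]]]

/-- The reduction modulo 2. -/
def rep2 : Fin 4 → Fin 4 → Fin 4 → ZMod 2 :=
  ![![![1, 0, 0, 0], ![0, 1, 0, 0], ![0, 0, 0, 1], ![0, 0, 1, 0]],
    ![![1, 1, 0, 0], ![1, 1, 1, 1], ![0, 1, 1, 0], ![0, 1, 0, 0]],
    ![![1, 1, 0, 0], ![1, 1, 1, 0], ![0, 1, 1, 1], ![0, 0, 1, 1]],
    ![![0, 1, 0, 0], ![1, 0, 0, 0], ![0, 0, 1, 0], ![0, 0, 0, 1]]]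

/-- The reduction modulo 3. -/
def rep3 : Fin 4 → Fin 4 → Fin 4 → ZMod 3 :=
  ![![![0, 2, 1, 0], ![2, 2, 2, 1], ![1, 2, 0, 2], ![0, 1, 2, 1]],
    ![![1, 1, 0, 0], ![1, 0, 0, 0], ![0, 0, 2, 0], ![0, 0, 0, 1]],
    ![![2, 0, 2, 2], ![0, 0, 1, 2], ![2, 1, 2, 1], ![2, 2, 1, 2]],
    ![![0, 0, 1, 0], ![0, 2, 2, 0], ![1, 2, 1, 0], ![0, 0, 0, 0]]]

theorem repE_two : ∀ i j k, ((repE i j k : ℤ) : ZMod 2) = rep2 i j k := by decide

theorem repE_three : ∀ i j k, ((repE i j k : ℤ) : ZMod 3) = rep3 i j k := by decide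

/-- The matrix `m E_a - l E_b`. -/
def cmb {R : Type*} [CommRing R] (E : Fin 4 → Fin 4 → Fin 4 → R) (l m : R) (a b : Fin 4) :
    Matrix (Fin 4) (Fin 4) R := fun i j => m * E a i j - l * E b i j

/-- value of the binary quartic -/
def bq {R : Type*} [CommRing R] (E : Fin 4 → Fin 4 → Fin 4 → R) (l m s r : R) : R :=
  co4 (cmb E l m 0 1) (cmb E l m 2 3) * s ^ 4
    + co3 (cmb E l m 0 1) (cmb E l m 2 3) * s ^ 3 * r
    + co2 (cmb E l m 0 1) (cmb E l m 2 3) * s ^ 2 * r ^ 2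
    + co1 (cmb E l m 0 1) (cmb E l m 2 3) * s * r ^ 3
    + co0 (cmb E l m 0 1) (cmb E l m 2 3) * r ^ 4

/-- value of the cubic resolvent -/
def rc {R : Type*} [CommRing R] (a b c d e y : R) : R :=
  y ^ 3 - c * y ^ 2 + (b * d - 4 * a * e) * y - (b ^ 2 * e + a * d ^ 2 - 4 * a * c * e)

set_option maxRecDepth 100000 in
theorem check_two : ∀ l m s r : ZMod 2, (l ≠ 0 ∨ m ≠ 0) → (s ≠ 0 ∨ r ≠ 0) →
    bq rep2 l m s r ≠ 0 := by
  decide

set_option maxRecDepth 100000 in
theorem check_three : ∀ l m y : ZMod 3, (l ≠ 0 ∨ m ≠ 0) →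
    rc (co4 (cmb rep3 l m 0 1) (cmb rep3 l m 2 3)) (co3 (cmb rep3 l m 0 1) (cmb rep3 l m 2 3))
      (co2 (cmb rep3 l m 0 1) (cmb rep3 l m 2 3)) (co1 (cmb rep3 l m 0 1) (cmb rep3 l m 2 3))
      (co0 (cmb rep3 l m 0 1) (cmb rep3 l m 2 3)) y ≠ 0 := by
  decide

section Functor

variable {R S : Type*} [CommRing R] [CommRing S]

theorem co4_smul (c : R) (A B : Matrix (Fin 4) (Fin 4) R) :
    co4 (c • A) (c • B) = c ^ 4 * co4 A B := by
  simp only [co4, D4, D3, Matrix.smul_apply, smul_eq_mul, Matrix.cons_val_zero,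
    Matrix.cons_val_one, Matrix.cons_val, Pi.smul_apply]
  ring

theorem co4_map (φ : R →+* S) (A B : Matrix (Fin 4) (Fin 4) R) :
    co4 (A.map φ) (B.map φ) = φ (co4 A B) := by
  simp only [co4, D4, D3, Matrix.map_apply, map_add, map_sub, map_mul, map_zero,
    Matrix.cons_val_zero, Matrix.cons_val_one, Matrix.cons_val]

theorem co3_smul (c : R) (A B : Matrix (Fin 4) (Fin 4) R) :
    co3 (c • A) (c • B) = c ^ 4 * co3 A B := by
  simp only [co3, D4, D3, Matrix.smul_apply, smul_eq_mul, Matrix.cons_val_zero,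
    Matrix.cons_val_one, Matrix.cons_val, Pi.smul_apply]
  ring

theorem co3_map (φ : R →+* S) (A B : Matrix (Fin 4) (Fin 4) R) :
    co3 (A.map φ) (B.map φ) = φ (co3 A B) := by
  simp only [co3, D4, D3, Matrix.map_apply, map_add, map_sub, map_mul, map_zero,
    Matrix.cons_val_zero, Matrix.cons_val_one, Matrix.cons_val]

theorem co2_smul (c : R) (A B : Matrix (Fin 4) (Fin 4) R) :
    co2 (c • A) (c • B) = c ^ 4 * co2 A B := by
  simp only [co2, D4, D3, Matrix.smul_apply, smul_eq_mul, Matrix.cons_val_zero,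
    Matrix.cons_val_one, Matrix.cons_val, Pi.smul_apply]
  ring

theorem co2_map (φ : R →+* S) (A B : Matrix (Fin 4) (Fin 4) R) :
    co2 (A.map φ) (B.map φ) = φ (co2 A B) := by
  simp only [co2, D4, D3, Matrix.map_apply, map_add, map_sub, map_mul, map_zero,
    Matrix.cons_val_zero, Matrix.cons_val_one, Matrix.cons_val]

theorem co1_smul (c : R) (A B : Matrix (Fin 4) (Fin 4) R) :
    co1 (c • A) (c • B) = c ^ 4 * co1 A B := by
  simp only [co1, D4, D3, Matrix.smul_apply, smul_eq_mul, Matrix.cons_val_zero,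
    Matrix.cons_val_one, Matrix.cons_val, Pi.smul_apply]
  ring

theorem co1_map (φ : R →+* S) (A B : Matrix (Fin 4) (Fin 4) R) :
    co1 (A.map φ) (B.map φ) = φ (co1 A B) := by
  simp only [co1, D4, D3, Matrix.map_apply, map_add, map_sub, map_mul, map_zero,
    Matrix.cons_val_zero, Matrix.cons_val_one, Matrix.cons_val]

theorem co0_smul (c : R) (A B : Matrix (Fin 4) (Fin 4) R) :
    co0 (c • A) (c • B) = c ^ 4 * co0 A B := by
  simp only [co0, D4, D3, Matrix.smul_apply, smul_eq_mul, Matrix.cons_val_zero,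
    Matrix.cons_val_one, Matrix.cons_val, Pi.smul_apply]
  ring

theorem co0_map (φ : R →+* S) (A B : Matrix (Fin 4) (Fin 4) R) :
    co0 (A.map φ) (B.map φ) = φ (co0 A B) := by
  simp only [co0, D4, D3, Matrix.map_apply, map_add, map_sub, map_mul, map_zero,
    Matrix.cons_val_zero, Matrix.cons_val_one, Matrix.cons_val]

theorem cmb_map (φ : R →+* S) (E : Fin 4 → Fin 4 → Fin 4 → R) (l m : R) (a b : Fin 4) :
    (cmb E l m a b).map φ = cmb (fun i j k => φ (E i j k)) (φ l) (φ m) a b := by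
  ext i j
  simp [cmb]

end Functor

/-- Every pencil of the family is generic when the entries lie in the residue class. -/
theorem class_generic (A : Fin 4 → Matrix (Fin 4) (Fin 4) ℤ)
    (h : ∀ i j k, A i j k ≡ repE i j k [ZMOD 30]) (l m : ℚ) (hlm : l ≠ 0 ∨ m ≠ 0) :
    GenericPencil (m • (A 0).map (Int.cast : ℤ → ℚ) - l • (A 1).map (Int.cast : ℤ → ℚ))
      (m • (A 2).map (Int.cast : ℤ → ℚ) - l • (A 3).map (Int.cast : ℤ → ℚ)) := by
  obtain ⟨l', m', c, hc, hl, hm, hg⟩ := exists_coprime_pair l m hlm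
  have e01 : m • (A 0).map (Int.cast : ℤ → ℚ) - l • (A 1).map (Int.cast : ℤ → ℚ)
      = c • (cmb A l' m' 0 1).map (Int.castRingHom ℚ) := by
    ext i j
    simp only [Matrix.sub_apply, Matrix.smul_apply, Matrix.map_apply, smul_eq_mul, cmb, hl, hm,
      eq_intCast]
    push_cast; ring
  have e23 : m • (A 2).map (Int.cast : ℤ → ℚ) - l • (A 3).map (Int.cast : ℤ → ℚ)
      = c • (cmb A l' m' 2 3).map (Int.castRingHom ℚ) := by
    ext i j
    simp only [Matrix.sub_apply, Matrix.smul_apply, Matrix.map_apply, smul_eq_mul, cmb, hl, hm,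
      eq_intCast]
    push_cast; ring
  rw [genericPencil_iff, e01, e23, co4_smul, co3_smul, co2_smul, co1_smul, co0_smul,
    co4_map, co3_map, co2_map, co1_map, co0_map]
  apply Generic.scale _ (c ^ 4) (pow_ne_zero _ hc)
  simp only [eq_intCast]
  have hA2 : (fun i j k => (Int.castRingHom (ZMod 2)) (A i j k)) = rep2 := by
    funext i j k
    rw [← repE_two i j k, eq_intCast, ZMod.intCast_eq_intCast_iff]
    exact (h i j k).of_dvd (by norm_num)
  have hA3 : (fun i j k => (Int.castRingHom (ZMod 3)) (A i j k)) = rep3 := by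
    funext i j k
    rw [← repE_three i j k, eq_intCast, ZMod.intCast_eq_intCast_iff]
    exact (h i j k).of_dvd (by norm_num)
  have hnot : ∀ p : ℕ, p ≠ 1 → ((l' : ZMod p) ≠ 0 ∨ (m' : ZMod p) ≠ 0) := by
    intro p hp
    by_contra hcon
    push Not at hcon
    have d1 := (ZMod.intCast_zmod_eq_zero_iff_dvd l' p).1 hcon.1
    have d2 := (ZMod.intCast_zmod_eq_zero_iff_dvd m' p).1 hcon.2
    have := Int.dvd_gcd d1 d2
    rw [hg] at this
    exact hp (by simpa using this)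
  apply generic_of_local
  · intro s r hsr
    have := check_two (l' : ZMod 2) (m' : ZMod 2) s r (hnot 2 (by norm_num)) hsr
    rw [bq, ← hA2] at this
    rw [← eq_intCast (Int.castRingHom (ZMod 2)) l', ← eq_intCast (Int.castRingHom (ZMod 2)) m',
      ← cmb_map (Int.castRingHom (ZMod 2)) (fun i j k => A i j k) l' m' 0 1,
      ← cmb_map (Int.castRingHom (ZMod 2)) (fun i j k => A i j k) l' m' 2 3,
      co4_map, co3_map, co2_map, co1_map, co0_map] at this
    simp only [eq_intCast] at this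
    exact this
  · intro y
    have := check_three (l' : ZMod 3) (m' : ZMod 3) y (hnot 3 (by norm_num))
    rw [rc, ← hA3] at this
    rw [← eq_intCast (Int.castRingHom (ZMod 3)) l', ← eq_intCast (Int.castRingHom (ZMod 3)) m',
      ← cmb_map (Int.castRingHom (ZMod 3)) (fun i j k => A i j k) l' m' 0 1,
      ← cmb_map (Int.castRingHom (ZMod 3)) (fun i j k => A i j k) l' m' 2 3,
      co4_map, co3_map, co2_map, co1_map, co0_map] at this
    simp only [eq_intCast] at this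
    exact this

end Pool.Agent.Lib.MP_e1960e_nt.H13
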