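import Mathlib
import Pool.Agent.Lib.MP_e1960e_nt.H13.Defs
import Pool.Agent.Lib.MP_e1960e_nt.H13.Example

/-!
# The surfaces of the residue class are nonsingular
-/

set_option autoImplicit false

namespace Pool.Agent.Lib.MP_e1960e_nt.H13

open Matrix

section Grad

variable {R S : Type*} [CommRing R] [CommRing S]

/-- The gradient of `q₀ q₃ - q₁ q₂` (symmetric matrices). -/
def grad (E : Fin 4 → Matrix (Fin 4) (Fin 4) R) (x : Fin 4 → R) (i : Fin 4) : R :=
  2 * (E 0 *ᵥ x) i * (x ⬝ᵥ (E 3 *ᵥ x)) + (x ⬝ᵥ (E 0 *ᵥ x)) * (2 * (E 3 *ᵥ x) i)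
    - 2 * (E 1 *ᵥ x) i * (x ⬝ᵥ (E 2 *ᵥ x)) - (x ⬝ᵥ (E 1 *ᵥ x)) * (2 * (E 2 *ᵥ x) i)

theorem grad_map (φ : R →+* S) (E : Fin 4 → Matrix (Fin 4) (Fin 4) R) (x : Fin 4 → R)
    (i : Fin 4) : φ (grad E x i) = grad (fun a => (E a).map φ) (fun j => φ (x j)) i := by
  simp only [grad, Matrix.mulVec, dotProduct, map_sub, map_add, map_mul, map_sum, map_ofNat,
    Matrix.map_apply]

theorem grad_smul (c : R) (E : Fin 4 → Matrix (Fin 4) (Fin 4) R) (x : Fin 4 → R)
    (i : Fin 4) : grad E (c • x) i = c ^ 3 * grad E x i := by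
  simp only [grad, Matrix.mulVec_smul, smul_dotProduct, dotProduct_smul, Pi.smul_apply,
    smul_eq_mul]
  ring

end Grad

section Deriv

variable {K L : Type*} [Field K] [Field L] [Algebra K L]

theorem aeval_quad (A : Matrix (Fin 4) (Fin 4) K) (x : Fin 4 → L) :
    MvPolynomial.aeval x (quad A) = x ⬝ᵥ (A.map (algebraMap K L) *ᵥ x) := by
  simp only [quad, map_sum, map_mul, MvPolynomial.aeval_X, dotProduct,
    Matrix.mulVec, Finset.mul_sum, MvPolynomial.aeval_C, Matrix.map_apply]
  refine Finset.sum_congr rfl fun i _ => Finset.sum_congr rfl fun j _ => ?_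
  ring

theorem aeval_pderiv_quad (A : Matrix (Fin 4) (Fin 4) K) (hA : Aᵀ = A) (x : Fin 4 → L)
    (i : Fin 4) : MvPolynomial.aeval x (MvPolynomial.pderiv i (quad A))
      = 2 * (A.map (algebraMap K L) *ᵥ x) i := by
  have hs : ∀ j k, A j k = A k j := fun j k => by
    conv_lhs => rw [← hA]
    rfl
  simp only [quad, map_sum, Derivation.leibniz, MvPolynomial.pderiv_C, MvPolynomial.pderiv_X,
    smul_eq_mul, map_add, map_mul, MvPolynomial.aeval_X, MvPolynomial.aeval_C, Matrix.mulVec,
    dotProduct, Matrix.map_apply, mul_zero, add_zero]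
  fin_cases i <;>
  simp [Fin.sum_univ_four, hs 1 0, hs 2 0, hs 3 0, hs 2 1, hs 3 1, hs 3 2] <;> ring

theorem aeval_pderiv_quartic (A : Fin 4 → Matrix (Fin 4) (Fin 4) K) (hA : ∀ i, (A i)ᵀ = A i)
    (x : Fin 4 → L) (i : Fin 4) : MvPolynomial.aeval x (MvPolynomial.pderiv i (quartic A))
      = grad (fun a => (A a).map (algebraMap K L)) x i := by
  simp only [quartic, map_sub, Derivation.leibniz, smul_eq_mul, map_add, map_mul, aeval_quad,
    aeval_pderiv_quad _ (hA _), grad]
  ring

end Deriv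

section Valuation

/-- In a field of characteristic zero there is a valuation ring in which `5` is not a unit. -/
theorem exists_valuationSubring_five (L : Type*) [Field L] [CharZero L] :
    ∃ V : ValuationSubring L, (5 : L) ∈ V.nonunits := by
  set A : Subring L := (Int.castRingHom L).range with hA
  have h5 : (5 : L) ∈ A := ⟨5, by simp⟩
  set I : Ideal A := Ideal.span {⟨5, h5⟩} with hI
  have hI' : I ≠ ⊤ := by
    intro h
    rw [hI, Ideal.span_singleton_eq_top, isUnit_iff_exists_inv] at h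
    obtain ⟨⟨b, n, hn⟩, hb⟩ := h
    have := congrArg Subtype.val hb
    simp only [Subring.coe_mul, Subring.coe_one] at this
    rw [← hn] at this
    simp only [eq_intCast] at this
    have h' : (5 : ℤ) * n = 1 := by exact_mod_cast this
    omega
  obtain ⟨V, _, hV⟩ := Ideal.image_subset_nonunits_valuationSubring I hI'
  exact ⟨V, hV ⟨⟨5, h5⟩, Ideal.subset_span rfl, rfl⟩⟩

/-- Scaling a nonzero vector into a valuation ring with one coordinate equal to one. -/
theorem exists_scaling {L : Type*} [Field L] (V : ValuationSubring L) (x : Fin 4 → L)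
    (hx : x ≠ 0) : ∃ (c : L) (z : Fin 4 → V) (j : Fin 4), z j = 1 ∧
      ∀ i, x i = c * (z i : L) := by
  obtain ⟨j, hj⟩ := Finite.exists_max (fun i => V.valuation (x i))
  have hj0 : x j ≠ 0 := by
    intro h0
    apply hx
    ext i
    have := hj i
    simp only [h0, map_zero] at this
    have h' : V.valuation (x i) = 0 := le_antisymm this zero_le
    exact (map_eq_zero V.valuation).1 h'
  have hmem : ∀ i, x i / x j ∈ V := by
    intro i
    rw [← V.valuation_le_one_iff, map_div₀]
    have hvj : V.valuation (x j) ≠ 0 := (map_ne_zero V.valuation).2 hj0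
    exact (div_le_one₀ (zero_lt_iff.2 hvj)).2 (hj i)
  refine ⟨x j, fun i => ⟨x i / x j, hmem i⟩, j, ?_, ?_⟩
  · apply Subtype.ext
    simp [div_self hj0]
  · intro i
    simp only
    field_simp

end Valuation

/-- The reduction modulo 5: `q₀ q₃ - q₁ q₂ = x₀⁴ - x₁⁴ + x₂⁴ - x₃⁴`. -/
def rep5 : Fin 4 → Fin 4 → Fin 4 → ℤ :=
  ![![![1, 0, 0, 0], ![0, -1, 0, 0], ![0, 0, 0, 0], ![0, 0, 0, 0]],
    ![![0, 0, 0, 0], ![0, 0, 0, 0], ![0, 0, 1, 0], ![0, 0, 0, -1]],
    ![![0, 0, 0, 0], ![0, 0, 0, 0], ![0, 0, -1, 0], ![0, 0, 0, -1]],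
    ![![1, 0, 0, 0], ![0, 1, 0, 0], ![0, 0, 0, 0], ![0, 0, 0, 0]]]

theorem repE_five : ∀ i j k, (repE i j k - rep5 i j k) % 5 = 0 := by decide

/-- Nonsingularity of the surfaces of the class. -/
theorem class_smooth (A : Fin 4 → Matrix (Fin 4) (Fin 4) ℤ) (hA : ∀ i, (A i)ᵀ = A i)
    (h : ∀ i j k, A i j k ≡ repE i j k [ZMOD 30]) (x : Fin 4 → AlgebraicClosure ℚ)
    (hx : x ≠ 0) : ¬ ∀ i, MvPolynomial.aeval x (MvPolynomial.pderiv i
      (quartic (fun i => (A i).map (Int.cast : ℤ → ℚ)))) = 0 := by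
  intro hgrad
  have hsymm : ∀ i, ((A i).map (Int.cast : ℤ → ℚ))ᵀ = (A i).map (Int.cast : ℤ → ℚ) := by
    intro i
    rw [← Matrix.transpose_map, hA i]
  obtain ⟨V, hV⟩ := exists_valuationSubring_five (AlgebraicClosure ℚ)
  obtain ⟨c, z, j, hzj, hxz⟩ := exists_scaling V x hx
  have hc : c ≠ 0 := by
    rintro rfl
    apply hx
    ext i
    rw [hxz i, zero_mul]; rfl
  have h1 := hgrad j
  rw [aeval_pderiv_quartic _ hsymm] at h1
  have hx' : x = c • (fun i => ((z i : V) : AlgebraicClosure ℚ)) := by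
    ext i; rw [hxz i]; rfl
  rw [hx', grad_smul] at h1
  have h2 := (mul_eq_zero.1 h1).resolve_left (pow_ne_zero _ hc)
  -- in the valuation ring
  have h3 : grad (fun a => (A a).map (Int.cast : ℤ → V)) z j = 0 := by
    apply Subtype.ext
    have := grad_map V.subtype (fun a => (A a).map (Int.cast : ℤ → V)) z j
    simp only [Matrix.map_map] at this
    have e : ∀ a, (A a).map (⇑(V.subtype) ∘ (Int.cast : ℤ → V))
        = ((A a).map (Int.cast : ℤ → ℚ)).map (algebraMap ℚ (AlgebraicClosure ℚ)) := by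
      intro a
      ext p q
      simp
    simp only [e] at this
    rw [ZeroMemClass.coe_zero, ← h2]
    exact this
  -- in the residue field
  set k := IsLocalRing.ResidueField V
  have h4 := congrArg (IsLocalRing.residue V) h3
  rw [grad_map, map_zero] at h4
  have h5 : (5 : k) = 0 := by
    have h5V : (5 : V) ∈ IsLocalRing.maximalIdeal V := by
      rw [← ValuationSubring.coe_mem_nonunits_iff]
      exact hV
    have := (IsLocalRing.residue_eq_zero_iff (5 : V)).2 h5V
    rwa [map_ofNat] at this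
  have hE : ∀ a p q, ((A a p q : ℤ) : k) = ((rep5 a p q : ℤ) : k) := by
    intro a p q
    have d1 : (5 : ℤ) ∣ A a p q - rep5 a p q := by
      have e1 : (30 : ℤ) ∣ repE a p q - A a p q := (h a p q).dvd
      have e2 := repE_five a p q
      omega
    obtain ⟨w, hw⟩ := d1
    have : ((A a p q : ℤ) : k) - ((rep5 a p q : ℤ) : k) = 5 * w := by
      rw [← Int.cast_sub, hw, Int.cast_mul, Int.cast_ofNat]
    rw [h5, zero_mul] at this
    exact sub_eq_zero.1 this
  have h6 : ∀ a, ((A a).map (Int.cast : ℤ → V)).map (IsLocalRing.residue V)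
      = fun p q => ((rep5 a p q : ℤ) : k) := by
    intro a
    ext p q
    simp only [Matrix.map_apply, map_intCast]
    exact hE a p q
  simp only [h6] at h4
  have hzj' : IsLocalRing.residue V (z j) = 1 := by rw [hzj, map_one]
  have h44 : (4 : k) ≠ 0 := by
    intro h0
    have : (1 : k) = 0 := by linear_combination h5 - h0
    exact one_ne_zero this
  have hfin : ∀ (y : Fin 4 → k) (j : Fin 4), y j = 1 →
      grad (fun a => (fun p q => ((rep5 a p q : ℤ) : k) : Matrix (Fin 4) (Fin 4) k)) y j ≠ 0 := by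
    intro y j hy h0
    apply h44
    fin_cases j
    · simp only [Fin.zero_eta] at hy
      simp [grad, rep5, Matrix.mulVec, dotProduct, Fin.sum_univ_four, hy] at h0
      linear_combination h0
    · simp only [Fin.mk_one] at hy
      simp [grad, rep5, Matrix.mulVec, dotProduct, Fin.sum_univ_four, hy] at h0
      linear_combination -h0
    · simp only [Fin.reduceFinMk] at hy
      simp [grad, rep5, Matrix.mulVec, dotProduct, Fin.sum_univ_four, hy] at h0
      linear_combination h0
    · simp only [Fin.reduceFinMk] at hy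
      simp [grad, rep5, Matrix.mulVec, dotProduct, Fin.sum_univ_four, hy] at h0
      linear_combination -h0
  exact hfin (fun i => IsLocalRing.residue V (z i)) j hzj' h4

end Pool.Agent.Lib.MP_e1960e_nt.H13
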