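import Mathlib
import Pool.Agent.Lib.MP_e1960e_nt.H13.BasicDet
import Pool.Agent.Lib.MP_e1960e_nt.H13.Expand
import Pool.Agent.Lib.MP_e1960e_nt.H13.Smooth
import Pool.Agent.Lib.MP_e1960e_nt.H13.CayMain

/-!
# Determinantal quartic surfaces: points and nonsingularity
-/

set_option autoImplicit false

namespace Pool.Agent.Lib.MP_e1960e_nt.H13

open MvPolynomial

section General

variable {R S : Type*} [CommRing R] [CommRing S]

theorem detForm_map (φ : R →+* S) (T : Fin 4 → Fin 4 → Fin 4 → R) :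
    MvPolynomial.map φ (detForm T) = detForm (fun i j k => φ (T i j k)) := by
  rw [detForm, detForm, RingHom.map_det]
  congr 1
  ext j k : 2
  simp [RingHom.mapMatrix_apply, Matrix.map_apply]

theorem eval_detForm (T : Fin 4 → Fin 4 → Fin 4 → R) (x : Fin 4 → R) :
    MvPolynomial.eval x (detForm T) = (Matrix.of fun j k => ∑ i, T i j k * x i).det := by
  rw [detForm, RingHom.map_det]
  congr 1
  ext j k
  simp [RingHom.mapMatrix_apply, Matrix.map_apply]

theorem detForm_homogeneous (T : Fin 4 → Fin 4 → Fin 4 → R) : (detForm T).IsHomogeneous 4 := by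
  rw [detForm, Matrix.det_apply]
  apply MvPolynomial.IsHomogeneous.sum
  intro σ _
  have h1 : (∏ i : Fin 4, (Matrix.of fun j k => ∑ i, MvPolynomial.C (T i j k) *
      MvPolynomial.X i : Matrix (Fin 4) (Fin 4) (MvPolynomial (Fin 4) R)) (σ i) i).IsHomogeneous
      (∑ _i : Fin 4, 1) := by
    apply MvPolynomial.IsHomogeneous.prod
    intro i _
    rw [Matrix.of_apply]
    apply MvPolynomial.IsHomogeneous.sum
    intro j _
    exact MvPolynomial.isHomogeneous_C_mul_X _ _
  have h2 : (∑ _i : Fin 4, 1) = 4 := by simp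
  rw [h2] at h1
  rcases Int.units_eq_one_or (Equiv.Perm.sign σ) with h | h
  · rw [h, one_smul]; exact h1
  · rw [h, Units.neg_smul, one_smul]; exact h1.neg

theorem eval_smul_homogeneous (F : MvPolynomial (Fin 4) R) (n : ℕ) (hF : F.IsHomogeneous n)
    (c : R) (z : Fin 4 → R) :
    MvPolynomial.eval (fun i => c * z i) F = c ^ n * MvPolynomial.eval z F := by
  rw [MvPolynomial.eval_eq', MvPolynomial.eval_eq', Finset.mul_sum]
  refine Finset.sum_congr rfl fun d hd => ?_
  have hdeg : ∑ i, d i = n := by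
    have := hF (MvPolynomial.mem_support_iff.1 hd)
    rw [← this]
    simp [Finsupp.weight_apply, Finsupp.sum_fintype]
  simp only [mul_pow, Finset.prod_mul_distrib, Finset.prod_pow_eq_pow_sum, hdeg]
  ring

end General

section Points

variable {K : Type*} [Field K]

theorem points_detForm (T : Fin 4 → Fin 4 → Fin 4 → K) : points (detForm T) = surf T := by
  ext P
  simp only [points, surf, Set.mem_ofPred_eq, eval_detForm]
  rw [← Matrix.exists_vecMul_eq_zero_iff]
  constructor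
  · rintro ⟨y, hy, h⟩
    refine ⟨y, hy, fun k => ?_⟩
    have := congrFun h k
    simp only [Matrix.vecMul, dotProduct, Matrix.of_apply, Pi.zero_apply] at this
    rw [← this]
    simp only [ap, Fin.sum_univ_four]; ring
  · rintro ⟨y, hy, h⟩
    refine ⟨y, hy, ?_⟩
    funext k
    simp only [Matrix.vecMul, dotProduct, Matrix.of_apply, Pi.zero_apply]
    rw [← h k]
    simp only [ap, Fin.sum_univ_four]; ring

end Points

section ModFive

/-- The tensor modulo 5. -/
def ten5 : Fin 4 → Fin 4 → Fin 4 → ℤ :=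
  ![![![1, 0, 0, 0], ![0, 1, 0, 0], ![0, 0, 1, 0], ![0, 0, 0, 1]],
    ![![-1, 0, 0, 0], ![0, -2, 0, 0], ![0, 0, -3, 0], ![0, 0, 0, -4]],
    ![![0, -1, 0, 0], ![0, 0, -2, 0], ![0, 0, 0, -3], ![-4, 0, 0, 0]],
    ![![0, 1, 0, 0], ![0, 0, 1, 0], ![0, 0, 0, 1], ![1, 0, 0, 0]]]

theorem detForm_ten5 {k : Type*} [Field k] (h5 : (5 : k) = 0) :
    detForm (fun a b c => ((ten5 a b c : ℤ) : k)) = (X 0) ^ 4 - (X 1) ^ 4 + (X 2) ^ 4
      - (X 3) ^ 4 := by
  have h : (5 : MvPolynomial (Fin 4) k) = 0 := by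
    have := congrArg (C : k →+* MvPolynomial (Fin 4) k) h5
    rwa [map_ofNat, map_zero] at this
  rw [detForm, det_eq_D4]
  simp only [D4, D3, Matrix.of_apply, Fin.sum_univ_four, ten5, Matrix.cons_val_zero,
    Matrix.cons_val_one, Matrix.cons_val]
  simp only [Int.cast_one, Int.cast_zero, Int.cast_neg, Int.cast_ofNat, map_one, map_zero, map_neg,
    map_ofNat, zero_mul, one_mul, zero_add, add_zero]
  linear_combination (-2 * X 0 ^ 3 * X 1 + 7 * X 0 ^ 2 * X 1 ^ 2 - 10 * X 0 * X 1 ^ 3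
    + 5 * X 1 ^ 4 - 5 * X 2 ^ 4 + 10 * X 2 ^ 3 * X 3 - 7 * X 2 ^ 2 * X 3 ^ 2
    + 2 * X 2 * X 3 ^ 3) * h

end ModFive

end Pool.Agent.Lib.MP_e1960e_nt.H13
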