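import Mathlib
import Pool.Agent.Lib.MP_e1960e_nt.H13.Det

/-!
# A residue class modulo 30 of determinantal quartic surfaces
-/

set_option autoImplicit false

namespace Pool.Agent.Lib.MP_e1960e_nt.H13

open MvPolynomial NumberField

/-- The integral tensor. -/
def tenE : Fin 4 → Fin 4 → Fin 4 → ℤ :=
  ![![![6, 5, -10, 15], ![15, -9, 5, 0], ![-10, -5, 11, 15], ![0, 15, -5, -9]],
    ![![-6, -5, 10, -15], ![10, -12, 15, 5], ![15, 5, -3, 15], ![0, -10, 10, 1]],
    ![![0, -11, -5, 5], ![-10, 15, 13, 10], ![15, 15, -10, 12], ![1, 10, 10, 10]],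
    ![![5, -4, 0, -5], ![10, -5, -9, 0], ![5, -5, 0, 11], ![-4, -5, 0, -5]]]

theorem tenE_two : ∀ i j k, ((tenE i j k : ℤ) : ZMod 2) = ten2 i j k := by decide

theorem tenE_three : ∀ i j k, ((tenE i j k : ℤ) : ZMod 3) = ten3 i j k := by decide

theorem tenE_five : ∀ i j k, (tenE i j k - ten5 i j k) % 5 = 0 := by decide

theorem tenE_point : ∀ k, tenE 0 0 k + tenE 1 0 k = 0 := by decide

section Class

variable {K : Type} [Field K] [NumberField K]

omit [NumberField K] in
/-- Algebraic integers are `p`-adically integral. -/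
theorem integral_padic {p : ℕ} [hp : Fact p.Prime] (φ : K →+* ℚ_[p]) (a : 𝓞 K) :
    ∃ b : ℤ_[p], φ (a : K) = (b : ℚ_[p]) := by
  have h1 : IsIntegral ℤ (a : K) := NumberField.RingOfIntegers.isIntegral_coe a
  have h2 : IsIntegral ℤ (φ (a : K)) := h1.map φ.toIntAlgHom
  have h3 : IsIntegral ℤ_[p] (φ (a : K)) := h2.tower_top
  obtain ⟨b, hb⟩ := IsIntegrallyClosed.algebraMap_eq_of_integral h3
  exact ⟨b, hb.symm⟩

theorem class_local {p : ℕ} [hp : Fact p.Prime] (hp30 : p ∣ 30) (φ : K →+* ℚ_[p])
    (T : Fin 4 → Fin 4 → Fin 4 → 𝓞 K)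
    (hT : ∀ i j k, (30 : 𝓞 K) ∣ T i j k - ((tenE i j k : ℤ) : 𝓞 K)) :
    ∃ Tp : Fin 4 → Fin 4 → Fin 4 → ℤ_[p], (∀ i j k, φ (T i j k : K) = (Tp i j k : ℚ_[p])) ∧
      ∀ i j k, PadicInt.toZMod (Tp i j k) = ((tenE i j k : ℤ) : ZMod p) := by
  choose Tp hTp using fun i j k => integral_padic φ (T i j k)
  refine ⟨Tp, hTp, fun i j k => ?_⟩
  obtain ⟨t, ht⟩ := hT i j k
  obtain ⟨b, hb⟩ := integral_padic φ t
  have h1 : Tp i j k = ((tenE i j k : ℤ) : ℤ_[p]) + 30 * b := by
    apply Subtype.ext
    have h2 : (T i j k : K) = ((tenE i j k : ℤ) : K) + 30 * (t : K) := by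
      have := congrArg (algebraMap (𝓞 K) K) ht
      simp only [map_sub, map_mul, map_ofNat, map_intCast] at this
      linear_combination this
    have h3 := congrArg φ h2
    rw [hTp, map_add, map_mul, map_intCast, map_ofNat, hb] at h3
    push_cast
    exact h3
  rw [h1, map_add, map_mul, map_intCast, map_ofNat]
  have h30 : (30 : ZMod p) = 0 := by
    have := (ZMod.natCast_eq_zero_iff 30 p).2 hp30
    exact_mod_cast this
  rw [h30, zero_mul, add_zero]

theorem class_dichotomy (φ2 : K →+* ℚ_[2]) (φ3 : K →+* ℚ_[3]) (T : Fin 4 → Fin 4 → Fin 4 → 𝓞 K)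
    (hT : ∀ i j k, (30 : 𝓞 K) ∣ T i j k - ((tenE i j k : ℤ) : 𝓞 K)) :
    points (detForm fun i j k => (T i j k : K)) = ∅ ∨
      (points (detForm fun i j k => (T i j k : K))).Infinite := by
  rcases Set.eq_empty_or_nonempty (points (detForm fun i j k => (T i j k : K))) with h | h
  · exact Or.inl h
  · right
    intro hfin
    rw [points_detForm] at h hfin
    obtain ⟨T2, hT2, h2⟩ := class_local (by norm_num) φ2 T hT
    obtain ⟨T3, hT3, h3⟩ := class_local (by norm_num) φ3 T hT
    exact cayley_dichotomy φ2 φ3 _ T2 hT2 (fun i j k => by rw [h2, tenE_two]) T3 hT3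
      (fun i j k => by rw [h3, tenE_three]) hfin h

omit [NumberField K] in
/-- Algebraic integers lie in every valuation ring of a field extension. -/
theorem integral_valuation {L : Type} [Field L] [Algebra K L] (V : ValuationSubring L)
    (a : 𝓞 K) : ∃ b : V, algebraMap K L (a : K) = (b : L) := by
  have h1 : IsIntegral ℤ (a : K) := NumberField.RingOfIntegers.isIntegral_coe a
  have h2 : IsIntegral ℤ (algebraMap K L (a : K)) := h1.map (algebraMap K L).toIntAlgHom
  have h3 : IsIntegral V (algebraMap K L (a : K)) := h2.tower_top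
  obtain ⟨b, hb⟩ := IsIntegrallyClosed.algebraMap_eq_of_integral h3
  exact ⟨b, hb.symm⟩

theorem detClass_smooth (T : Fin 4 → Fin 4 → Fin 4 → 𝓞 K)
    (hT : ∀ i j k, (30 : 𝓞 K) ∣ T i j k - ((tenE i j k : ℤ) : 𝓞 K))
    (x : Fin 4 → AlgebraicClosure K) (hx : x ≠ 0) :
    ¬ ∀ i, MvPolynomial.aeval x (MvPolynomial.pderiv i
      (detForm fun i j k => (T i j k : K))) = 0 := by
  intro hgrad
  obtain ⟨V, hV⟩ := exists_valuationSubring_five (AlgebraicClosure K)
  obtain ⟨c, z, j, hzj, hxz⟩ := exists_scaling V x hx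
  have hc : c ≠ 0 := by
    rintro rfl
    apply hx
    ext i
    rw [hxz i, zero_mul]; rfl
  choose TV hTV using fun i j k => integral_valuation (K := K) V (T i j k)
  have hmap1 : MvPolynomial.map (algebraMap K (AlgebraicClosure K))
      (detForm fun i j k => (T i j k : K)) = MvPolynomial.map V.subtype (detForm TV) := by
    rw [detForm_map, detForm_map]
    congr 1
    funext i j k
    exact hTV i j k
  have h1 := hgrad j
  rw [MvPolynomial.aeval_def, ← MvPolynomial.eval_map, ← MvPolynomial.pderiv_map, hmap1] at h1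
  have hx' : x = fun i => c * ((z i : V) : AlgebraicClosure K) := funext hxz
  have hhom : (MvPolynomial.pderiv j (MvPolynomial.map V.subtype (detForm TV))).IsHomogeneous 3 :=
    ((detForm_homogeneous TV).map V.subtype).pderiv
  rw [hx', eval_smul_homogeneous _ 3 hhom] at h1
  have h2 := (mul_eq_zero.1 h1).resolve_left (pow_ne_zero _ hc)
  have h3 : MvPolynomial.eval z (MvPolynomial.pderiv j (detForm TV)) = 0 := by
    apply Subtype.ext
    rw [ZeroMemClass.coe_zero, ← h2, MvPolynomial.pderiv_map]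
    have := MvPolynomial.eval₂_comp_left V.subtype (RingHom.id V) z
      (MvPolynomial.pderiv j (detForm TV))
    rw [MvPolynomial.eval_map]
    exact this
  set k := IsLocalRing.ResidueField V
  have h4 := congrArg (IsLocalRing.residue V) h3
  rw [map_zero] at h4
  have h5 : (5 : k) = 0 := by
    have h5V : (5 : V) ∈ IsLocalRing.maximalIdeal V := by
      rw [← ValuationSubring.coe_mem_nonunits_iff]
      exact hV
    have := (IsLocalRing.residue_eq_zero_iff (5 : V)).2 h5V
    rwa [map_ofNat] at this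
  have hTk : ∀ a b d, IsLocalRing.residue V (TV a b d) = ((ten5 a b d : ℤ) : k) := by
    intro a b d
    obtain ⟨t, ht⟩ := hT a b d
    obtain ⟨tV, htV⟩ := integral_valuation (K := K) V t
    have e1 : TV a b d = ((tenE a b d : ℤ) : V) + 30 * tV := by
      apply Subtype.ext
      have e2 : (T a b d : K) = ((tenE a b d : ℤ) : K) + 30 * (t : K) := by
        have := congrArg (algebraMap (𝓞 K) K) ht
        simp only [map_sub, map_mul, map_ofNat, map_intCast] at this
        linear_combination this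
      have e3 := congrArg (algebraMap K (AlgebraicClosure K)) e2
      rw [hTV, map_add, map_mul, map_intCast, map_ofNat, htV] at e3
      push_cast
      exact e3
    obtain ⟨w, hw⟩ : (5 : ℤ) ∣ tenE a b d - ten5 a b d := Int.dvd_of_emod_eq_zero (tenE_five a b d)
    have e4 : ((tenE a b d : ℤ) : k) = ((ten5 a b d : ℤ) : k) := by
      have : ((tenE a b d : ℤ) : k) - ((ten5 a b d : ℤ) : k) = 5 * (w : k) := by
        rw [← Int.cast_sub, hw, Int.cast_mul, Int.cast_ofNat]
      rw [h5, zero_mul] at this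
      exact sub_eq_zero.1 this
    rw [e1, map_add, map_mul, map_intCast, map_ofNat, e4]
    have h30 : (30 : k) = 0 := by
      have : (30 : k) = 5 * 6 := by norm_num
      rw [this, h5, zero_mul]
    rw [h30, zero_mul, add_zero]
  have h6 : MvPolynomial.eval (fun i => IsLocalRing.residue V (z i)) (MvPolynomial.pderiv j
      (MvPolynomial.map (IsLocalRing.residue V) (detForm TV))) = 0 := by
    rw [MvPolynomial.pderiv_map, MvPolynomial.eval_map]
    have := MvPolynomial.eval₂_comp_left (IsLocalRing.residue V) (RingHom.id V) z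
      (MvPolynomial.pderiv j (detForm TV))
    rw [← h4]
    exact this.symm
  rw [detForm_map] at h6
  simp only [hTk] at h6
  rw [detForm_ten5 h5] at h6
  have hzj' : IsLocalRing.residue V (z j) = 1 := by rw [hzj, map_one]
  have h44 : (4 : k) ≠ 0 := by
    intro h0
    have : (1 : k) = 0 := by linear_combination h5 - h0
    exact one_ne_zero this
  have hfin : ∀ (y : Fin 4 → k) (j : Fin 4), y j = 1 → MvPolynomial.eval y (MvPolynomial.pderiv j
      ((X 0) ^ 4 - (X 1) ^ 4 + (X 2) ^ 4 - (X 3) ^ 4 : MvPolynomial (Fin 4) k)) ≠ 0 := by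
    intro y j hy h0
    apply h44
    fin_cases j
    · simp only [Fin.zero_eta] at hy h0
      simp [Derivation.leibniz_pow, MvPolynomial.pderiv_X, hy] at h0
      exact h0
    · simp only [Fin.mk_one] at hy h0
      simp [Derivation.leibniz_pow, MvPolynomial.pderiv_X, hy] at h0
      exact h0
    · simp only [Fin.reduceFinMk] at hy h0
      simp [Derivation.leibniz_pow, MvPolynomial.pderiv_X, hy] at h0
      exact h0
    · simp only [Fin.reduceFinMk] at hy h0
      simp [Derivation.leibniz_pow, MvPolynomial.pderiv_X, hy] at h0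
      exact h0
  exact hfin _ j hzj' h6

end Class

end Pool.Agent.Lib.MP_e1960e_nt.H13
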